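import Pool.Agent.Lib.MP_9dcf40_lc.SR.SpecV

/-!
# A circuit for `fq c` (Cir)
-/

namespace SRBP

open Finset

namespace CirAux

theorem wires_congr (n : ℕ) (A A' : ℕ → ℕ → Bool) (y : ℕ → Bool) (t : ℕ)
    (h : ∀ i j, n ≤ i → i < t → j < i → A i j = A' i j) : wires n A y t = wires n A' y t := by
  induction t with
  | zero => rfl
  | succ t ih =>
    have h1 := ih fun i j h1 h2 h3 => h i j h1 (by omega) h3
    rw [wires, wires, h1]
    congr 2
    split_ifs with ht
    · rfl
    · congr 1
      rw [Bool.eq_iff_iff, List.all_eq_true, List.all_eq_true]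
      refine forall₂_congr fun j hj => ?_
      rw [List.mem_range] at hj
      rw [h t j (by omega) (by omega) hj]

theorem foldr_xor (l : List Bool) :
    (if l.foldr xor false = true then (1 : ZMod 2) else 0) =
      (l.map (fun b => if b = true then (1 : ZMod 2) else 0)).sum := by
  induction l with
  | nil => simp
  | cons a l ih =>
    rw [List.map_cons, List.sum_cons, ← ih, List.foldr_cons]
    cases a <;> cases l.foldr xor false <;> decide

theorem sum_filter_map {α : Type} (l : List α) (p : α → Bool) (f : α → ZMod 2) :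
    ((l.filter p).map f).sum = (l.map (fun x => (if p x = true then 1 else 0) * f x)).sum := by
  induction l with
  | nil => simp
  | cons a l ih =>
    by_cases ha : p a = true
    · rw [List.filter_cons_of_pos ha, List.map_cons, List.map_cons, List.sum_cons,
        List.sum_cons, ih, if_pos ha, one_mul]
    · rw [List.filter_cons_of_neg ha, List.map_cons, List.sum_cons, ih, if_neg ha, zero_mul,
        zero_add]

theorem one_iff (b : Bool) : ((if b = true then (1 : ZMod 2) else 0) = 1) ↔ b = true := by
  cases b <;> simp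

theorem zero_iff (b : Bool) : ((if b = true then (1 : ZMod 2) else 0) = 0) ↔ (!b) = true := by
  cases b <;> simp

/-- The extension of `y` by `false`. -/
def ext {n : ℕ} (y : Fin n → Bool) : ℕ → Bool := fun i => if h : i < n then y ⟨i, h⟩ else false

theorem ext_val {n : ℕ} (y : Fin n → Bool) (i : Fin n) : ext y i = y i := by
  simp [ext]

/-- The monomials. -/
noncomputable def T1 {n : ℕ} (c : Coef n → Bool) : List (List ℕ) :=
  ((univ : Finset (Coef n)).toList.filter c).map (fun S : Coef n => S.1.toList.map (fun i : Fin n => (i : ℕ)))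

theorem T1_length {n : ℕ} (c : Coef n → Bool) : (T1 c).length ≤ Fintype.card (Coef n) := by
  rw [T1, List.length_map]
  refine (List.length_filter_le _ _).trans ?_
  rw [Finset.length_toList, Finset.card_univ]

theorem T1_sum {n : ℕ} (c : Coef n → Bool) (y : Fin n → Bool) :
    (if ((T1 c).map (fun M => M.all (fun i => ext y i))).foldr xor false = true
      then (1 : ZMod 2) else 0) = quartic c y := by
  rw [foldr_xor, T1, List.map_map, List.map_map, sum_filter_map, quartic, Finset.sum_map_toList]
  refine Finset.sum_congr rfl fun S _ => ?_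
  congr 1
  rw [Finset.prod_boole]
  simp only [Function.comp_apply, List.all_map, List.all_eq_true, Finset.mem_toList, ext_val]
  by_cases h : ∀ i ∈ (S : Finset (Fin n)), y i = true
  · rw [if_pos h, if_pos h]
  · rw [if_neg h, if_neg h]

theorem T2_sum {n : ℕ} (y : Fin n → Bool) :
    (if (((List.range n).map (fun i => [i])).map
      (fun M => M.all (fun i => ext y i))).foldr xor false = true
      then (1 : ZMod 2) else 0) = ∑ i, (if y i then (1 : ZMod 2) else 0) := by
  rw [foldr_xor, List.map_map, List.map_map]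
  have h1 : (∑ i, (if y i then (1 : ZMod 2) else 0)) =
      ∑ i ∈ Finset.range n, (if ext y i = true then (1 : ZMod 2) else 0) := by
    rw [Finset.sum_range]
    refine Finset.sum_congr rfl fun i _ => ?_
    rw [ext_val]
  rw [h1, Finset.sum_eq_multiset_sum, Finset.range_val, ← Multiset.coe_range,
    Multiset.map_coe, Multiset.sum_coe]
  congr 1
  refine List.map_congr_left fun i _ => ?_
  simp

end CirAux

open CirAux in
/-- CIR. -/
theorem tCir (h1 : S_Gat) (h2 : S_Mon) : S_Cir := by
  intro n m c hm
  obtain ⟨g1, g2, g3, g4⟩ := h1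
  set L0 : List ((ℕ → Bool) → Bool) := (List.range n).map (fun i => fun y : ℕ → Bool => y i)
    with hL0
  have hmem : ∀ i < n, (fun y : ℕ → Bool => y i) ∈ L0 := fun i hi =>
    List.mem_map.2 ⟨i, List.mem_range.2 hi, rfl⟩
  have s0 : Has n 0 L0 := g2 n
  have s1 := h2 n 0 L0 (T1 c) s0 hmem (by
    intro M hM i hi
    obtain ⟨S, -, rfl⟩ := List.mem_map.1 hM
    obtain ⟨j, -, rfl⟩ := List.mem_map.1 hi
    exact Fin.is_lt _)
  set φ1 : (ℕ → Bool) → Bool := fun y =>
    ((T1 c).map (fun M => M.all (fun i => y i))).foldr xor false with hφ1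
  have s2 := h2 n _ (φ1 :: L0) ((List.range n).map (fun i => [i])) s1
    (fun i hi => List.mem_cons_of_mem _ (hmem i hi)) (by
      intro M hM i hi
      obtain ⟨j, hj, rfl⟩ := List.mem_map.1 hM
      rw [List.mem_singleton] at hi
      rw [hi]
      exact List.mem_range.1 hj)
  set φ2 : (ℕ → Bool) → Bool := fun y =>
    (((List.range n).map (fun i => [i])).map (fun M => M.all (fun i => y i))).foldr xor false
    with hφ2
  have s3 := g1 n _ _ [φ2] s2 (by
    intro φ hφ
    rw [List.mem_singleton] at hφ
    rw [hφ]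
    exact List.mem_cons_self)
  have hle : 0 + 6 * (T1 c).length + 1 + 6 * ((List.range n).map (fun i => [i])).length + 1 + 1
      ≤ m := by
    have := T1_length c
    rw [List.length_map, List.length_range]
    omega
  obtain ⟨A, hA⟩ := g3 n _ m _ hle s3
  obtain ⟨i1, hi1, hw1⟩ := hA φ1 (by simp)
  obtain ⟨i2, hi2, hw2⟩ := hA (fun y => !([φ2].all (fun φ => φ y))) (by simp)
  refine ⟨fun a => match a with
    | Sum.inl p => A (n + p.1) p.2
    | Sum.inr o => decide ((o : ℕ) = i1 ∨ (o : ℕ) = i2), fun y => ?_⟩
  have hwire : ∀ o : Fin (n + m),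
      wire n (fun i j => if h : i - n < m ∧ j < n + m then A (n + (i - n)) j else false)
        (ext y) o = wire n A (ext y) o := by
    intro o
    rw [wire, wire, wires_congr n _ A (ext y) (o + 1)]
    intro i j h1 h2 h3
    have h4 : i - n < m ∧ j < n + m := by omega
    rw [dif_pos h4]
    congr 1
    omega
  have hkey : cv n m (fun a => match a with
      | Sum.inl p => A (n + p.1) p.2
      | Sum.inr (Sum.inl o) => decide ((o : ℕ) = i1 ∨ (o : ℕ) = i2)
      | Sum.inr (Sum.inr i) => y i) ↔ ∀ o : Fin (n + m), ((o : ℕ) = i1 ∨ (o : ℕ) = i2) →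
        wire n A (ext y) o = true := by
    unfold cv
    refine forall_congr' fun o => ?_
    rw [← hwire o]
    simp only [decide_eq_true_eq]
    exact Iff.rfl
  refine Iff.trans hkey ?_
  rw [fq, ← T1_sum, ← T2_sum, one_iff, zero_iff]
  constructor
  · intro h
    have e1 := h ⟨i1, hi1⟩ (Or.inl rfl)
    have e2 := h ⟨i2, hi2⟩ (Or.inr rfl)
    rw [hw1] at e1
    rw [hw2] at e2
    exact ⟨e1, by simpa [hφ2] using e2⟩
  · rintro ⟨e1, e2⟩ o (ho | ho)
    · rw [ho, hw1]; exact e1
    · rw [ho, hw2]; simpa [hφ2] using e2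

end SRBP
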