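import Pool.Agent.Lib.MP_9dcf40_lc.SR.Bridge
import Pool.Agent.Lib.MP_9dcf40_lc.SR.TopC2

/-!
# Programs which read the bits of a circuit and the input of the circuit
-/

namespace SRBP

open Finset

/-- The substitution of the constants `c`. -/
def sc {κ : Type} {n : ℕ} (c : κ → Bool) (a : κ ⊕ Fin n) : Bool ⊕ Fin n :=
  Sum.elim (fun b => Sum.inl (c b)) (fun i => Sum.inr i) a

theorem subl_sc {κ : Type} {n : ℕ} (c : κ → Bool) (l : List ((κ ⊕ Fin n) × Bool)) :
    (subl (sc c) l).map Prod.fst = ytests l := by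
  induction l with
  | nil => rfl
  | cons p l ih =>
    obtain ⟨a, b⟩ := p
    rcases a with a | i
    · have h1 : subl (sc c) ((Sum.inl a, b) :: l) = subl (sc c) l := by
        unfold subl
        rw [List.filterMap_cons]
        simp [sc]
      have h2 : ytests ((Sum.inl a, b) :: l) = ytests l := by
        unfold ytests
        rw [List.filterMap_cons]
        simp
      rw [h1, h2, ih]
    · have h1 : subl (sc c) ((Sum.inr i, b) :: l) = (i, b) :: subl (sc c) l := by
        unfold subl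
        rw [List.filterMap_cons]
        simp [sc]
      have h2 : ytests ((Sum.inr i, b) :: l) = i :: ytests l := by
        unfold ytests
        rw [List.filterMap_cons]
        simp
      rw [h1, h2, List.map_cons, ih]

theorem rep_le_of_length {n s : ℕ} (L : List (Fin n)) (hall : ∀ i, i ∈ L) (hlen : L.length ≤ n + s) :
    (univ.filter (fun i => 2 ≤ L.count i)).card ≤ s := by
  have h1 : L.toFinset = univ := by
    ext i
    simp [hall i]
  have h2 := List.sum_toFinset_count_eq_length L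
  rw [h1] at h2
  have h3 : ∀ i : Fin n, 1 + (if 2 ≤ L.count i then 1 else 0) ≤ L.count i := by
    intro i
    have h4 : 0 < L.count i := List.count_pos_iff.2 (hall i)
    split_ifs with h5 <;> omega
  have h6 : ∑ i : Fin n, (1 + (if 2 ≤ L.count i then 1 else 0)) ≤ ∑ i, L.count i :=
    sum_le_sum fun i _ => h3 i
  rw [sum_add_distrib, h2, sum_boole] at h6
  simp only [sum_const, card_univ, Fintype.card_fin, smul_eq_mul, mul_one, Nat.cast_id] at h6
  omega

/-- The theorem, for any function of the form `y ↦ fq c₀ y`. -/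
theorem cheap_core {κ : Type} [Fintype κ] [DecidableEq κ] (h : S_Res) {n : ℕ} (c₀ : Coef n → Bool)
    (c : κ → Bool) (P : NBP (κ ⊕ Fin n)) (s : ℕ) (hP : ∀ y, Accepts P (Sum.elim c y) → fq c₀ y) :
    ∃ P' : NBP (Fin n), Fintype.card P'.V = Fintype.card P.V ∧ (∀ y, Accepts P' y → fq c₀ y) ∧
      ∀ y, Cheap P s (Sum.elim c y) →
        ∃ v l, P'.acc v ∧ Walk P' P'.start l v ∧ Consistent y l ∧ (rep l).card ≤ s := by
  have hσ : ∀ (a b : κ ⊕ Fin n) (i : Fin n), sc c a = Sum.inr i → sc c b = Sum.inr i → a = b := by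
    have h1 : ∀ (a : κ ⊕ Fin n) (i : Fin n), sc c a = Sum.inr i → a = Sum.inr i := by
      intro a i ha
      rcases a with a | j
      · have h2 : (Sum.inl (c a) : Bool ⊕ Fin n) = Sum.inr i := ha
        cases h2
      · have h2 : (Sum.inr j : Bool ⊕ Fin n) = Sum.inr i := ha
        rw [Sum.inr.inj h2]
    intro a b i ha hb
    rw [h1 a i ha, h1 b i hb]
  have hz : ∀ y : Fin n → Bool, (fun a => Sum.elim id y (sc c a)) = Sum.elim c y := by
    intro y
    funext a
    rcases a with a | i <;> rfl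
  obtain ⟨P', hcard, -, hacc, hwalk⟩ := h (κ ⊕ Fin n) (Fin n) P (sc c) hσ
  have hsound : ∀ y, Accepts P' y → fq c₀ y := by
    intro y hy
    refine hP y ?_
    have := (hacc y).1 hy
    rwa [hz y] at this
  refine ⟨P', hcard, hsound, ?_⟩
  rintro y ⟨v, l, hv, hw, hc, hr⟩
  obtain ⟨v', hv', hw', hc'⟩ := hwalk y v l hv hw (by rw [hz y]; exact hc)
  refine ⟨v', subl (sc c) l, hv', hw', hc', ?_⟩
  unfold rep
  rw [subl_sc]
  rcases hr with hr | hr
  · refine le_trans (le_of_eq ?_) hr
    congr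
  · refine rep_le_of_length _ ?_ hr
    intro i
    by_contra hi
    rw [← subl_sc c l] at hi
    have hy1 : fq c₀ y := hsound y ⟨v', _, hv', hw', hc'⟩
    have hy2 : fq c₀ (Function.update y i (!y i)) :=
      hsound _ ⟨v', _, hv', hw', gap_consistent_update hc' hi⟩
    exact gap_parity c₀ y i hy1 hy2

/-- The main theorem with the modules as hypotheses. -/
theorem cheap_main (h1 : S_TopC2) (h2 : S_Cir) (h3 : S_Res) :
    ∃ ε : ℝ, 0 < ε ∧ ∃ N : ℕ, ∀ n ≥ N, ∀ m ≥ 9 * (n + 1) ^ 4, ∃ c : CBits n m → Bool,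
      2 ^ (n - 2) ≤ Nat.card {y // Val n m c y} ∧
      ∀ (P : NBP (CBits n m ⊕ Fin n)) (s : ℕ), (s : ℝ) ≤ ε * n →
        (∀ y, Accepts P (Sum.elim c y) → Val n m c y) →
        (2 : ℝ) ^ n * Real.exp (-(ε * n)) ≤ Nat.card {y // Cheap P s (Sum.elim c y)} →
        Real.exp (ε * n) ≤ Fintype.card P.V := by
  classical
  obtain ⟨ε, hε, N, hN⟩ := h1
  refine ⟨ε, hε, N, ?_⟩
  intro n hn m hm
  obtain ⟨c₀, ⟨B, hB1, hB2⟩, hmain⟩ := hN n hn
  have hm2 : 6 * Fintype.card (Coef n) + 6 * n + 3 ≤ m := by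
    have h4 := card_coef n
    have h5 : 1 + 4 * n ≤ (n + 1) ^ 4 := by nlinarith [sq_nonneg n, sq_nonneg (n ^ 2)]
    omega
  obtain ⟨c, hc⟩ := h2 n m c₀ hm2
  have hval : ∀ y, Val n m c y ↔ fq c₀ y := fun y => (val_iff n m c y).trans (hc y)
  refine ⟨c, ?_, ?_⟩
  · rw [Nat.card_eq_fintype_card, Fintype.card_subtype]
    refine le_trans hB2 (card_le_card ?_)
    intro y hy
    rw [mem_filter]
    exact ⟨mem_univ _, (hval y).2 (hB1 y hy)⟩
  · intro P s hs hP hden
    obtain ⟨P', hcard, hsound, hcheap⟩ := cheap_core h3 c₀ c P s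
      (fun y hy => (hval y).1 (hP y hy))
    rw [← hcard]
    refine hmain P' s hs hsound
      ((univ : Finset (Fin n → Bool)).filter (fun y => Cheap P s (Sum.elim c y))) ?_ ?_
    · intro y hy
      exact hcheap y (mem_filter.1 hy).2
    · rw [Nat.card_eq_fintype_card, Fintype.card_subtype] at hden
      exact hden

end SRBP
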