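import Pool.Agent.Lib.MP_9dcf40_lc.SR.Spec

/-!
# The circuit value function
-/

namespace SRBP

open Finset

/-- The values of the wires `0, .., t - 1`: the wires `i < n` are inputs; the wire `i ≥ n` is a NAND
gate, whose inputs are the wires `j < i` with `A i j = true`. -/
def wires (n : ℕ) (A : ℕ → ℕ → Bool) (y : ℕ → Bool) : ℕ → List Bool
  | 0 => []
  | t + 1 => wires n A y t ++
      [if t < n then y t else !((List.range t).all (fun j => !(A t j) || (wires n A y t).getD j true))]

/-- Value of the wire `i`. -/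
def wire (n : ℕ) (A : ℕ → ℕ → Bool) (y : ℕ → Bool) (i : ℕ) : Bool := (wires n A y (i + 1)).getD i true

/-- Variables of the circuit value function with `n` inputs and `m` gates: adjacency matrix of the
gates, output selection, inputs. -/
abbrev CVar (n m : ℕ) : Type := (Fin m × Fin (n + m)) ⊕ Fin (n + m) ⊕ Fin n

/-- Circuit value: all wires selected by the output vector have the value `1`. -/
def cv (n m : ℕ) (z : CVar n m → Bool) : Prop :=
  ∀ o : Fin (n + m), z (Sum.inr (Sum.inl o)) = true →
    wire n (fun i j => if h : i - n < m ∧ j < n + m then z (Sum.inl (⟨i - n, h.1⟩, ⟨j, h.2⟩)) else false)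
      (fun i => if h : i < n then z (Sum.inr (Sum.inr ⟨i, h⟩)) else false) o = true

/-- Some circuit with `n` inputs and `m` gates has, for each `φ` in the list, a wire computing `φ`. -/
def Has (n m : ℕ) (L : List ((ℕ → Bool) → Bool)) : Prop :=
  ∃ A : ℕ → ℕ → Bool, ∀ φ ∈ L, ∃ i < n + m, ∀ y, wire n A y i = φ y

/-- GAT: one more gate. PROOF. (a) `(wires n A y t).length = t`, `wires n A y (t+1)` extends
`wires n A y t`, so `wire n A y i = (wires n A y t).getD i true` for `i < t`, and for `i ≥ n`:
`wire i = ! (∀ j < i, A i j → wire j)`; `wire i` depends only on the rows `≤ i` of `A`. (b) Let `A` be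
for `L`, `i_φ` the wire of `φ`; put `A' = A` except row `n + m`: `A' (n+m) j = true` iff `j = i_φ` for
some `φ ∈ S`. (c) the inputs: `wire n A y i = y i` for `i < n`; more gates may be added. -/
def S_Gat : Prop := (∀ n m L (S : List ((ℕ → Bool) → Bool)), Has n m L → (∀ φ ∈ S, φ ∈ L) →
    Has n (m + 1) ((fun y => !(S.all (fun φ => φ y))) :: L)) ∧
  (∀ n, Has n 0 ((List.range n).map (fun i => fun y : ℕ → Bool => y i))) ∧
  (∀ n m m' L, m ≤ m' → Has n m L → Has n m' L) ∧
  (∀ n m L L', Has n m L → (∀ φ ∈ L', φ ∈ L) → Has n m L')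

/-- XOR. PROOF. `S_Gat` four times: `g = NAND(φ, ψ)`, `NAND(φ, g)`, `NAND(ψ, g)`, `NAND` of these two
is `φ xor ψ`. -/
def S_Xor : Prop := ∀ n m L φ ψ, Has n m L → φ ∈ L → ψ ∈ L →
  Has n (m + 4) ((fun y : ℕ → Bool => xor (φ y) (ψ y)) :: L)

/-- MON: sum of monomials. PROOF. Induction on `T` (a list of lists of indices `< n`), invariant: `L`
plus the sum. `T = []`: `NAND` of the empty list is constant `false`. Step: `NAND` of the variables of
the monomial (they are in `L`), `NAND` of this alone (the monomial), `S_Xor` with the previous sum;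
`6` gates. -/
def S_Mon : Prop := ∀ (n m : ℕ) (L : List ((ℕ → Bool) → Bool)) (T : List (List ℕ)), Has n m L →
  (∀ i < n, (fun y : ℕ → Bool => y i) ∈ L) → (∀ M ∈ T, ∀ i ∈ M, i < n) →
  Has n (m + 6 * T.length + 1) ((fun y : ℕ → Bool =>
    (T.map (fun M => M.all (fun i => y i))).foldr xor false) :: L)

/-- CIR: a circuit for `fq c`. PROOF. `S_Mon` for the list of all `S : Coef n` with `c S` (each as a list
of indices), and for the list of the `[i]`, `i < n`, followed by a `NAND` of this alone (negation);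
total number of gates `≤ 6 |Coef n| + 6 n + 3`. Output: select these two wires. The other bits are
constants; translate `Bool` xor into the sum in `ZMod 2`. `const` is the vector of the constants. -/
def S_Cir : Prop := ∀ (n m : ℕ) (c : Coef n → Bool), 6 * Fintype.card (Coef n) + 6 * n + 3 ≤ m →
  ∃ const : (Fin m × Fin (n + m)) ⊕ Fin (n + m) → Bool, ∀ y : Fin n → Bool,
    cv n m (fun a => match a with
      | Sum.inl p => const (Sum.inl p)
      | Sum.inr (Sum.inl o) => const (Sum.inr o)
      | Sum.inr (Sum.inr i) => y i) ↔ fq c y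

/-- TOPC: hard quartic polynomials. PROOF. As `S_Top` (see there), for a program `P` over `Fin n`. -/
def S_TopC : Prop := ∃ ε : ℝ, 0 < ε ∧ ∃ N : ℕ, ∀ n ≥ N, ∃ c : Coef n → Bool,
  ∀ (P : NBP (Fin n)) (s : ℕ), (s : ℝ) ≤ ε * n → Weak P s → (∀ y, Accepts P y ↔ fq c y) →
  Real.exp (ε * n) ≤ Fintype.card P.V

/-- TOPV: circuit value. PROOF. `c` from `S_TopC`, constants from `S_Cir`, `S_Res` with `σ` = these
constants on the first two kinds of variables and `σ (inr (inr i)) = inr i`. -/
def S_TopV : Prop := ∃ ε : ℝ, 0 < ε ∧ ∃ N : ℕ, ∀ n ≥ N, ∀ m ≥ 6 * Fintype.card (Coef n) + 6 * n + 3,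
  ∀ (P : NBP (CVar n m)) (s : ℕ), (s : ℝ) ≤ ε * n → Weak P s → (∀ z, Accepts P z ↔ cv n m z) →
  Real.exp (ε * n) ≤ Fintype.card P.V

end SRBP
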