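import Pool.Agent.Lib.MP_9dcf40_lc.SR.Spec

/-! # SR, module Cfg: independence of quartic values (helper24) -/

namespace SRBP

open Finset

namespace CfgAux

variable {n : ℕ}

/-- The monomial `C`. -/
def mono (C : Coef n) (y : Fin n → Bool) : ZMod 2 := ∏ i ∈ C.1, (if y i then 1 else 0)

theorem mono_eq_one {C : Coef n} {y : Fin n → Bool} (h : ∀ i ∈ C.1, y i = true) :
    mono C y = 1 := by
  unfold mono
  refine prod_eq_one fun i hi => ?_
  rw [h i hi, if_pos rfl]

theorem mono_eq_zero {C : Coef n} {y : Fin n → Bool} {i : Fin n} (hi : i ∈ C.1)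
    (h : y i = false) : mono C y = 0 := by
  unfold mono
  refine prod_eq_zero hi ?_
  rw [h, if_neg (by simp)]

theorem two_mem {W S : Finset (Fin n)} : S ∈ two W ↔ S ⊆ W ∧ S.card ≤ 2 := by
  unfold two
  rw [mem_filter, mem_powerset]

/-- The coefficient index `Q ∪ Q'`. -/
def un {W W' Q Q' : Finset (Fin n)} (h : Q ∈ two W) (h' : Q' ∈ two W') : Coef n :=
  ⟨Q ∪ Q', by
    have h1 := (two_mem.1 h).2
    have h2 := (two_mem.1 h').2
    exact le_trans (card_union_le _ _) (by omega)⟩

open scoped Classical in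
/-- The set `T`. -/
noncomputable def TT (W W' : Finset (Fin n)) : Finset (Coef n) :=
  (univ : Finset (Coef n)).filter (fun C => ∃ Q ∈ two W, ∃ Q' ∈ two W', C.1 = Q ∪ Q')

theorem card_TT {W W' : Finset (Fin n)} (hd : Disjoint W W') :
    (two W).card * (two W').card ≤ (TT W W').card := by
  classical
  rw [← card_product]
  refine card_le_card_of_injOn
    (fun p => if h : p.1 ∈ two W ∧ p.2 ∈ two W' then un h.1 h.2 else ⟨∅, by simp⟩) ?_ ?_
  · rintro ⟨Q, Q'⟩ hp
    obtain ⟨h1, h2⟩ := mem_product.1 hp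
    show (if h : Q ∈ two W ∧ Q' ∈ two W' then un h.1 h.2 else ⟨∅, by simp⟩) ∈ TT W W'
    rw [dif_pos ⟨h1, h2⟩]
    exact mem_filter.2 ⟨mem_univ _, Q, h1, Q', h2, rfl⟩
  · rintro ⟨Q, Q'⟩ hp ⟨R, R'⟩ hp' h
    obtain ⟨h1, h2⟩ := mem_product.1 hp
    obtain ⟨h3, h4⟩ := mem_product.1 hp'
    simp only at h1 h2 h3 h4
    change (if h : Q ∈ two W ∧ Q' ∈ two W' then un h.1 h.2 else ⟨∅, by simp⟩) =
      (if h : R ∈ two W ∧ R' ∈ two W' then un h.1 h.2 else ⟨∅, by simp⟩) at h
    rw [dif_pos ⟨h1, h2⟩, dif_pos ⟨h3, h4⟩] at h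
    have h5 : Q ∪ Q' = R ∪ R' := congrArg Subtype.val h
    have key : ∀ {A B A' B' : Finset (Fin n)}, A ⊆ W → B ⊆ W' → A' ⊆ W → B' ⊆ W' →
        A ∪ B = A' ∪ B' → A ⊆ A' ∧ B ⊆ B' := by
      intro A B A' B' a1 a2 a3 a4 a5
      constructor
      · intro v hv
        have h6 : v ∈ A' ∪ B' := by rw [← a5]; exact mem_union_left _ hv
        rcases mem_union.1 h6 with h7 | h7
        · exact h7
        · exact absurd (a4 h7) (disjoint_left.1 hd (a1 hv))
      · intro v hv
        have h6 : v ∈ A' ∪ B' := by rw [← a5]; exact mem_union_right _ hv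
        rcases mem_union.1 h6 with h7 | h7
        · exact absurd (a2 hv) (disjoint_left.1 hd (a3 h7))
        · exact h7
    have q1 := (two_mem.1 h1).1
    have q2 := (two_mem.1 h2).1
    have q3 := (two_mem.1 h3).1
    have q4 := (two_mem.1 h4).1
    obtain ⟨k1, k2⟩ := key q1 q2 q3 q4 h5
    obtain ⟨k3, k4⟩ := key q3 q4 q1 q2 h5.symm
    rw [subset_antisymm k1 k3, subset_antisymm k2 k4]

/-- The triangular system. -/
theorem triangular {U W W' : Finset (Fin n)} (hWU : W ⊆ U) (hW'U : Disjoint W' U)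
    {a b : Finset (Fin n) → Fin n → Bool} (ha : ∀ S ∈ two W, ∀ v ∈ W, (a S v = true ↔ v ∈ S))
    (hb : ∀ S ∈ two W', ∀ v ∈ W', (b S v = true ↔ v ∈ S)) (δ : Coef n → ZMod 2)
    (hδ : ∀ C : Coef n, (¬ ∃ Q ∈ two W, ∃ Q' ∈ two W', C.1 = Q ∪ Q') → δ C = 0)
    (hsum : ∀ S ∈ two W, ∀ S' ∈ two W', ∑ C, δ C * mono C (glue U (a S) (b S')) = 0) :
    ∀ (k : ℕ) (S S' : Finset (Fin n)) (hS : S ∈ two W) (hS' : S' ∈ two W'),
      S.card + S'.card = k → δ (un hS hS') = 0 := by
  classical
  intro k
  induction k using Nat.strong_induction_on with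
  | _ k ih =>
    intro S S' hS hS' hk
    have hg1 : ∀ v ∈ W, (glue U (a S) (b S') v = true ↔ v ∈ S) := by
      intro v hv
      have h1 : glue U (a S) (b S') v = a S v := if_pos (hWU hv)
      rw [h1]
      exact ha S hS v hv
    have hg2 : ∀ v ∈ W', (glue U (a S) (b S') v = true ↔ v ∈ S') := by
      intro v hv
      have h1 : glue U (a S) (b S') v = b S' v := if_neg (disjoint_left.1 hW'U hv)
      rw [h1]
      exact hb S' hS' v hv
    have h0 := hsum S hS S' hS'
    rw [sum_eq_single (un hS hS')] at h0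
    · have h1 : mono (un hS hS') (glue U (a S) (b S')) = 1 := by
        refine mono_eq_one fun i hi => ?_
        have hi' : i ∈ S ∪ S' := hi
        rcases mem_union.1 hi' with h2 | h2
        · exact (hg1 i ((two_mem.1 hS).1 h2)).2 h2
        · exact (hg2 i ((two_mem.1 hS').1 h2)).2 h2
      rw [h1, mul_one] at h0
      exact h0
    · intro C _ hC
      by_cases hT : ∃ Q ∈ two W, ∃ Q' ∈ two W', C.1 = Q ∪ Q'
      · obtain ⟨Q, hQ, Q', hQ', hCQ⟩ := hT
        have hCe : C = un hQ hQ' := Subtype.ext hCQ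
        by_cases hsub : Q ⊆ S ∧ Q' ⊆ S'
        · have h3 : Q.card + Q'.card < k := by
            have h4 := card_le_card hsub.1
            have h5 := card_le_card hsub.2
            by_contra hcon
            have h6 : Q = S := eq_of_subset_of_card_le hsub.1 (by omega)
            have h7 : Q' = S' := eq_of_subset_of_card_le hsub.2 (by omega)
            subst h6
            subst h7
            exact hC hCe
          rw [hCe, ih _ h3 Q Q' hQ hQ' rfl, zero_mul]
        · rw [not_and_or] at hsub
          have h3 : mono C (glue U (a S) (b S')) = 0 := by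
            rcases hsub with hsub | hsub
            · obtain ⟨v, hv, hvS⟩ := not_subset.1 hsub
              refine mono_eq_zero (i := v) (by rw [hCQ]; exact mem_union_left _ hv) ?_
              have h4 := (hg1 v ((two_mem.1 hQ).1 hv)).not.2 hvS
              exact Bool.eq_false_iff.2 h4
            · obtain ⟨v, hv, hvS⟩ := not_subset.1 hsub
              refine mono_eq_zero (i := v) (by rw [hCQ]; exact mem_union_right _ hv) ?_
              have h4 := (hg2 v ((two_mem.1 hQ').1 hv)).not.2 hvS
              exact Bool.eq_false_iff.2 h4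
          rw [h3, mul_zero]
      · rw [hδ C hT, zero_mul]
    · intro h
      exact absurd (mem_univ _) h

end CfgAux

open CfgAux

open scoped Classical in
theorem tCfg : S_Cfg := by
  intro n U W W' hWU hW'U a b ha hb
  have hd : Disjoint W W' := by
    rw [disjoint_left]
    intro v hv hv'
    exact disjoint_left.1 hW'U hv' (hWU hv)
  obtain ⟨L, hL⟩ : ∃ L, L = ((univ : Finset (Coef n → Bool)).filter (fun c => ∀ S ∈ two W,
    ∀ S' ∈ two W', quartic c (glue U (a S) (b S')) = 1)) := ⟨_, rfl⟩
  rw [← hL]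
  -- uniqueness
  have huniq : ∀ c ∈ L, ∀ c' ∈ L, (∀ C, C ∉ TT W W' → c C = c' C) → c = c' := by
    intro c hc c' hc' hagree
    rw [hL] at hc hc'
    have hc2 := (mem_filter.1 hc).2
    have hc2' := (mem_filter.1 hc').2
    let δ : Coef n → ZMod 2 := fun C => (if c C then 1 else 0) - (if c' C then 1 else 0)
    have hδ : ∀ C : Coef n, (¬ ∃ Q ∈ two W, ∃ Q' ∈ two W', C.1 = Q ∪ Q') → δ C = 0 := by
      intro C hC
      have h1 : C ∉ TT W W' := fun h => hC (mem_filter.1 h).2
      show (if c C then (1 : ZMod 2) else 0) - (if c' C then 1 else 0) = 0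
      rw [hagree C h1, sub_self]
    have hsum : ∀ S ∈ two W, ∀ S' ∈ two W',
        ∑ C, δ C * mono C (glue U (a S) (b S')) = 0 := by
      intro S hS S' hS'
      have h1 := hc2 S hS S' hS'
      have h2 := hc2' S hS S' hS'
      unfold quartic at h1 h2
      have h3 : ∑ C, δ C * mono C (glue U (a S) (b S')) =
          ∑ C : Coef n, (if c C then (1 : ZMod 2) else 0) * ∏ i ∈ C.1,
            (if glue U (a S) (b S') i then 1 else 0) -
          ∑ C : Coef n, (if c' C then (1 : ZMod 2) else 0) * ∏ i ∈ C.1,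
            (if glue U (a S) (b S') i then 1 else 0) := by
        rw [← sum_sub_distrib]
        refine sum_congr rfl fun C _ => ?_
        rw [← sub_mul]
        rfl
      rw [h3, h1, h2, sub_self]
    have htri := triangular hWU hW'U ha hb δ hδ hsum
    funext C
    by_cases hC : C ∈ TT W W'
    · obtain ⟨Q, hQ, Q', hQ', hCQ⟩ := (mem_filter.1 hC).2
      have hCe : C = un hQ hQ' := Subtype.ext hCQ
      have h1 := htri _ Q Q' hQ hQ' rfl
      rw [← hCe] at h1
      have h2 : (if c C then (1 : ZMod 2) else 0) = (if c' C then 1 else 0) := sub_eq_zero.1 h1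
      cases h3 : c C <;> cases h4 : c' C <;> simp [h3, h4] at h2 ⊢
    · exact hagree C hC
  -- the injection
  have hinj : L.card * 2 ^ (TT W W').card ≤ 2 ^ Fintype.card (Coef n) := by
    have h1 : (L ×ˢ (univ : Finset (TT W W' → Bool))).card ≤
        (univ : Finset (Coef n → Bool)).card := by
      refine card_le_card_of_injOn
        (fun p => fun C => if h : C ∈ TT W W' then p.2 ⟨C, h⟩ else p.1 C) ?_ ?_
      · intro p _
        exact mem_univ _
      · rintro ⟨c, g⟩ hp ⟨c', g'⟩ hp' h
        have hc : c ∈ L := (mem_product.1 hp).1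
        have hc' : c' ∈ L := (mem_product.1 hp').1
        have h2 : ∀ C, (if h : C ∈ TT W W' then g ⟨C, h⟩ else c C) =
            (if h : C ∈ TT W W' then g' ⟨C, h⟩ else c' C) := fun C => congrFun h C
        have h3 : c = c' := by
          refine huniq c hc c' hc' fun C hC => ?_
          have h4 := h2 C
          rwa [dif_neg hC, dif_neg hC] at h4
        have h5 : g = g' := by
          funext ⟨C, hC⟩
          have h4 := h2 C
          rwa [dif_pos hC, dif_pos hC] at h4
        rw [h3, h5]
    rw [card_product, card_univ, card_univ, Fintype.card_fun, Fintype.card_fun,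
      Fintype.card_bool, Fintype.card_coe] at h1
    exact h1
  refine le_trans ?_ hinj
  exact Nat.mul_le_mul_left _ (Nat.pow_le_pow_right (by norm_num) (card_TT hd))

end SRBP
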