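import Pool.Agent.Lib.MP_9dcf40_lc.SR.Spec

/-! CUT: cutting and joining walks (helper98). -/

set_option autoImplicit false

namespace SRBP

namespace CutAux

theorem walk_append {ι : Type} {P : NBP ι} {u v w : P.V} {l₁ l₂ : List (ι × Bool)}
    (h : Walk P u l₁ v) (h' : Walk P v l₂ w) : Walk P u (l₁ ++ l₂) w := by
  induction h with
  | nil u => exact h'
  | free e _ ih => exact Walk.free e (ih h')
  | read i b e _ ih => exact Walk.read i b e (ih h')

theorem walk_split {ι : Type} {P : NBP ι} {u w : P.V} {l : List (ι × Bool)} (h : Walk P u l w) :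
    ∀ l₁ l₂ : List (ι × Bool), l = l₁ ++ l₂ → ∃ v, Walk P u l₁ v ∧ Walk P v l₂ w := by
  induction h with
  | nil u =>
    intro l₁ l₂ hl
    obtain ⟨rfl, rfl⟩ := List.append_eq_nil_iff.1 hl.symm
    exact ⟨u, Walk.nil u, Walk.nil u⟩
  | free e _ ih =>
    intro l₁ l₂ hl
    obtain ⟨v, h1, h2⟩ := ih l₁ l₂ hl
    exact ⟨v, Walk.free e h1, h2⟩
  | read i b e h ih =>
    intro l₁ l₂ hl
    cases l₁ with
    | nil =>
      rw [List.nil_append] at hl
      subst hl
      exact ⟨_, Walk.nil _, Walk.read i b e h⟩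
    | cons a l₁ =>
      rw [List.cons_append, List.cons.injEq] at hl
      obtain ⟨rfl, hl⟩ := hl
      obtain ⟨v, h1, h2⟩ := ih l₁ l₂ hl
      exact ⟨v, Walk.read i b e h1, h2⟩

theorem cut {ι : Type} (P : NBP ι) (ℓ : ℕ) (k : ℕ) :
    ∀ (l : List (ι × Bool)) (u w : P.V), Walk P u l w → l.length = (k + 1) * ℓ →
    ∃ (q : Fin (k + 1 + 1) → P.V) (seg : Fin (k + 1) → List (ι × Bool)), q 0 = u ∧
      q (Fin.last (k + 1)) = w ∧
      (∀ i : Fin (k + 1), Walk P (q i.castSucc) (seg i) (q i.succ)) ∧ (∀ i, (seg i).length = ℓ) ∧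
      (List.ofFn seg).flatten = l := by
  induction k with
  | zero =>
    intro l u w h hl
    refine ⟨Fin.cons u (fun _ => w), fun _ => l, rfl, rfl, ?_, ?_, ?_⟩
    · intro i
      have hi : i = 0 := Fin.ext (by omega)
      subst hi
      exact h
    · intro i
      rw [hl, zero_add, one_mul]
    · simp
  | succ k ih =>
    intro l u w h hl
    obtain ⟨v, h1, h2⟩ := walk_split h (l.take ℓ) (l.drop ℓ) (List.take_append_drop ℓ l).symm
    have hd : (l.drop ℓ).length = (k + 1) * ℓ := by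
      rw [List.length_drop, hl]
      have : (k + 1 + 1) * ℓ = (k + 1) * ℓ + ℓ := by ring
      omega
    have ht : (l.take ℓ).length = ℓ := by
      rw [List.length_take, hl]
      have : (k + 1 + 1) * ℓ = (k + 1) * ℓ + ℓ := by ring
      omega
    obtain ⟨q, seg, hq0, hql, hw, hs, hf⟩ := ih _ v w h2 hd
    refine ⟨Fin.cons u q, Fin.cons (l.take ℓ) seg, rfl, ?_, ?_, ?_, ?_⟩
    · rw [← Fin.succ_last, Fin.cons_succ, hql]
    · intro i
      refine Fin.cases ?_ (fun j => ?_) i
      · rw [Fin.castSucc_zero, Fin.cons_zero, Fin.cons_zero, Fin.cons_succ, hq0]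
        exact h1
      · rw [← Fin.succ_castSucc, Fin.cons_succ, Fin.cons_succ, Fin.cons_succ]
        exact hw j
    · intro i
      refine Fin.cases ?_ (fun j => ?_) i
      · rw [Fin.cons_zero, ht]
      · rw [Fin.cons_succ, hs]
    · rw [List.ofFn_cons, List.flatten_cons, hf, List.take_append_drop]

theorem join {ι : Type} (P : NBP ι) (k : ℕ) :
    ∀ (q : Fin (k + 1) → P.V) (seg : Fin k → List (ι × Bool)),
    (∀ i : Fin k, Walk P (q i.castSucc) (seg i) (q i.succ)) →
    Walk P (q 0) (List.ofFn seg).flatten (q (Fin.last k)) := by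
  induction k with
  | zero =>
    intro q seg _
    rw [List.ofFn_zero, List.flatten_nil]
    exact Walk.nil _
  | succ k ih =>
    intro q seg h
    have h1 := ih (fun i => q i.succ) (fun i => seg i.succ) (fun i => by
      have := h i.succ
      rwa [← Fin.succ_castSucc] at this)
    rw [Fin.succ_last] at h1
    rw [List.ofFn_succ, List.flatten_cons]
    exact walk_append (h 0) h1

end CutAux

open CutAux

theorem tCut0 (ι : Type) (P : NBP ι) (k ℓ : ℕ) : (0 < k →
  ∀ (l : List (ι × Bool)) (u w : P.V), Walk P u l w → l.length = k * ℓ →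
    ∃ (q : Fin (k + 1) → P.V) (seg : Fin k → List (ι × Bool)), q 0 = u ∧ q (Fin.last k) = w ∧
      (∀ i : Fin k, Walk P (q i.castSucc) (seg i) (q i.succ)) ∧ (∀ i, (seg i).length = ℓ) ∧
      (List.ofFn seg).flatten = l) ∧
  (∀ (q : Fin (k + 1) → P.V) (seg : Fin k → List (ι × Bool)),
    (∀ i : Fin k, Walk P (q i.castSucc) (seg i) (q i.succ)) →
    Walk P (q 0) (List.ofFn seg).flatten (q (Fin.last k))) := by
  refine ⟨fun hk => ?_, join P k⟩
  obtain ⟨k', rfl⟩ := Nat.exists_eq_succ_of_ne_zero hk.ne'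
  exact cut P ℓ k'

theorem tCut : S_Cut := fun ι P k ℓ => tCut0 ι P k ℓ

end SRBP
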