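import Pool.Agent.Lib.MP_9dcf40_lc.SR.Defs

/-!
# Lower bounds for Boolean nondeterministic semantic branching programs: statements and proofs

THEOREM SR. There is `ε > 0` such that for all large `n` every nondeterministic branching program in
which every accepted input has an accepting path with at most `s ≤ ε n` variables tested more than once
(in particular every semantic `(1,+s)`-program), computing `fn n` (value of a quartic polynomial over `F_2`,
and parity) has at least `exp (ε n)` states.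

All statements are independent (used statements are hypotheses). `log` is the natural logarithm.
-/

namespace SRBP

open Finset

/-! ## Block A: the hitting inequality and its consequences -/

/-- POW. `a ≥ b ≥ 0`, `0 < p ≤ 1/2`, `1 - p = 2 ^ (-λ)`: `(1-p)(a+b)^λ ≤ (1-p) a^λ + p b^λ`.
PROOF. `0 < λ ≤ 1`. If `a = 0` trivial (`0 ^ λ = 0`). Divide by `a ^ λ`, `t = b / a ∈ [0, 1]`,
`s = t ^ λ ∈ [0, 1]`, `q = 1 / λ ≥ 1`: to show `(1-p) (1 + s^q)^(1/q) ≤ (1-p) + p s`. Minkowski in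
`ℓ_q` of dimension two: `(1, s) = (1-s) (1, 0) + s (1, 1)`, so `(1 + s^q)^(1/q) ≤ (1-s) + s 2^(1/q) =
(1-s) + s 2^λ = (1-s) + s/(1-p)`; multiply by `1-p`: `(1-p)(1-s) + s = (1-p) + p s`.
(Or: the function `s ↦ (1 + s^q)^(1/q)` is convex; `NNReal.Lp_add_le` with `Finset` of two elements.)
Also `(a + b) ^ λ ≤ a ^ λ + b ^ λ` (`Real.rpow_add_le_add_rpow` or similar). -/
def S_Pow : Prop := ∀ p lam a b : ℝ, 0 < p → p ≤ 1 / 2 → 1 - p = (2 : ℝ) ^ (-lam) → 0 ≤ b → b ≤ a →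
  (1 - p) * (a + b) ^ lam ≤ (1 - p) * a ^ lam + p * b ^ lam ∧
  (a + b) ^ lam ≤ a ^ lam + b ^ lam ∧ 0 < lam ∧ lam ≤ 1

open scoped Classical in
/-- HIT. A random subcube `R` (each coordinate: only `0` with probability `p`, only `1` with
probability `p`, both with probability `1 - 2p`) meets `A` with probability `≥ (|A| / 2^n)^λ`
(`(1-p)^n = 2^(-λ n)`); version with a set `D` of coordinates which have to be fixed by `R`.
PROOF. Induction on `n` (`Fin.consEquiv`, `Fin.cons`). Write `P_D(A)` for the right side. `n = 0`: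
the left side is `|A|^λ ∈ {0, 1}`, the right side is `1` iff `A` is nonempty. Step: `R = (R_0, R')`,
`D' = {v : v.succ ∈ D}`, `A_b = {a' : cons b a' ∈ A}`, `|A| = |A_0| + |A_1|`. `R_0 = some b`: `R`
meets `A` iff `R'` meets `A_b`. `R_0 = none`: allowed iff `0 ∉ D`; `R` meets `A` iff `R'` meets `A_0`
or `A_1`. If `0 ∈ D`: `P_D(A) = p P(A_0) + p P(A_1) ≥ p p^|D'| (1-p)^(n-|D'|) (|A_0|^λ + |A_1|^λ)`,
and `|A|^λ ≤ |A_0|^λ + |A_1|^λ`. If `0 ∉ D`: `P_D(A) ≥ p P(A_0) + p P(A_1) + (1-2p) max`; if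
`|A_b| ≥ |A_b'|` this is `≥ (1-p) P(A_b) + p P(A_b') ≥ p^|D| (1-p)^(n-|D|) ((1-p) |A_b|^λ +
p |A_b'|^λ) ≥ p^|D| (1-p)^(n+1-|D|) |A|^λ` by `S_Pow`. -/
def S_Hit : Prop := ∀ (n : ℕ) (p lam : ℝ), 0 < p → p ≤ 1 / 2 → 1 - p = (2 : ℝ) ^ (-lam) →
  ∀ (D : Finset (Fin n)) (A : Finset (Fin n → Bool)),
  p ^ D.card * (1 - p) ^ (n - D.card) * (A.card : ℝ) ^ lam ≤
    ∑ R : Fin n → Option Bool, (∏ v, wt p (R v)) *
      (if (∀ v ∈ D, R v ≠ none) ∧ Hits R A then 1 else 0)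

/-- BOL (Bollobas type inequality).
PROOF. `F = ∅` is trivial. For `q` in the image of `part own J` on `F` let `F_q` be its fibre and
`D_q = {v : q v ≠ none}`, `|D_q| = |J| ℓ` (`Good.1`; `D_q` is the disjoint union over `j ∈ J` of the
`{v : own x v = j}`, for any `x ∈ F_q`); `∑_{x ∈ F} fib^(λ-1) = ∑_q |F_q|^λ`. `S_Hit` for `D_q, F_q`,
summed over `q`: `left side ≤ ∑_R w(R) #{q : R v ≠ none on D_q, R meets F_q}` and `∑_R w(R) =
(p + p + (1-2p))^n = 1`. So it suffices that for fixed `R` there are at most `ball² ` such `q`. Let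
`q₁` be one of them, `x₁ ∈ F_{q₁}` in `R`. Let `q` be another one, `x ∈ F_q` in `R`. For
`own x v ∈ J`: `R v ≠ none`, so `R v = some (x v)` and `R v = some (x₁ v)`, `x v = x₁ v`. By
`Good.2` (for `x, x₁, J`) `S₁ = {own x v ∈ J, own x₁ v ∉ J}` has at most `s` elements; as
`|{own x v ∈ J}| = |{own x₁ v ∈ J}|`, also `S₂ = {own x₁ v ∈ J, own x v ∉ J}` has at most `s`
elements. `q v = some (x₁ v)` if `own x v ∈ J` (iff `v ∈ S₁` or (`own x₁ v ∈ J` and `v ∉ S₂`)) and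
`none` otherwise, so `q` is determined by `(S₁, S₂)`: at most `ball²` possibilities. -/
def S_Bol : Prop := ∀ (n k ℓ s : ℕ) (F : Finset (Fin n → Bool)) (own : (Fin n → Bool) → Fin n → Fin k),
  Good n k ℓ s F own → ∀ p lam : ℝ, 0 < p → p ≤ 1 / 2 → 1 - p = (2 : ℝ) ^ (-lam) →
  ∀ J : Finset (Fin k), p ^ (J.card * ℓ) * (1 - p) ^ (n - J.card * ℓ) *
    ∑ x ∈ F, (fib F (part own J) x : ℝ) ^ (lam - 1) ≤ (ball n s : ℝ) ^ 2

/-- CNT. PROOF. `Good` passes to the subset `F'`. `S_Bol` for `F'` with `λ = - logb 2 (1-p) ∈ (0, 1]`;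
for `x ∈ F'`: `1 ≤ fib F' ≤ fib F ≤ t`, so `fib'^(λ-1) ≥ t^(λ-1) ≥ t^(-1)` (`t ≥ 1`, `λ ≥ 0`).
(`fib F f x` is the number of `y ∈ F` with `f y = f x`.) -/
def S_Cnt : Prop := ∀ (n k ℓ s : ℕ) (F F' : Finset (Fin n → Bool))
  (own : (Fin n → Bool) → Fin n → Fin k), Good n k ℓ s F own → F' ⊆ F → ∀ p : ℝ, 0 < p → p ≤ 1 / 2 →
  ∀ (J : Finset (Fin k)) (t : ℕ), 1 ≤ t → (∀ x ∈ F', fib F (part own J) x ≤ t) →
  p ^ (J.card * ℓ) * (1 - p) ^ (n - J.card * ℓ) * (F'.card : ℝ) ≤ t * (ball n s : ℝ) ^ 2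

/-- EUP: entropy bound. PROOF. `F` nonempty, so `|J| ℓ ≤ n`. `S_Bol` and Jensen (concavity of `log`,
or `exp`: `exp (mean of u) ≤ mean of exp u`) with `u_x = (λ-1) log fib(x)`:
`(λ-1) mean log fib ≤ log (|F|^(-1) ∑ fib^(λ-1)) ≤ 2 log ball - |J| ℓ log p - (n - |J| ℓ) log (1-p) -
log |F|`. With `ent = log |F| - mean log fib` and `log (1-p) = - λ log 2`: `(1-λ) ent =
(1-λ) log |F| + (λ-1) mean log fib ≤ - λ log |F| + 2 log ball - |J| ℓ log p - (n - |J| ℓ) log (1-p)`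
`= |J| ℓ log ((1-p)/p) + λ (n log 2 - log |F|) + 2 log ball`. -/
def S_Eup : Prop := ∀ (n k ℓ s : ℕ) (F : Finset (Fin n → Bool)) (own : (Fin n → Bool) → Fin n → Fin k),
  Good n k ℓ s F own → F.Nonempty → ∀ p lam : ℝ, 0 < p → p ≤ 1 / 2 → 1 - p = (2 : ℝ) ^ (-lam) →
  ∀ J : Finset (Fin k), (1 - lam) * ent F (part own J) ≤
    J.card * ℓ * Real.log ((1 - p) / p) + lam * (n * Real.log 2 - Real.log F.card) +
      2 * Real.log (ball n s)

/-- EU2: the same for `p = 199/400`. PROOF. `1 - p = 201/400 = 2^(-λ)`, `(1-λ) log 2 = log (201/200)`,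
`(1-p)/p = 201/199`. Numbers: `(201/199)^127 ≤ (201/200)^255` gives `log ((1-p)/p) ≤ (255/127)
(1-λ) log 2`; `2 ≤ (201/200)^140` gives `1 ≤ 140 (1-λ)`; `0 ≤ λ ≤ 1`; `n log 2 - log |F| ≥ 0`,
`log ball ≥ 0`. Divide `S_Eup` by `1-λ > 0`. -/
def S_Eu2 : Prop := ∀ (n k ℓ s : ℕ) (F : Finset (Fin n → Bool)) (own : (Fin n → Bool) → Fin n → Fin k),
  Good n k ℓ s F own → F.Nonempty → ∀ J : Finset (Fin k), ent F (part own J) ≤
    255 / 127 * Real.log 2 * (J.card * ℓ) +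
      140 * (n * Real.log 2 - Real.log F.card + 2 * Real.log (ball n s))

/-! ## Block B: entropy -/

/-- ENT: elementary facts. PROOF. `ent F f = log |F| - mean_x log fib F f x`.
(1) if `f` determines `g` on `F` the fibres of `f` are contained in those of `g`. (2) subadditivity:
`ent f + ent g - ent (f,g) = mean log (|F| fib_{fg} / (fib_f fib_g)) ≥ 0` since (`log u ≤ u - 1`)
`∑_x fib_f(x) fib_g(x) / (|F| fib_{fg}(x)) ≤ |F|` (sum over the values `(a, b)` of `(f, g)`: each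
contributes `|f = a| |g = b| / |F|`, and all pairs of values sum up to `|F|`). (3) clear. -/
def S_Ent : Prop := ∀ (α β γ : Type) (F : Finset α) (f : α → β) (g : α → γ), F.Nonempty →
  ((∀ x ∈ F, ∀ y ∈ F, f x = f y → g x = g y) → ent F g ≤ ent F f) ∧
  ent F (fun x => (f x, g x)) ≤ ent F f + ent F g ∧
  (∀ t : ℕ, 1 ≤ t → (∀ x ∈ F, fib F f x ≤ t) → Real.log F.card - Real.log t ≤ ent F f)

/-- AVG. PROOF. Group the `x ∈ F` by the prefix (coordinates `< v` of `Y`): on a cell `C` of size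
`N = preN` (constant on `C`), `aa` is constant, equal to `#{x ∈ C : Y x v ≠ none} / N =: a`. So
`∑_{x ∈ C} aa = N a = #{x ∈ C : Y x v ≠ none}` and `∑_{x ∈ C, Y x v = none} aa = (1-a) N a =
∑_{x ∈ C} a (1-a)`. (Alternative without cells: double counting of pairs `(x, y)` in a cell with
weight `1/N`.) -/
def S_Avg : Prop := ∀ (α : Type) (n : ℕ) (F : Finset α) (Y : α → Fin n → Option Bool) (v : Fin n),
  (∀ x, 0 ≤ aa F Y v x ∧ aa F Y v x ≤ 1) ∧
  (∑ x ∈ F, (if Y x v = none then aa F Y v x else 0) =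
    ∑ x ∈ F, aa F Y v x * (1 - aa F Y v x)) ∧
  (∑ x ∈ F, aa F Y v x = ((F.filter (fun x => Y x v ≠ none)).card : ℝ))

/-- ENL: `H(Y) = ∑_v H(Y_v | prefix) ≤ ∑_v E [h(a_v) + a_v log 2]`.
PROOF. `ent F Y = |F|^(-1) ∑_x ∑_v log (preN v x / preN (v+1) x)` (telescoping: `preN 0 x = |F|`,
`preN n x = fib F Y x`; all positive for `x ∈ F`). For fixed `v` let `q_x = 1 - a` if `Y x v = none`,
`a/2` otherwise, `a = aa F Y v x`; `q_x > 0` for `x ∈ F`. Gibbs: `log (preN v / preN (v+1)) ≤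
- log q_x + (q_x preN v / preN (v+1) - 1)` (`log u ≤ u - 1`), and `∑_{x ∈ F} q_x preN v x /
preN (v+1) x ≤ |F|` (in a cell `C` of the prefix `< v`, of size `N`: the three values of the
coordinate `v` contribute at most `N q(none)`, `N q(some b)`, with sum `≤ N`). So `∑_x log (preN v /
preN (v+1)) ≤ ∑_x - log q_x = ∑_x (if Y x v = none then - log (1-a) else - log a + log 2)`
`= ∑_x (h(a) + a log 2)` by `S_Avg`-type cell averaging (`#{x ∈ C : Y x v = none} = (1-a) N`). -/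
def S_Enl : Prop := ∀ (α : Type) (n : ℕ) (F : Finset α) (Y : α → Fin n → Option Bool), F.Nonempty →
  ent F Y ≤ (∑ x ∈ F, ∑ v, (Real.binEntropy (aa F Y v x) + aa F Y v x * Real.log 2)) / F.card

open scoped Classical in
/-- CHN: `I(Y; Z) ≥ ∑_v E [a_v ; Z forces Y_v = none]`.
PROOF. May replace `E x v` by `E' x v := ∀ y ∈ F, Z y = Z x → Y y v = none` (larger on `F`, and
`aa ≥ 0`). Let `N_v = preN F Y v`, `M_v(x) = #{y ∈ F : prefix < v as x, Z y = Z x}`; `M_0 = fib Z`,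
`M_n = fib (Y, Z)`, `N_0 = |F|`, `N_n = fib Y`, all positive on `F`. `|F| (ent Y + ent Z - ent (Y,Z)) =
∑_x log (|F| M_n / (N_n M_0)) = ∑_v ∑_x log ( (M_{v+1}/M_v) (N_v/N_{v+1}) )`. Fix `v`. If `E' x v`:
`M_{v+1}(x) = M_v(x)` and `N_{v+1}/N_v = 1 - aa` (as `Y x v = none`), the term is `- log (1 - aa) ≥ aa`.
The other terms: `log u ≥ 1 - 1/u`, so their sum is `≥ ∑_{x : ¬E'} (1 - (N_{v+1}/N_v)(M_v/M_{v+1}))`,
which is `≥ 0`: `{¬E'}` is a union of cells `C` of (prefix `< v`, `Z`), of size `M_v`; in such a cell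
`∑_{x ∈ C} (N_{v+1}/N_v) (M_v/M_{v+1}) = ∑_{values a of Y_v on C} M_v (N^a / N_v) ≤ M_v`, `N^a` = the
number of `y ∈ F` with the same prefix and `Y y v = a`. -/
def S_Chn : Prop := ∀ (α β : Type) (n : ℕ) (F : Finset α) (Y : α → Fin n → Option Bool) (Z : α → β)
  (E : α → Fin n → Prop), F.Nonempty →
  (∀ x ∈ F, ∀ v, E x v → ∀ y ∈ F, Z y = Z x → Y y v = none) →
  (∑ x ∈ F, ∑ v, (if E x v then aa F Y v x else 0)) / F.card ≤
    ent F Y + ent F Z - ent F (fun x => (Y x, Z x))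

/-- HBI. PROOF. `h(a) = - a log a - (1-a) log (1-a)`, symmetric in `a ↔ 1-a`, so let `a ≤ 1/2`.
`- (1-a) log (1-a) ≤ a` (`log (1/(1-a)) ≤ 1/(1-a) - 1 = a/(1-a)`). `- a log a ≤ 3a + e^(-4)`: with
`u = e^3 a`: `- a log a - 3a = - a log u = e^(-3) (- u log u) ≤ e^(-4)` as `- u log u ≤ e^(-1)`
(`- log u ≤ 1/(e u)`, from `log y ≤ y/e`). So `h(a) ≤ 4a + e^(-4) ≤ 8 a (1-a) + 1/50`
(`e^4 ≥ 50`, `1 - a ≥ 1/2`). -/
def S_Hbi : Prop := ∀ a : ℝ, 0 ≤ a → a ≤ 1 → Real.binEntropy a ≤ 8 * (a * (1 - a)) + 1 / 50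

/-- MUT: the contradiction. `D = n log 2 - log |F|`, `L = 2 log ball`.
PROOF. `n = 253 ℓ`. Fix a partition `J₁, J₂, J₃, J₄` of `Fin 253` with `64, 63, 63, 63` elements.
`Y_J = part own J`. (a) for `j = 2, 3, 4`: `|J₁ ∪ J_j| = 127`, so `ent Y_{J₁ ∪ J_j} ≥ log |F| - log t`
(`S_Ent` 3), and `(Y_{J₁}, Y_{J_j})` determines `Y_{J₁ ∪ J_j}` (`S_Ent` 1), so `ent (Y_{J₁}, Y_{J_j}) ≥
253 ℓ log 2 - D - log t`. (b) by `S_Eu2`: `ent Y_{J₁} + ent Y_{J_j} ≤ 255 ℓ log 2 + 280 (D + L)`. So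
`I_j := ent Y_{J₁} + ent Y_{J_j} - ent (Y_{J₁}, Y_{J_j}) ≤ 2 ℓ log 2 + X`, `X = 280 (D + L) + D +
log t`. (c) `S_Chn` with `Y = Y_{J₁}`, `Z = Y_{J_j}`, `E x v = (own x v ∈ J_j)` (if `Z y = Z x` then
`own y v ∈ J_j`, so `own y v ∉ J₁`): sum over `j`: exactly one `E_j x v` holds iff `own x v ∉ J₁` iff
`Y x v = none`; with `S_Avg`: `mean_x ∑_v a_v (1 - a_v) ≤ I₂ + I₃ + I₄ ≤ 6 ℓ log 2 + 3 X`.
(d) `S_Enl`, `S_Hbi`, `S_Avg` 3 (`#{v : own x v ∈ J₁} = 64 ℓ`): `ent Y_{J₁} ≤ 8 (6 ℓ log 2 + 3 X) +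
253 ℓ / 50 + 64 ℓ log 2`. (e) `S_Ent` 2: `ent Y_{J₁} ≥ ent (Y_{J₁}, Y_{J₂}) - ent Y_{J₂} ≥ 253 ℓ log 2 -
D - log t - (255/127) 63 ℓ log 2 - 140 (D + L) ≥ (253 - 16065/127) ℓ log 2 - X`. So
`(253 - 16065/127 - 112) ℓ log 2 - 253 ℓ / 50 ≤ 25 X`; `log 2 ≥ 0.69`: the left side is
`≥ (14.5 * 0.69 - 5.06) ℓ ≥ 4.9 ℓ`, so `X ≥ ℓ / 6`. -/
def S_Mut : Prop := ∀ (ℓ s t : ℕ) (F : Finset (Fin (253 * ℓ) → Bool))
  (own : (Fin (253 * ℓ) → Bool) → Fin (253 * ℓ) → Fin 253), Good (253 * ℓ) 253 ℓ s F own →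
  F.Nonempty → 1 ≤ t → (∀ J : Finset (Fin 253), J.card = 127 → ∀ x ∈ F, fib F (part own J) x ≤ t) →
  (ℓ : ℝ) / 6 ≤ 280 * ((253 * ℓ * Real.log 2 - Real.log F.card) + 2 * Real.log (ball (253 * ℓ) s)) +
    (253 * ℓ * Real.log 2 - Real.log F.card) + Real.log t

/-- BAL. PROOF. For `0 < z ≤ 1`: `ball n s * z^s ≤ ∑_{S} z^|S| = (1+z)^n`, so `log ball ≤ n z +
s log (1/z)`. Take `z = min (ε/2) (1/2)`, `c = z / log (1/z)`. (`Finset.prod_add`/`sum_pow_mul...`:
`∑_{S ⊆ univ} z^|S| = (z + 1)^n` is `Finset.sum_pow_mul_eq_add_pow` or `Finset.prod_one_add`.) -/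
def S_Bal : Prop := ∀ ε : ℝ, 0 < ε → ∃ c : ℝ, 0 < c ∧ ∀ n s : ℕ, (s : ℝ) ≤ c * n →
  Real.log (ball n s) ≤ ε * n

/-- COR: the structure theorem. PROOF. `n = 253 ℓ`. We may assume `t ≥ 1`. Suppose not. For `|T| = 126`
let `F_T = {x ∈ F : t ≤ fib F (part own Tᶜ) x}`; then `fib F (part own T) x < t` on `F_T`, so
`S_Cnt` (`J = T`, `p = 126/253`): `|F_T| ≤ t ball² (p^126 (1-p)^127)^(-ℓ) = t ball² 2^n θ^(-ℓ)`,
`θ = 2^253 126^126 127^127 / 253^253 > 1` (`norm_num`). Let `F'` be `F` without the `F_T`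
(at most `2^253` sets): `|F'| ≥ 2^n (exp (-c ℓ) - 2^253 t ball² θ^(-ℓ)) ≥ 2^n exp (-c ℓ) / 2` if
`2^254 exp (c ℓ) t ball² ≤ θ^ℓ`, true for small `c` and large `ℓ` (`t ≤ exp (c ℓ)`, `log ball ≤
small ℓ` by `S_Bal`). `Good` passes to `F'` (nonempty), and for `|J| = 127`, `x ∈ F'`: `T = Jᶜ` has
126 elements, `x ∉ F_T`, so `fib F' (part own J) x ≤ fib F (part own J) x < t`. `S_Mut` for `F'`:
`253 ℓ log 2 - log |F'| ≤ c ℓ + log 2`, so `ℓ/6 ≤ 281 (c ℓ + 1) + 560 log ball + c ℓ`, false for small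
`c` and large `ℓ`. -/
def S_Cor : Prop := ∃ c : ℝ, 0 < c ∧ ∃ ℓ₀ : ℕ, ∀ ℓ ≥ ℓ₀, ∀ (s t : ℕ)
  (F : Finset (Fin (253 * ℓ) → Bool)) (own : (Fin (253 * ℓ) → Bool) → Fin (253 * ℓ) → Fin 253),
  Good (253 * ℓ) 253 ℓ s F own → (s : ℝ) ≤ c * ℓ → (t : ℝ) ≤ Real.exp (c * ℓ) →
  (2 : ℝ) ^ (253 * ℓ) * Real.exp (-(c * ℓ)) ≤ F.card →
  ∃ T : Finset (Fin 253), ∃ x ∈ F, t ≤ fib F (part own T) x ∧ t ≤ fib F (part own Tᶜ) x

/-! ## Block C: branching programs -/

/-- CUT. PROOF. First `Walk P u (l₁ ++ l₂) w ↔ ∃ v, Walk P u l₁ v ∧ Walk P v l₂ w` (induction on the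
walk; `→`: a free edge goes to the first part, a reading edge too unless `l₁ = []`, where the first
part is the empty walk). Then induction on `k`: split `l` (length `(k+1) ℓ`) into the first `ℓ`
letters and the rest. (2) Converse by induction on `k`. -/
def S_Cut : Prop := ∀ (ι : Type) (P : NBP ι) (k ℓ : ℕ), (0 < k →
  ∀ (l : List (ι × Bool)) (u w : P.V), Walk P u l w → l.length = k * ℓ →
    ∃ (q : Fin (k + 1) → P.V) (seg : Fin k → List (ι × Bool)), q 0 = u ∧ q (Fin.last k) = w ∧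
      (∀ i : Fin k, Walk P (q i.castSucc) (seg i) (q i.succ)) ∧ (∀ i, (seg i).length = ℓ) ∧
      (List.ofFn seg).flatten = l) ∧
  (∀ (q : Fin (k + 1) → P.V) (seg : Fin k → List (ι × Bool)),
    (∀ i : Fin k, Walk P (q i.castSucc) (seg i) (q i.succ)) →
    Walk P (q 0) (List.ofFn seg).flatten (q (Fin.last k)))

/-- FAM (version of 17:10: `AllT` instead of `Semantic`, `s = 0`). PROOF. For `x ∈ G` take a walk `l_x`
(`Once`, so `length = k ℓ`: the counts of all `k ℓ` variables are one) and `q_x, seg_x` from `S_Cut`.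
Pigeonhole on `q_x : Fin (k+1) → P.V`: `F` = the largest class. `own x v` = the index `i` with
`v ∈ (seg_x i).map Prod.fst` (exists and is unique by `Once`: the sum over `i` of the counts is `1`);
`#{v : own x v = i} = ℓ` (the first components of `seg_x i` are different and `ℓ` in number). Let
`x, y ∈ F`, `J`, with `x v = y v` if `own x v ∈ J`, `own y v ∉ J`. The list `L` = concatenation of the
`seg_x i` (`i ∈ J`) and `seg_y i` (`i ∉ J`) is the label list of a walk from the start to `q (last)`, which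
is accepting (`S_Cut` 2). It is consistent with `z v = if own x v ∈ J then x v else y v`: a label
`(v, b)` in `seg_x i`, `i ∈ J` has `b = x v`, `own x v = i`; in `seg_y i`, `i ∉ J`, `b = y v`,
`own y v = i ∉ J`, and `z v = y v` in both cases. So `z` is accepted, and by `AllT` every variable occurs
in `L`; `L` has `k ℓ` labels, so every variable occurs exactly once (sum of the counts = length). If
`own x v ∈ J`, `own y v ∉ J` then `v` would occur twice in `L`: so there is no such `v` (number `≤ 0`). -/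
def S_Fam : Prop := ∀ (k ℓ : ℕ) (P : NBP (Fin (k * ℓ))), AllT P →
  ∀ G : Finset (Fin (k * ℓ) → Bool),
  (∀ x ∈ G, ∃ v l, P.acc v ∧ Walk P P.start l v ∧ Consistent x l ∧ Once l) →
  ∃ F ⊆ G, ∃ own : (Fin (k * ℓ) → Bool) → Fin (k * ℓ) → Fin k, Good (k * ℓ) k ℓ 0 F own ∧
    G.card ≤ Fintype.card P.V ^ (k + 1) * F.card ∧
    ∀ x ∈ F, ∀ y ∈ F, ∀ J : Finset (Fin k), (∀ v, own x v ∈ J → own y v ∉ J → x v = y v) →
      Accepts P (fun v => if own x v ∈ J then x v else y v)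

/-- The list of tests after the substitution `σ`. -/
def subl {κ ι : Type} (σ : κ → Bool ⊕ ι) (l : List (κ × Bool)) : List (ι × Bool) :=
  l.filterMap (fun q => Sum.elim (fun _ => none) (fun i => some (i, q.2)) (σ q.1))

/-- RES (version of 17:10: `Weak` instead of `Semantic`): substitution of constants (and renaming).
PROOF. `P'` has the same states, start, accepting states; `edge' u none v := edge u none v ∨ ∃ a b,
σ a = inl b ∧ edge u (some (a, b)) v`, `edge' u (some (i, b)) v := ∃ a, σ a = inr i ∧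
edge u (some (a, b)) v`. Put `x_y a = Sum.elim id y (σ a)`. (A) a walk `l` of `P` from `u` to `w`
consistent with `x_y` gives a walk `subl σ l` of `P'`, consistent with `y` (induction). (B) a walk `l'`
of `P'` from `u` to `w` lifts to a walk `l` of `P` with `subl σ l = l'` all of whose labels `(a, b)` with
`σ a = inl c` have `b = c` (induction); if `l'` is consistent with `y` then `l` is consistent with `x_y`.
(C) `|rep (subl σ l)| ≤ |rep l|`: for `i ∈ rep (subl σ l)` there is a unique `a` with `σ a = inr i` (it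
exists as `i` occurs), and the count of `i` in `subl σ l` is the count of `a` in `l` (injectivity), so
`a ∈ rep l`; `i ↦ a` is injective. `Weak`: if `P'` accepts `y` then `P` accepts `x_y` (B), take the walk
`l` with `|rep l| ≤ s`, then `subl σ l` by (A), (C). -/
def S_Res : Prop := ∀ (κ ι : Type) [Fintype κ] [DecidableEq κ] [Fintype ι] [DecidableEq ι]
  (P : NBP κ) (σ : κ → Bool ⊕ ι), (∀ a b i, σ a = Sum.inr i → σ b = Sum.inr i → a = b) →
  ∃ P' : NBP ι, Fintype.card P'.V = Fintype.card P.V ∧ (∀ s, Weak P s → Weak P' s) ∧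
    (∀ y, Accepts P' y ↔ Accepts P (fun a => Sum.elim id y (σ a))) ∧
    (∀ y v l, P.acc v → Walk P P.start l v → Consistent (fun a => Sum.elim id y (σ a)) l →
      ∃ v', P'.acc v' ∧ Walk P' P'.start (subl σ l) v' ∧ Consistent y (subl σ l))

/-! ## Block D: the quartic polynomials -/

/-- SHA. PROOF. `w = 2 * Nat.sqrt n + 4`. Sauer-Shelah (Mathlib: `Finset.Shatters`,
`Finset.card_le_card_shatterer`, `Finset.card_shatterer_le_sum_vcDim`) for the family of the supports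
`{v : a v = true}`, `a ∈ A` (injective): if every shattered set has less than `w` elements then
`|A| ≤ #shatterer ≤ ball n (w-1)` (all shattered sets are small), `≤ ball n w`, and `log ball n w ≤
(ε/2) n` by `S_Bal` when `w ≤ c n`, i.e. for large `n`; so `|A| ≤ exp (ε n / 2) < exp (ε n)`. So some
shattered set has at least `w` elements, and a subset of it with `w` elements is shattered. -/
def S_Sha : Prop := ∀ ε : ℝ, 0 < ε → ∃ N : ℕ, ∀ n ≥ N, ∀ A : Finset (Fin n → Bool),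
  Real.exp (ε * n) ≤ A.card → ∃ W : Finset (Fin n), W.card = 2 * Nat.sqrt n + 4 ∧
    ∀ S ⊆ W, ∃ a ∈ A, ∀ v ∈ W, (a v = true ↔ v ∈ S)

/-- The sets with at most two elements in `W`. -/
def two {n : ℕ} (W : Finset (Fin n)) : Finset (Finset (Fin n)) := W.powerset.filter (fun S => S.card ≤ 2)

open scoped Classical in
/-- CFG. PROOF. `T = {Q ∪ Q' : Q ∈ two W, Q' ∈ two W'} ⊆ Coef n`, `|T| = |two W| |two W'|` since `W, W'`
are disjoint (`Q = (Q ∪ Q') ∩ W`). Two elements `c, c'` of the left set which agree outside `T` are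
equal: let `d = c + c'` in `ZMod 2`, supported on `T`; at `y = glue U (a S) (b S')` the monomial
`Q ∪ Q'` has the value `[Q ⊆ S] [Q' ⊆ S']` (`Q ⊆ W ⊆ U`, `Q' ⊆ W'`, disjoint from `U`), so
`∑_{Q ⊆ S, Q' ⊆ S'} d_{Q ∪ Q'} = 1 + 1 = 0` for all `S ∈ two W`, `S' ∈ two W'` (subsets of `S` are in
`two W`). Induction on `|S| + |S'|`: `d_{S ∪ S'} = 0`. So the left set injects into the functions on
`Coef n \ T`: at most `2^(|Coef| - |T|)` elements. -/
def S_Cfg : Prop := ∀ (n : ℕ) (U W W' : Finset (Fin n)), W ⊆ U → Disjoint W' U →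
  ∀ a b : Finset (Fin n) → Fin n → Bool, (∀ S ∈ two W, ∀ v ∈ W, (a S v = true ↔ v ∈ S)) →
  (∀ S ∈ two W', ∀ v ∈ W', (b S v = true ↔ v ∈ S)) →
  ((univ : Finset (Coef n → Bool)).filter (fun c => ∀ S ∈ two W, ∀ S' ∈ two W',
    quartic c (glue U (a S) (b S')) = 1)).card * 2 ^ ((two W).card * (two W').card) ≤
    2 ^ Fintype.card (Coef n)

open scoped Classical in
/-- UNI: union bound. PROOF. The set on the left is contained in the union over `(U, a, b)` with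
`#{c' : ...} * 2^(m m) ≤ 2^|Coef|` of the sets `{c' : ∀ i j, quartic c' (glue U (a i) (b j)) = 1}`; the
number of `(U, a, b)` is `2^n (2^n)^m (2^n)^m` (`Finset.card_biUnion_le`, `Finset.sum_le_card_nsmul`). -/
def S_Uni : Prop := ∀ n m : ℕ,
  ((univ : Finset (Coef n → Bool)).filter (fun c => ∃ (U : Finset (Fin n))
    (a b : Fin m → Fin n → Bool),
    ((univ : Finset (Coef n → Bool)).filter (fun c' => ∀ i j,
      quartic c' (glue U (a i) (b j)) = 1)).card * 2 ^ (m * m) ≤ 2 ^ Fintype.card (Coef n) ∧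
    ∀ i j, quartic c (glue U (a i) (b j)) = 1)).card * 2 ^ (m * m) ≤
    2 ^ (n + 2 * n * m) * 2 ^ Fintype.card (Coef n)

open scoped Classical in
/-- DEN. PROOF. Let `c⁺` be `c` with the coefficient of the empty set flipped: `quartic c⁺ y =
quartic c y + 1`. So every `y` with even number of ones satisfies exactly one of `fq c y`, `fq c⁺ y`,
and (`n ≥ 1`) there are `2^(n-1)` such `y`: one of `c`, `c⁺` belongs to the set on the left. `c ↦ c⁺` is
an involution, so the set has at least half of the elements. -/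
def S_Den : Prop := ∀ n : ℕ, 2 ≤ n → 2 ^ Fintype.card (Coef n) ≤
  2 * ((univ : Finset (Coef n → Bool)).filter (fun c =>
    2 ^ (n - 2) ≤ ((univ : Finset (Fin n → Bool)).filter (fun y => fq c y)).card)).card

open scoped Classical in
/-- QUA. PROOF. Let `n` be large, `w = 2 sqrt n + 4`, `m = 1 + w + w(w-1)/2 = |two W|` for `|W| = w`;
`w(w-1)/2 ≥ 2n + 2`, so `m m ≥ (2n+2) m > 2 n m + n + 1`. By `S_Uni` the set of `c` there has less than
`2^|Coef| / 2` elements, so by `S_Den` some `c` is not in it and has `#{y : fq c y} ≥ 2^(n-2)`. `NoRect`: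
let `U, A, B` be a rectangle on which `fq c` is true, `|A|, |B| ≥ t ≥ exp (ε n)`. `S_Sha`: `W, W'`
shattered by `A`, `B`. `W ⊆ U` (if `v ∈ W \ U`: `S = ∅` and `S = {v}` give two elements of `A` which
differ at `v`), `W' ∩ U = ∅` in the same way. Choose `a S ∈ A`, `b S ∈ B` for `S ∈ two W`, `two W'`.
Enumerate `two W` and `two W'` by `Fin m`; by `S_Cfg` the pair `(a, b)` satisfies the condition in
`S_Uni`, and `quartic c (glue U (a i) (b j)) = 1` for all `i, j`: contradiction. -/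
def S_Qua : Prop := ∀ ε : ℝ, 0 < ε → ∃ N : ℕ, ∀ n ≥ N, ∀ t : ℕ, Real.exp (ε * n) ≤ t →
  ∃ c : Coef n → Bool,
    2 ^ (n - 2) ≤ ((univ : Finset (Fin n → Bool)).filter (fun y => fq c y)).card ∧ NoRect (fq c) t

/-! ## The theorem -/

/-- GAP: from a program for `fq c` on `n` variables to the core. `e₀ = n - 253 ℓ`.
PROOF. For every `y ∈ A` (accepted) take an accepting walk `l_y` with `|rep l_y| ≤ s` (`Weak`). Every variable
occurs in it (otherwise flipping it gives an accepted input with the other parity). `|rep l_y| ≤ s ≤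
e₀`; choose `E_y ⊇ rep l_y` with `|E_y| = e₀`. Pigeonhole on `(E_y, y restricted to E_y)` (at most
`ball n e₀ * 2^e₀` values; as a function, `y` set to `false` outside `E_y`): a set `G₀` of accepted `y`
with `2^(n-2) ≤ ball n e₀ 2^e₀ |G₀|`, common `E` and `e`. Let `φ : Fin (253 ℓ) ≃ {v // v ∉ E}` and
`σ v = inl (e v)` (`v ∈ E`), `inr (φ⁻¹ v)` (`v ∉ E`); `S_Res` gives `P'` over `Fin (253 ℓ)`, with
`|P'.V| = |P.V|`; `AllT P'`: if an accepting walk consistent with `x` does not test `i`, it is also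
consistent with `x` flipped at `i`, both `ext x` and `ext` of it satisfy `fq c`, but they differ exactly
at `φ i`, so the parities differ. `G = {y ∘ φ : y ∈ G₀}`, `|G| = |G₀|`; `subl σ l_y` tests each variable
exactly once (`count` of `i` in it is the count of `φ i ∉ rep` in `l_y`, which is `≥ 1` and `< 2`).
`ext x v = if v ∈ E then e v else x (φ⁻¹ v)`. -/
def S_Gap : Prop := ∀ (n ℓ s : ℕ) (c : Coef n → Bool) (P : NBP (Fin n)), 253 * ℓ + s ≤ n →
  Weak P s → (∀ y, Accepts P y ↔ fq c y) → ∀ K : ℕ,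
  (∃ A : Finset (Fin n → Bool), (∀ y ∈ A, fq c y) ∧ K ≤ A.card) →
  ∃ (P' : NBP (Fin (253 * ℓ))) (ext : (Fin (253 * ℓ) → Bool) → Fin n → Bool)
    (φ : Fin (253 * ℓ) → Fin n) (e : Fin n → Bool) (G : Finset (Fin (253 * ℓ) → Bool)),
    Fintype.card P'.V = Fintype.card P.V ∧ AllT P' ∧ Function.Injective φ ∧
    (∀ x i, ext x (φ i) = x i) ∧ (∀ x v, (∀ i, v ≠ φ i) → ext x v = e v) ∧
    (∀ x, Accepts P' x → fq c (ext x)) ∧
    (∀ x ∈ G, ∃ v l, P'.acc v ∧ Walk P' P'.start l v ∧ Consistent x l ∧ Once l) ∧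
    K ≤ ball n (n - 253 * ℓ) * 2 ^ (n - 253 * ℓ) * G.card

/-- REC: the rectangle. PROOF. `U = φ '' {i : own x i ∈ T}`, `A = ext '' {x' ∈ F : part own Tᶜ x' =
part own Tᶜ x}`, `B = ext '' {x' ∈ F : part own T x' = part own T x}`; `ext` is injective, so
`|A|, |B| ≥ t`. If `part own Tᶜ x' = part own Tᶜ x` then `own x' i ∈ Tᶜ ↔ own x i ∈ Tᶜ`, and then
`x' i = x i`. So the elements of `A` agree outside `U`, those of `B` on `U`. By `NoRect` there are
`a = ext x₁`, `b = ext x₂` with `¬ fq c (glue U a b)`. But `own x₁ i ∈ T ↔ own x i ∈ T ↔ own x₂ i ∈ T`,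
so the condition for the hybrid of `x₁`, `x₂`, `J = T` is void and `z = (if own x₁ i ∈ T then x₁ i else
x₂ i)` is accepted by `P'`, and `glue U a b = ext z`: contradiction. -/
def S_Rec : Prop := ∀ (n m k t : ℕ) (f : (Fin n → Bool) → Prop), NoRect f t →
  ∀ (ext : (Fin m → Bool) → Fin n → Bool) (φ : Fin m → Fin n) (e : Fin n → Bool),
  Function.Injective φ → (∀ x i, ext x (φ i) = x i) → (∀ x v, (∀ i, v ≠ φ i) → ext x v = e v) →
  ∀ (F : Finset (Fin m → Bool)) (own : (Fin m → Bool) → Fin m → Fin k),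
  (∀ x ∈ F, ∀ y ∈ F, ∀ J : Finset (Fin k), (∀ v, own x v ∈ J → own y v ∉ J → x v = y v) →
    f (ext (fun v => if own x v ∈ J then x v else y v))) →
  ∀ (T : Finset (Fin k)), ∀ x ∈ F, ¬ (t ≤ fib F (part own T) x ∧ t ≤ fib F (part own Tᶜ) x)

/-- TOP. PROOF. Let `c₁, ℓ₀` be from `S_Cor` and `c₂` from `S_Bal` for `c₁/10^6`. Take `ε` small and
`n` large, `P` a program for `fn n`, `Weak P s`, `s ≤ ε n`, and suppose `|P.V| < exp (ε n)`.
Let `ℓ = (n - s) / 253`, `e₀ = n - 253 ℓ ≤ s + 252 ≤ 2 ε n`, `t = ⌊exp (c₁ ℓ)⌋₊ ≥ exp (c₁ n / 300)`.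
`S_Qua` (with `c₁/300`): `c`. `S_Res` with `σ (inl S) = inl (c S)`, `σ (inr i) = inr i`: a program
`P_c` over `Fin n` for `fq c`. `S_Gap` with `K = 2^(n-2)`: `P', G`. `S_Fam` (`k = 253`): `F`,
`|G| ≤ |P.V|^254 |F|`. So `|F| ≥ 2^(n-2) / (ball n e₀ 2^e₀ exp (254 ε n)) ≥ 2^(253 ℓ) exp (- c₁ ℓ)`
(`n - e₀ = 253 ℓ`, `log ball n e₀ ≤ c₁ n / 10^6`, `ε ≤ c₁ / 10^6`). `S_Cor`: `T, x`, which contradicts
`S_Rec`. -/
def S_Top : Prop := ∃ ε : ℝ, 0 < ε ∧ ∃ N : ℕ, ∀ n ≥ N, ∀ (P : NBP (Coef n ⊕ Fin n)) (s : ℕ),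
  (s : ℝ) ≤ ε * n → Weak P s → (∀ z, Accepts P z ↔ fn n z) →
  Real.exp (ε * n) ≤ Fintype.card P.V

end SRBP
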