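import Pool.Agent.Lib.MP_9dcf40_lc.SR.SpecV

/-!
# The circuit value function with a direct definition of the values of the wires
-/

namespace SRBP

open Finset

namespace BridgeH

theorem length_wires (n : ℕ) (A : ℕ → ℕ → Bool) (y : ℕ → Bool) (t : ℕ) :
    (wires n A y t).length = t := by
  induction t with
  | zero => rfl
  | succ t ih => simp [wires, ih]

theorem getD_wires (n : ℕ) (A : ℕ → ℕ → Bool) (y : ℕ → Bool) (t i : ℕ) (h : i < t) :
    (wires n A y t).getD i true = wire n A y i := by
  induction t with
  | zero => omega
  | succ t ih =>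
    rcases Nat.lt_succ_iff_lt_or_eq.mp h with h' | rfl
    · rw [← ih h', wires, List.getD_append]
      rw [length_wires]
      exact h'
    · rfl

theorem wire_eq (n : ℕ) (A : ℕ → ℕ → Bool) (y : ℕ → Bool) (t : ℕ) :
    wire n A y t = if t < n then y t else
      !((List.range t).all (fun j => !(A t j) || (wires n A y t).getD j true)) := by
  rw [wire, wires, List.getD_append_right _ _ _ _ (by rw [length_wires])]
  rw [length_wires]
  simp

theorem wire_lt (n : ℕ) (A : ℕ → ℕ → Bool) (y : ℕ → Bool) (t : ℕ) (h : t < n) :
    wire n A y t = y t := by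
  rw [wire_eq, if_pos h]

theorem all_congr (n : ℕ) (A : ℕ → ℕ → Bool) (y : ℕ → Bool) (t : ℕ) (B : ℕ → Bool) :
    (List.range t).all (fun j => !(B j) || (wires n A y t).getD j true) = true ↔
      ∀ j < t, B j = true → wire n A y j = true := by
  rw [List.all_eq_true]
  constructor
  · intro h j hj hB
    have := h j (List.mem_range.mpr hj)
    rw [getD_wires n A y t j hj, hB] at this
    simpa using this
  · intro h j hj
    rw [List.mem_range] at hj
    rw [getD_wires n A y t j hj]
    cases hB : B j with
    | false => simp
    | true => simpa using h j hj hB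

theorem wire_ge (n : ℕ) (A : ℕ → ℕ → Bool) (y : ℕ → Bool) (t : ℕ) (h : n ≤ t) :
    wire n A y t = false ↔ ∀ j < t, A t j = true → wire n A y j = true := by
  rw [wire_eq, if_neg (by omega), ← all_congr n A y t (A t)]
  simp only [Bool.not_eq_false']

end BridgeH

open BridgeH in
theorem val_iff (n m : ℕ) (c : CBits n m → Bool) (y : Fin n → Bool) :
    Val n m c y ↔ cv n m (fun a => match a with
      | Sum.inl p => c (Sum.inl p)
      | Sum.inr (Sum.inl o) => c (Sum.inr o)
      | Sum.inr (Sum.inr i) => y i) := by
  set A : ℕ → ℕ → Bool := fun i j =>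
    if h : i - n < m ∧ j < n + m then c (Sum.inl (⟨i - n, h.1⟩, ⟨j, h.2⟩)) else false with hA
  set Y : ℕ → Bool := fun i => if h : i < n then y ⟨i, h⟩ else false with hY
  have hcv : cv n m (fun a => match a with
      | Sum.inl p => c (Sum.inl p)
      | Sum.inr (Sum.inl o) => c (Sum.inr o)
      | Sum.inr (Sum.inr i) => y i) ↔
      ∀ o : Fin (n + m), c (Sum.inr o) = true → wire n A Y o = true := Iff.rfl
  rw [hcv]
  have hAg : ∀ (g : Fin m) (j : Fin (n + m)), A (n + g) j = c (Sum.inl (g, j)) := by
    intro g j
    have h : n + (g : ℕ) - n < m ∧ (j : ℕ) < n + m := ⟨by omega, j.2⟩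
    rw [hA]
    simp only
    rw [dif_pos h]
    congr 3
    exact Fin.ext (by simp)
  have hval : Values n m c y (fun o => wire n A Y o) := by
    constructor
    · intro i
      simp only [Fin.val_castAdd]
      rw [wire_lt _ _ _ _ i.2, hY]
      simp
    · intro g
      simp only [Fin.val_natAdd]
      rw [wire_ge _ _ _ _ (by omega)]
      constructor
      · intro h j hj hc
        refine h j (by simpa [Fin.lt_def] using hj) ?_
        rw [hAg, hc]
      · intro h j hj hc
        have hj' : j < n + m := by omega
        refine h ⟨j, hj'⟩ (by simpa [Fin.lt_def] using hj) ?_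
        rw [← hAg]
        exact hc
  have huniq : ∀ w, Values n m c y w → ∀ (t : ℕ) (ht : t < n + m), w ⟨t, ht⟩ = wire n A Y t := by
    intro w hw t
    induction t using Nat.strong_induction_on with
    | _ t ih =>
      intro ht
      rcases Nat.lt_or_ge t n with h1 | h1
      · have e : (⟨t, ht⟩ : Fin (n + m)) = Fin.castAdd m ⟨t, h1⟩ := rfl
        rw [e, hw.1, wire_lt _ _ _ _ h1, hY]
        simp [h1]
      · have hg : t - n < m := by omega
        have e : (⟨t, ht⟩ : Fin (n + m)) = Fin.natAdd n ⟨t - n, hg⟩ :=
          Fin.ext (by simp; omega)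
        have key : w ⟨t, ht⟩ = false ↔ wire n A Y t = false := by
          rw [e, hw.2, wire_ge _ _ _ _ h1]
          constructor
          · intro h j hj hc
            have hj' : j < n + m := by omega
            rw [← ih j hj hj']
            refine h ⟨j, hj'⟩ (by rw [Fin.lt_def]; simp; omega) ?_
            rw [← hAg]
            have e2 : n + ((⟨t - n, hg⟩ : Fin m) : ℕ) = t := by simp; omega
            rw [e2]
            exact hc
          · intro h j hj hc
            have hj2 : (j : ℕ) < t := by
              rw [Fin.lt_def] at hj
              simp at hj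
              omega
            rw [ih j hj2 j.2]
            refine h j hj2 ?_
            rw [← hAg] at hc
            have e2 : n + ((⟨t - n, hg⟩ : Fin m) : ℕ) = t := by simp; omega
            rw [e2] at hc
            exact hc
        cases h2 : wire n A Y t with
        | false => exact key.2 h2
        | true =>
          cases h3 : w ⟨t, ht⟩ with
          | false => rw [key.1 h3] at h2; exact absurd h2 (by simp)
          | true => rfl
  constructor
  · rintro ⟨w, hw, ho⟩ o hco
    rw [← huniq w hw o o.2]
    exact ho o hco
  · intro h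
    exact ⟨_, hval, h⟩

/-- There are at most `(n + 1)^4` sets of at most four variables. -/
theorem card_coef (n : ℕ) : Fintype.card (Coef n) ≤ (n + 1) ^ 4 := by
  have h : Function.Injective (fun (S : Coef n) (i : Fin 4) => S.1.toList[(i : ℕ)]?) := by
    intro S T hST
    apply Subtype.ext
    ext v
    have key : ∀ R : Coef n, v ∈ R.1 ↔ ∃ i : Fin 4, R.1.toList[(i : ℕ)]? = some v := by
      intro R
      rw [← Finset.mem_toList, List.mem_iff_getElem?]
      constructor
      · rintro ⟨i, hi⟩
        have hlt : i < R.1.toList.length := (List.getElem?_eq_some_iff.1 hi).1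
        rw [Finset.length_toList] at hlt
        exact ⟨⟨i, lt_of_lt_of_le hlt R.2⟩, hi⟩
      · rintro ⟨i, hi⟩
        exact ⟨i, hi⟩
    rw [key S, key T]
    refine exists_congr fun i => ?_
    have := congrFun hST i
    simp only at this
    rw [this]
  have h2 := Fintype.card_le_of_injective _ h
  rwa [Fintype.card_fun, Fintype.card_option, Fintype.card_fin, Fintype.card_fin] at h2

end SRBP
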