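import Pool.Agent.Lib.MP_9dcf40_lc.SR.SpecV

/-!
# One more NAND gate
-/

namespace SRBP

namespace GatH

private theorem length_wires (n : ℕ) (A : ℕ → ℕ → Bool) (y : ℕ → Bool) (t : ℕ) :
    (wires n A y t).length = t := by
  induction t with
  | zero => rfl
  | succ t ih => simp [wires, ih]

private theorem getD_wires (n : ℕ) (A : ℕ → ℕ → Bool) (y : ℕ → Bool) (t i : ℕ) (h : i < t) :
    (wires n A y t).getD i true = wire n A y i := by
  induction t with
  | zero => omega
  | succ t ih =>
    rcases Nat.lt_succ_iff_lt_or_eq.mp h with h' | rfl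
    · rw [← ih h', wires, List.getD_append]
      rw [length_wires]
      exact h'
    · rfl

private theorem wire_eq (n : ℕ) (A : ℕ → ℕ → Bool) (y : ℕ → Bool) (t : ℕ) :
    wire n A y t = if t < n then y t else
      !((List.range t).all (fun j => !(A t j) || (wires n A y t).getD j true)) := by
  rw [wire, wires, List.getD_append_right _ _ _ _ (by rw [length_wires])]
  rw [length_wires]
  simp

private theorem wire_lt (n : ℕ) (A : ℕ → ℕ → Bool) (y : ℕ → Bool) (t : ℕ) (h : t < n) :
    wire n A y t = y t := by
  rw [wire_eq, if_pos h]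

private theorem all_congr (n : ℕ) (A : ℕ → ℕ → Bool) (y : ℕ → Bool) (t : ℕ) (B : ℕ → Bool) :
    (List.range t).all (fun j => !(B j) || (wires n A y t).getD j true) = true ↔
      ∀ j < t, B j = true → wire n A y j = true := by
  rw [List.all_eq_true]
  constructor
  · intro h j hj hB
    have := h j (List.mem_range.mpr hj)
    rw [getD_wires n A y t j hj, hB] at this
    simpa using this
  · intro h j hj
    rw [List.mem_range] at hj
    rw [getD_wires n A y t j hj]
    cases hB : B j with
    | false => simp
    | true => simpa using h j hj hB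

private theorem wire_ge (n : ℕ) (A : ℕ → ℕ → Bool) (y : ℕ → Bool) (t : ℕ) (h : n ≤ t) :
    wire n A y t = false ↔ ∀ j < t, A t j = true → wire n A y j = true := by
  rw [wire_eq, if_neg (by omega), ← all_congr n A y t (A t)]
  simp only [Bool.not_eq_false']

private theorem wire_congr (n : ℕ) (A A' : ℕ → ℕ → Bool) (y : ℕ → Bool) (t : ℕ)
    (h : ∀ i ≤ t, ∀ j, A i j = A' i j) : wire n A y t = wire n A' y t := by
  induction t using Nat.strong_induction_on with
  | _ t ih =>
    rcases Nat.lt_or_ge t n with h1 | h1
    · rw [wire_lt _ _ _ _ h1, wire_lt _ _ _ _ h1]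
    · have key : wire n A y t = false ↔ wire n A' y t = false := by
        rw [wire_ge _ _ _ _ h1, wire_ge _ _ _ _ h1]
        constructor
        · intro hh j hj hA
          rw [← ih j hj (fun i hi => h i (by omega))]
          exact hh j hj (by rw [h t le_rfl]; exact hA)
        · intro hh j hj hA
          rw [ih j hj (fun i hi => h i (by omega))]
          exact hh j hj (by rw [← h t le_rfl]; exact hA)
      cases h2 : wire n A y t with
      | false => exact (key.mp h2).symm
      | true =>
        cases h3 : wire n A' y t with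
        | false => rw [key.mpr h3] at h2; exact absurd h2 (by simp)
        | true => rfl

end GatH

open GatH in
theorem tGat : S_Gat := by
  classical
  refine ⟨?_, ?_, ?_, ?_⟩
  · rintro n m L S ⟨A, hA⟩ hS
    choose! i hi hw using hA
    refine ⟨fun a j => if a = n + m then decide (∃ φ ∈ S, i φ = j) else A a j, ?_⟩
    set A' : ℕ → ℕ → Bool :=
      fun a j => if a = n + m then decide (∃ φ ∈ S, i φ = j) else A a j with hA'
    have hold : ∀ y, ∀ j < n + m, wire n A' y j = wire n A y j := by
      intro y j hj
      refine wire_congr n A' A y j ?_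
      intro a ha b
      rw [hA']
      simp only
      rw [if_neg (by omega)]
    intro φ hφ
    rcases List.mem_cons.mp hφ with rfl | hφ
    · refine ⟨n + m, by omega, ?_⟩
      intro y
      have key : wire n A' y (n + m) = false ↔ S.all (fun φ => φ y) = true := by
        rw [wire_ge _ _ _ _ (by omega), List.all_eq_true]
        constructor
        · intro h φ hφ
          have h1 := h (i φ) (hi φ (hS φ hφ)) (by
            rw [hA']
            simp only [if_true, decide_eq_true_eq]
            exact ⟨φ, hφ, rfl⟩)
          rw [hold y _ (hi φ (hS φ hφ)), hw φ (hS φ hφ)] at h1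
          exact h1
        · intro h j hj hj2
          rw [hA'] at hj2
          simp only [if_true, decide_eq_true_eq] at hj2
          obtain ⟨φ, hφ, rfl⟩ := hj2
          rw [hold y _ hj, hw φ (hS φ hφ)]
          exact h φ hφ
      change wire n A' y (n + m) = !(S.all (fun φ => φ y))
      cases h2 : wire n A' y (n + m) with
      | false => rw [key.mp h2]; rfl
      | true =>
        cases h3 : S.all (fun φ => φ y) with
        | false => rfl
        | true => rw [key.mpr h3] at h2; exact absurd h2 (by simp)
    · refine ⟨i φ, by have := hi φ hφ; omega, ?_⟩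
      intro y
      rw [hold y _ (hi φ hφ), hw φ hφ]
  · intro n
    refine ⟨fun _ _ => false, ?_⟩
    intro φ hφ
    rw [List.mem_map] at hφ
    obtain ⟨i, hi, rfl⟩ := hφ
    rw [List.mem_range] at hi
    exact ⟨i, by omega, fun y => wire_lt _ _ _ _ hi⟩
  · rintro n m m' L hm ⟨A, hA⟩
    refine ⟨A, fun φ hφ => ?_⟩
    obtain ⟨i, hi, h⟩ := hA φ hφ
    exact ⟨i, by omega, h⟩
  · rintro n m L L' ⟨A, hA⟩ hL
    exact ⟨A, fun φ hφ => hA φ (hL φ hφ)⟩

end SRBP
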