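import Pool.Agent.Lib.MP_9dcf40_lc.SR.SpecV

/-!
# The circuit value function: sums of monomials (task SR/Mon)
-/

namespace SRBP

open Finset

private theorem all_map_eq (M : List ℕ) (y : ℕ → Bool) :
    (M.map (fun i => fun y : ℕ → Bool => y i)).all (fun φ => φ y) = M.all (fun i => y i) := by
  rw [List.all_map]
  rfl

theorem tMon (h1 : S_Gat) (h2 : S_Xor) : S_Mon := by
  intro n m L T hL hvar hT
  induction T with
  | nil => exact h1.1 n m L [] hL (by simp)
  | cons M T ih =>
    have ih' := ih (fun M' hM' => hT M' (List.mem_cons_of_mem _ hM'))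
    set g : (ℕ → Bool) → Bool := fun y => (T.map (fun M => M.all (fun i => y i))).foldr xor false
      with hg
    -- the `NAND` of the variables of the monomial
    have s1 := h1.1 n _ _ (M.map (fun i => fun y : ℕ → Bool => y i)) ih' (by
      intro φ hφ
      obtain ⟨i, hi, rfl⟩ := List.mem_map.1 hφ
      exact List.mem_cons_of_mem _ (hvar i (hT M List.mem_cons_self i hi)))
    set h : (ℕ → Bool) → Bool := fun y =>
      !((M.map (fun i => fun y : ℕ → Bool => y i)).all (fun φ => φ y)) with hh
    -- its negation
    have s2 := h1.1 n _ _ [h] s1 (by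
      intro φ hφ
      rw [List.mem_singleton] at hφ
      rw [hφ]
      exact List.mem_cons_self)
    set k : (ℕ → Bool) → Bool := fun y => !([h].all (fun φ => φ y)) with hk
    have s3 := h2 n _ _ k g s2 List.mem_cons_self
      (List.mem_cons_of_mem _ (List.mem_cons_of_mem _ List.mem_cons_self))
    have hkM : ∀ y, k y = M.all (fun i => y i) := by
      intro y
      simp only [hk, hh, List.all_cons, List.all_nil, Bool.and_true, Bool.not_not]
      exact all_map_eq M y
    have e1 : m + 6 * (M :: T).length + 1 = m + 6 * T.length + 1 + 1 + 1 + 4 := by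
      rw [List.length_cons]; ring
    have e2 : (fun y : ℕ → Bool => ((M :: T).map (fun M => M.all (fun i => y i))).foldr xor false) =
        fun y => xor (k y) (g y) := by
      funext y
      rw [List.map_cons, List.foldr_cons, hkM y]
    rw [e1, e2]
    refine h1.2.2.2 n _ _ _ s3 fun φ hφ => ?_
    rcases List.mem_cons.1 hφ with rfl | hφ
    · exact List.mem_cons_self
    · exact List.mem_cons_of_mem _ (List.mem_cons_of_mem _ (List.mem_cons_of_mem _
        (List.mem_cons_of_mem _ hφ)))

end SRBP
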