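import Pool.Agent.Lib.MP_9dcf40_lc.SR.SpecV

namespace SRBP

theorem tXor (h1 : S_Gat) : S_Xor := by
  obtain ⟨hg, -, -, hs⟩ := h1
  intro n m L φ ψ hL hφ hψ
  have a1 := hg n m L [φ, ψ] hL (by
    intro χ hχ
    simp only [List.mem_cons, List.not_mem_nil, or_false] at hχ
    rcases hχ with rfl | rfl <;> assumption)
  set g1 : (ℕ → Bool) → Bool := fun y => !([φ, ψ].all (fun χ => χ y)) with hg1
  have a2 := hg n (m + 1) (g1 :: L) [φ, g1] a1 (by
    intro χ hχ
    simp only [List.mem_cons, List.not_mem_nil, or_false] at hχ ⊢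
    rcases hχ with rfl | rfl
    · exact Or.inr hφ
    · exact Or.inl rfl)
  set g2 : (ℕ → Bool) → Bool := fun y => !([φ, g1].all (fun χ => χ y)) with hg2
  have a3 := hg n (m + 1 + 1) (g2 :: g1 :: L) [ψ, g1] a2 (by
    intro χ hχ
    simp only [List.mem_cons, List.not_mem_nil, or_false] at hχ ⊢
    rcases hχ with rfl | rfl
    · exact Or.inr (Or.inr hψ)
    · exact Or.inr (Or.inl rfl))
  set g3 : (ℕ → Bool) → Bool := fun y => !([ψ, g1].all (fun χ => χ y)) with hg3
  have a4 := hg n (m + 1 + 1 + 1) (g3 :: g2 :: g1 :: L) [g2, g3] a3 (by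
    intro χ hχ
    simp only [List.mem_cons, List.not_mem_nil, or_false] at hχ ⊢
    rcases hχ with rfl | rfl
    · exact Or.inr (Or.inl rfl)
    · exact Or.inl rfl)
  have he : (fun y : ℕ → Bool => xor (φ y) (ψ y)) =
      fun y => !([g2, g3].all (fun χ => χ y)) := by
    funext y
    simp only [hg1, hg2, hg3, List.all_cons, List.all_nil, Bool.and_true]
    cases φ y <;> cases ψ y <;> rfl
  rw [he]
  refine hs n _ _ _ a4 ?_
  intro χ hχ
  simp only [List.mem_cons] at hχ ⊢
  rcases hχ with rfl | h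
  · exact Or.inl rfl
  · exact Or.inr (Or.inr (Or.inr (Or.inr h)))

end SRBP
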