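import Pool.Agent.Lib.MP_9dcf40_lc.SR.Spec

/-!
# The Bollobas type inequality (proof of `S_Bol`)
-/

namespace SRBP

namespace Bol

open Finset
open scoped Classical

theorem wt_nonneg {p : ℝ} (h0 : 0 < p) (h1 : p ≤ 1 / 2) (r : Option Bool) : 0 ≤ wt p r := by
  cases r with
  | none => simp only [wt]; linarith
  | some b => simp only [wt]; exact h0.le

/-- The weights of all subcubes sum up to `1`. -/
theorem sum_wt (n : ℕ) (p : ℝ) : ∑ R : Fin n → Option Bool, ∏ v, wt p (R v) = 1 := by
  have h := Finset.prod_univ_sum (fun _ : Fin n => (univ : Finset (Option Bool)))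
    (fun _ r => wt p r)
  rw [Fintype.piFinset_univ] at h
  rw [← h]
  have h2 : ∑ j : Option Bool, wt p j = 1 := by
    rw [Fintype.sum_option, Fintype.sum_bool]
    simp only [wt]
    ring
  rw [h2, Finset.prod_const_one]

/-- The set of coordinates which are not `none`. -/
def dom {n : ℕ} (q : Fin n → Option Bool) : Finset (Fin n) := univ.filter (fun v => q v ≠ none)

theorem part_none {n k : ℕ} (own : (Fin n → Bool) → Fin n → Fin k) (J : Finset (Fin k))
    (x : Fin n → Bool) (v : Fin n) : part own J x v = none ↔ own x v ∉ J := by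
  unfold part
  by_cases h : own x v ∈ J
  · simp [h]
  · simp [h]

theorem part_some {n k : ℕ} (own : (Fin n → Bool) → Fin n → Fin k) (J : Finset (Fin k))
    (x : Fin n → Bool) (v : Fin n) (h : own x v ∈ J) : part own J x v = some (x v) := by
  unfold part
  simp [h]

theorem card_dom {n k ℓ s : ℕ} {F : Finset (Fin n → Bool)}
    {own : (Fin n → Bool) → Fin n → Fin k} (hG : Good n k ℓ s F own) (J : Finset (Fin k))
    {x : Fin n → Bool} (hx : x ∈ F) : (dom (part own J x)).card = J.card * ℓ := by
  have h1 : dom (part own J x) = univ.filter (fun v => own x v ∈ J) := by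
    unfold dom
    refine Finset.filter_congr (fun v _ => ?_)
    rw [ne_eq, part_none, not_not]
  rw [h1]
  have h2 : ∀ v ∈ (univ : Finset (Fin n)).filter (fun v => own x v ∈ J), own x v ∈ J := by
    intro v hv
    exact (Finset.mem_filter.1 hv).2
  rw [Finset.card_eq_sum_card_fiberwise h2]
  have h3 : ∀ j ∈ J, (((univ : Finset (Fin n)).filter (fun v => own x v ∈ J)).filter
      (fun v => own x v = j)).card = ℓ := by
    intro j hj
    rw [← hG.1 x hx j]
    congr 1
    ext v
    simp only [Finset.mem_filter, Finset.mem_univ, true_and, and_iff_right_iff_imp]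
    intro hv
    rw [hv]; exact hj
  rw [Finset.sum_congr rfl h3, Finset.sum_const, smul_eq_mul]

/-- For a fixed subcube there are few parts. -/
theorem count {n k ℓ s : ℕ} {F : Finset (Fin n → Bool)}
    {own : (Fin n → Bool) → Fin n → Fin k} (hG : Good n k ℓ s F own) (J : Finset (Fin k))
    (R : Fin n → Option Bool) :
    ((F.image (part own J)).filter (fun q => (∀ v ∈ dom q, R v ≠ none) ∧
      Hits R (F.filter (fun x => part own J x = q)))).card ≤ ball n s ^ 2 := by
  set QR := (F.image (part own J)).filter (fun q => (∀ v ∈ dom q, R v ≠ none) ∧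
      Hits R (F.filter (fun x => part own J x = q))) with hQR
  rcases Finset.eq_empty_or_nonempty QR with h0 | ⟨q1, hq1⟩
  · rw [h0, Finset.card_empty]; exact Nat.zero_le _
  have hget : ∀ q ∈ QR, ∃ x ∈ F, part own J x = q ∧ (∀ v, own x v ∈ J → R v = some (x v)) ∧
      (∀ v, R v = none ∨ R v = some (x v)) := by
    intro q hq
    rw [hQR, Finset.mem_filter] at hq
    obtain ⟨_, hd, x, hx, hR⟩ := hq
    rw [Finset.mem_filter] at hx
    refine ⟨x, hx.1, hx.2, ?_, hR⟩
    intro v hv
    have h1 : v ∈ dom q := by
      rw [dom, Finset.mem_filter]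
      refine ⟨Finset.mem_univ v, ?_⟩
      rw [← hx.2, ne_eq, part_none, not_not]
      exact hv
    exact (hR v).resolve_left (hd v h1)
  obtain ⟨x1, hx1F, hx1q, hx1J, hx1R⟩ := hget q1 hq1
  set B : Finset (Finset (Fin n)) := (univ : Finset (Finset (Fin n))).filter (fun S => S.card ≤ s)
    with hB
  have hBc : (B ×ˢ B).card = ball n s ^ 2 := by
    rw [Finset.card_product, sq]; rfl
  rw [← hBc]
  refine Finset.card_le_card_of_injOn
    (fun q => (univ.filter (fun v => q v ≠ none ∧ own x1 v ∉ J),
      univ.filter (fun v => own x1 v ∈ J ∧ q v = none))) ?_ ?_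
  · intro q hq
    obtain ⟨x, hxF, hxq, hxJ, hxR⟩ := hget q hq
    have e1 : (univ.filter (fun v => q v ≠ none ∧ own x1 v ∉ J)).card ≤ s := by
      have := hG.2 x hxF x1 hx1F J (by
        intro v hv _
        have h1 := hxJ v hv
        rcases hx1R v with h2 | h2
        · rw [h1] at h2; exact absurd h2 (by simp)
        · rw [h1] at h2; exact Option.some.inj h2)
      refine le_trans (le_of_eq ?_) this
      congr 1
      refine Finset.filter_congr (fun v _ => ?_)
      rw [← hxq, ne_eq, part_none, not_not]
    have e2 : (univ.filter (fun v => own x1 v ∈ J ∧ q v = none)).card ≤ s := by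
      have := hG.2 x1 hx1F x hxF J (by
        intro v hv _
        have h1 := hx1J v hv
        rcases hxR v with h2 | h2
        · rw [h1] at h2; exact absurd h2 (by simp)
        · rw [h1] at h2; exact Option.some.inj h2)
      refine le_trans (le_of_eq ?_) this
      congr 1
      refine Finset.filter_congr (fun v _ => ?_)
      rw [← hxq, part_none]
    simp only [Finset.coe_product, Set.mem_prod, Finset.mem_coe, hB, Finset.mem_filter,
      Finset.mem_univ, true_and]
    exact ⟨e1, e2⟩
  · intro q hq q' hq' he
    simp only [Prod.mk.injEq] at he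
    obtain ⟨he1, he2⟩ := he
    have hval : ∀ q ∈ QR, ∀ v, q v ≠ none → q v = some (x1 v) := by
      intro q hq v hv
      obtain ⟨x, hxF, hxq, hxJ, hxR⟩ := hget q hq
      have hv' : own x v ∈ J := by
        rw [← hxq, ne_eq, part_none, not_not] at hv
        exact hv
      have h1 := hxJ v hv'
      rw [← hxq, part_some own J x v hv']
      rcases hx1R v with h2 | h2
      · rw [h1] at h2; exact absurd h2 (by simp)
      · rw [← h1, h2]
    have hdom : ∀ v, q v = none ↔ q' v = none := by
      intro v
      by_cases hv : own x1 v ∈ J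
      · have := Finset.ext_iff.1 he2 v
        simp only [Finset.mem_filter, Finset.mem_univ, true_and, hv] at this
        exact this
      · have := Finset.ext_iff.1 he1 v
        simp only [Finset.mem_filter, Finset.mem_univ, true_and, hv, not_false_eq_true,
          and_true, ne_eq] at this
        exact not_iff_not.1 this
    funext v
    by_cases hv : q v = none
    · rw [hv, (hdom v).1 hv]
    · have hv' : q' v ≠ none := fun h => hv ((hdom v).2 h)
      rw [hval q hq v hv, hval q' hq' v hv']

/-- Grouping by the fibres. -/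
theorem group {n k : ℕ} (F : Finset (Fin n → Bool)) (own : (Fin n → Bool) → Fin n → Fin k)
    (J : Finset (Fin k)) (lam : ℝ) :
    ∑ x ∈ F, (fib F (part own J) x : ℝ) ^ (lam - 1) =
      ∑ q ∈ F.image (part own J), ((F.filter (fun x => part own J x = q)).card : ℝ) ^ lam := by
  have h1 : ∀ x ∈ F, part own J x ∈ F.image (part own J) := fun x hx =>
    Finset.mem_image_of_mem _ hx
  rw [← Finset.sum_fiberwise_of_maps_to h1]
  refine Finset.sum_congr rfl (fun q hq => ?_)
  have h2 : ∀ x ∈ F.filter (fun x => part own J x = q),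
      (fib F (part own J) x : ℝ) ^ (lam - 1) =
      ((F.filter (fun x => part own J x = q)).card : ℝ) ^ (lam - 1) := by
    intro x hx
    rw [Finset.mem_filter] at hx
    have : fib F (part own J) x = (F.filter (fun x => part own J x = q)).card := by
      unfold fib
      rw [hx.2]
      refine congrArg Finset.card ?_
      ext y
      simp only [Finset.mem_filter]
    rw [this]
  rw [Finset.sum_congr rfl h2, Finset.sum_const, nsmul_eq_mul]
  have hpos : (0 : ℝ) < ((F.filter (fun x => part own J x = q)).card : ℝ) := by
    rw [Finset.mem_image] at hq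
    obtain ⟨x, hx, hxq⟩ := hq
    have : 0 < (F.filter (fun x => part own J x = q)).card :=
      Finset.card_pos.2 ⟨x, Finset.mem_filter.2 ⟨hx, hxq⟩⟩
    exact_mod_cast this
  rw [Real.rpow_sub hpos, Real.rpow_one]
  field_simp

end Bol

theorem tBol (h1 : S_Hit) : S_Bol := by
  classical
  intro n k ℓ s F own hG p lam hp0 hp1 hlam J
  rw [Bol.group, Finset.mul_sum]
  have hstep : ∀ q ∈ F.image (part own J),
      p ^ (J.card * ℓ) * (1 - p) ^ (n - J.card * ℓ) *
        ((F.filter (fun x => part own J x = q)).card : ℝ) ^ lam ≤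
      ∑ R : Fin n → Option Bool, (∏ v, wt p (R v)) *
        (if (∀ v ∈ Bol.dom q, R v ≠ none) ∧
          Hits R (F.filter (fun x => part own J x = q)) then 1 else 0) := by
    intro q hq
    have hc : (Bol.dom q).card = J.card * ℓ := by
      obtain ⟨x, hx, hxq⟩ := Finset.mem_image.1 hq
      rw [← hxq]
      exact Bol.card_dom hG J hx
    have := h1 n p lam hp0 hp1 hlam (Bol.dom q) (F.filter (fun x => part own J x = q))
    rw [hc] at this
    convert this
  refine (Finset.sum_le_sum hstep).trans ?_
  rw [Finset.sum_comm]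
  have hR : ∀ R : Fin n → Option Bool, (∑ q ∈ F.image (part own J), (∏ v, wt p (R v)) *
        (if (∀ v ∈ Bol.dom q, R v ≠ none) ∧
          Hits R (F.filter (fun x => part own J x = q)) then (1 : ℝ) else 0))
      ≤ (∏ v, wt p (R v)) * (ball n s : ℝ) ^ 2 := by
    intro R
    rw [← Finset.mul_sum]
    refine mul_le_mul_of_nonneg_left ?_
      (Finset.prod_nonneg (fun v _ => Bol.wt_nonneg hp0 hp1 (R v)))
    have := Bol.count hG J R
    have h2 : (((F.image (part own J)).filter (fun q => (∀ v ∈ Bol.dom q, R v ≠ none) ∧
      Hits R (F.filter (fun x => part own J x = q)))).card : ℝ) ≤ (ball n s : ℝ) ^ 2 := by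
      have h3 : (((F.image (part own J)).filter (fun q => (∀ v ∈ Bol.dom q, R v ≠ none) ∧
        Hits R (F.filter (fun x => part own J x = q)))).card) ≤ ball n s ^ 2 := by
        convert this
      exact_mod_cast h3
    rw [Finset.sum_boole]
    exact h2
  refine (Finset.sum_le_sum (fun R _ => hR R)).trans ?_
  rw [← Finset.sum_mul, Bol.sum_wt, one_mul]

end SRBP
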