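import Pool.Agent.Lib.MP_9dcf40_lc.SR.Spec

/-!
# A random subcube meets a set (proof of `S_Hit`)
-/

namespace SRBP

namespace Hit

open Finset
open scoped Classical

/-- The right side of the hitting inequality. -/
noncomputable def PP (n : ℕ) (p : ℝ) (D : Finset (Fin n)) (A : Finset (Fin n → Bool)) : ℝ :=
  ∑ R : Fin n → Option Bool, (∏ v, wt p (R v)) *
      (if (∀ v ∈ D, R v ≠ none) ∧ Hits R A then 1 else 0)

/-- The set `D` without the first coordinate. -/
def tl {n : ℕ} (D : Finset (Fin (n + 1))) : Finset (Fin n) := univ.filter (fun v => v.succ ∈ D)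

/-- The slice of `A` with first letter `b`. -/
def sl {n : ℕ} (A : Finset (Fin (n + 1) → Bool)) (b : Bool) : Finset (Fin n → Bool) :=
  univ.filter (fun a => (Fin.cons b a : Fin (n + 1) → Bool) ∈ A)

theorem card_tl {n : ℕ} (D : Finset (Fin (n + 1))) :
    D.card = (if (0 : Fin (n + 1)) ∈ D then 1 else 0) + (tl D).card := by
  have h1 : D.card = ((univ : Finset (Fin (n + 1))).filter (fun v => v ∈ D)).card := by
    congr 1; ext v; simp
  rw [h1, Finset.card_filter, Fin.sum_univ_succ, tl, Finset.card_filter]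

theorem card_sl {n : ℕ} (A : Finset (Fin (n + 1) → Bool)) :
    A.card = (sl A false).card + (sl A true).card := by
  have h1 : A.card = ((univ : Finset (Fin (n + 1) → Bool)).filter (fun v => v ∈ A)).card := by
    congr 1; ext v; simp
  have h2 : (∑ a : Fin (n + 1) → Bool, if a ∈ A then 1 else 0)
      = ∑ q : Bool × (Fin n → Bool), if (Fin.cons q.1 q.2 : Fin (n + 1) → Bool) ∈ A then 1 else 0 := by
    refine (Fintype.sum_equiv (Fin.consEquiv (fun _ => Bool)) _ _ ?_).symm
    intro q
    rfl
  rw [h1, Finset.card_filter, h2, Fintype.sum_prod_type, Fintype.sum_bool, sl, sl,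
    Finset.card_filter, Finset.card_filter, add_comm]

theorem hits_some {n : ℕ} (A : Finset (Fin (n + 1) → Bool)) (b : Bool) (R : Fin n → Option Bool) :
    Hits (Fin.cons (some b) R : Fin (n + 1) → Option Bool) A ↔ Hits R (sl A b) := by
  constructor
  · rintro ⟨a, ha, h⟩
    refine ⟨Fin.tail a, ?_, ?_⟩
    · have h0 := h 0
      simp only [Fin.cons_zero, reduceCtorEq, Option.some.injEq, false_or] at h0
      simp only [sl, Finset.mem_filter, Finset.mem_univ, true_and]
      rw [h0, Fin.cons_self_tail]
      exact ha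
    · intro v
      have hv := h v.succ
      simp only [Fin.cons_succ] at hv
      exact hv
  · rintro ⟨a, ha, h⟩
    refine ⟨Fin.cons b a, ?_, ?_⟩
    · simpa only [sl, Finset.mem_filter, Finset.mem_univ, true_and] using ha
    · intro v
      refine Fin.cases ?_ (fun w => ?_) v
      · right; simp only [Fin.cons_zero]
      · simpa only [Fin.cons_succ] using h w

theorem hits_none {n : ℕ} (A : Finset (Fin (n + 1) → Bool)) (b : Bool) (R : Fin n → Option Bool)
    (h : Hits R (sl A b)) : Hits (Fin.cons none R : Fin (n + 1) → Option Bool) A := by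
  obtain ⟨a, ha, h⟩ := h
  refine ⟨Fin.cons b a, ?_, ?_⟩
  · simpa only [sl, Finset.mem_filter, Finset.mem_univ, true_and] using ha
  · intro v
    refine Fin.cases ?_ (fun w => ?_) v
    · left; simp only [Fin.cons_zero]
    · simpa only [Fin.cons_succ] using h w

theorem cond_some {n : ℕ} (D : Finset (Fin (n + 1))) (b : Bool) (R : Fin n → Option Bool) :
    (∀ v ∈ D, (Fin.cons (some b) R : Fin (n + 1) → Option Bool) v ≠ none) ↔
      ∀ v ∈ tl D, R v ≠ none := by
  constructor
  · intro h v hv
    have := h v.succ (by simpa only [tl, Finset.mem_filter, Finset.mem_univ, true_and] using hv)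
    simpa only [Fin.cons_succ] using this
  · intro h v
    refine Fin.cases ?_ (fun w => ?_) v
    · intro _
      simp only [Fin.cons_zero, ne_eq, reduceCtorEq, not_false_eq_true]
    · intro hw
      simp only [Fin.cons_succ]
      exact h w (by simpa only [tl, Finset.mem_filter, Finset.mem_univ, true_and] using hw)

theorem cond_none {n : ℕ} (D : Finset (Fin (n + 1))) (h0 : (0 : Fin (n + 1)) ∉ D)
    (R : Fin n → Option Bool) (h : ∀ v ∈ tl D, R v ≠ none) :
    ∀ v ∈ D, (Fin.cons none R : Fin (n + 1) → Option Bool) v ≠ none := by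
  intro v
  refine Fin.cases ?_ (fun w => ?_) v
  · intro hv; exact absurd hv h0
  · intro hw
    simp only [Fin.cons_succ]
    exact h w (by simpa only [tl, Finset.mem_filter, Finset.mem_univ, true_and] using hw)

theorem wt_nonneg {p : ℝ} (h0 : 0 < p) (h1 : p ≤ 1 / 2) (r : Option Bool) : 0 ≤ wt p r := by
  cases r with
  | none => simp only [wt]; linarith
  | some b => simp only [wt]; exact h0.le

theorem prod_nonneg' {n : ℕ} {p : ℝ} (h0 : 0 < p) (h1 : p ≤ 1 / 2) (R : Fin n → Option Bool) :
    0 ≤ ∏ v, wt p (R v) := Finset.prod_nonneg (fun v _ => wt_nonneg h0 h1 (R v))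

/-- The recursion. -/
theorem PP_succ {n : ℕ} (p : ℝ) (D : Finset (Fin (n + 1))) (A : Finset (Fin (n + 1) → Bool)) :
    PP (n + 1) p D A = p * PP n p (tl D) (sl A false) + p * PP n p (tl D) (sl A true)
      + (1 - 2 * p) * ∑ R : Fin n → Option Bool, (∏ v, wt p (R v)) *
        (if (∀ v ∈ D, (Fin.cons none R : Fin (n + 1) → Option Bool) v ≠ none) ∧
          Hits (Fin.cons none R : Fin (n + 1) → Option Bool) A then 1 else 0) := by
  have h1 : PP (n + 1) p D A = ∑ q : Option Bool × (Fin n → Option Bool),
      (∏ v, wt p ((Fin.cons q.1 q.2 : Fin (n + 1) → Option Bool) v)) *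
      (if (∀ v ∈ D, (Fin.cons q.1 q.2 : Fin (n + 1) → Option Bool) v ≠ none) ∧
        Hits (Fin.cons q.1 q.2 : Fin (n + 1) → Option Bool) A then 1 else 0) := by
    refine (Fintype.sum_equiv (Fin.consEquiv (fun _ => Option Bool)) _ _ ?_).symm
    intro q
    rfl
  have h2 : ∀ b : Bool, (∑ R : Fin n → Option Bool,
      (∏ v, wt p ((Fin.cons (some b) R : Fin (n + 1) → Option Bool) v)) *
      (if (∀ v ∈ D, (Fin.cons (some b) R : Fin (n + 1) → Option Bool) v ≠ none) ∧
        Hits (Fin.cons (some b) R : Fin (n + 1) → Option Bool) A then (1 : ℝ) else 0))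
      = p * PP n p (tl D) (sl A b) := by
    intro b
    rw [PP, Finset.mul_sum]
    refine Finset.sum_congr rfl (fun R _ => ?_)
    rw [Fin.prod_univ_succ]
    simp only [Fin.cons_zero, Fin.cons_succ, cond_some, hits_some]
    simp only [wt]
    ring
  have h3 : (∑ R : Fin n → Option Bool,
      (∏ v, wt p ((Fin.cons none R : Fin (n + 1) → Option Bool) v)) *
      (if (∀ v ∈ D, (Fin.cons none R : Fin (n + 1) → Option Bool) v ≠ none) ∧
        Hits (Fin.cons none R : Fin (n + 1) → Option Bool) A then (1 : ℝ) else 0))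
      = (1 - 2 * p) * ∑ R : Fin n → Option Bool, (∏ v, wt p (R v)) *
        (if (∀ v ∈ D, (Fin.cons none R : Fin (n + 1) → Option Bool) v ≠ none) ∧
          Hits (Fin.cons none R : Fin (n + 1) → Option Bool) A then 1 else 0) := by
    rw [Finset.mul_sum]
    refine Finset.sum_congr rfl (fun R _ => ?_)
    rw [Fin.prod_univ_succ]
    have e1 : (∏ i : Fin n, wt p ((Fin.cons none R : Fin (n + 1) → Option Bool) i.succ))
        = ∏ v, wt p (R v) := by
      refine Finset.prod_congr rfl (fun i _ => ?_)
      rw [Fin.cons_succ]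
    have e2 : wt p ((Fin.cons none R : Fin (n + 1) → Option Bool) 0) = 1 - 2 * p := by
      rw [Fin.cons_zero]; rfl
    rw [e1, e2, mul_assoc]
  rw [h1, Fintype.sum_prod_type, Fintype.sum_option, Fintype.sum_bool, h2, h2, h3]
  ring

theorem main (h1 : S_Pow) (p lam : ℝ) (hp0 : 0 < p) (hp1 : p ≤ 1 / 2)
    (hlam : 1 - p = (2 : ℝ) ^ (-lam)) : ∀ (n : ℕ) (D : Finset (Fin n)) (A : Finset (Fin n → Bool)),
    p ^ D.card * (1 - p) ^ (n - D.card) * (A.card : ℝ) ^ lam ≤ PP n p D A := by
  have hl0 : 0 < lam := (h1 p lam 0 0 hp0 hp1 hlam le_rfl le_rfl).2.2.1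
  have h1p : 0 ≤ 1 - p := by linarith
  intro n
  induction n with
  | zero =>
    intro D A
    have hD : D.card = 0 := by
      rw [Finset.card_eq_zero]
      ext v; exact v.elim0
    rw [hD]
    simp only [pow_zero, Nat.sub_zero, one_mul, PP]
    rcases Finset.eq_empty_or_nonempty A with hA | hA
    · subst hA
      rw [Finset.card_empty, Nat.cast_zero, Real.zero_rpow hl0.ne']
      refine Finset.sum_nonneg (fun R _ => ?_)
      refine mul_nonneg (prod_nonneg' hp0 hp1 R) ?_
      split_ifs
      · exact zero_le_one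
      · exact le_rfl
    · have hc : A.card = 1 := by
        apply le_antisymm
        · calc A.card ≤ Fintype.card (Fin 0 → Bool) := Finset.card_le_univ A
            _ = 1 := by simp
        · exact hA.card_pos
      rw [hc, Nat.cast_one, Real.one_rpow]
      rw [Fintype.sum_unique]
      obtain ⟨a, ha⟩ := hA
      have hc2 : ∀ R : Fin 0 → Option Bool, (∀ v ∈ D, R v ≠ none) ∧ Hits R A :=
        fun R => ⟨fun v => v.elim0, ⟨a, ha, fun v => v.elim0⟩⟩
      rw [if_pos (hc2 _), mul_one]
      simp
  | succ n ih =>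
    intro D A
    have hcD := card_tl D
    have hcA := card_sl A
    have hd : (tl D).card ≤ n := by
      calc (tl D).card ≤ Fintype.card (Fin n) := Finset.card_le_univ _
        _ = n := Fintype.card_fin n
    have i0 := ih (tl D) (sl A false)
    have i1 := ih (tl D) (sl A true)
    set c : ℝ := p ^ (tl D).card * (1 - p) ^ (n - (tl D).card) with hc
    have hc0 : 0 ≤ c := by positivity
    rw [PP_succ]
    have hAr : (A.card : ℝ) = ((sl A false).card : ℝ) + ((sl A true).card : ℝ) := by
      rw [hcA]; push_cast; ring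
    set a0 : ℝ := ((sl A false).card : ℝ) with ha0
    set a1 : ℝ := ((sl A true).card : ℝ) with ha1
    have ha0' : 0 ≤ a0 := Nat.cast_nonneg _
    have ha1' : 0 ≤ a1 := Nat.cast_nonneg _
    have h12p : 0 ≤ 1 - 2 * p := by linarith
    by_cases h0 : (0 : Fin (n + 1)) ∈ D
    · rw [if_pos h0] at hcD
      have e1 : n + 1 - D.card = n - (tl D).card := by omega
      have e2 : D.card = (tl D).card + 1 := by omega
      have hS : 0 ≤ ∑ R : Fin n → Option Bool, (∏ v, wt p (R v)) *
        (if (∀ v ∈ D, (Fin.cons none R : Fin (n + 1) → Option Bool) v ≠ none) ∧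
          Hits (Fin.cons none R : Fin (n + 1) → Option Bool) A then (1 : ℝ) else 0) := by
        refine Finset.sum_nonneg (fun R _ => ?_)
        refine mul_nonneg (prod_nonneg' hp0 hp1 R) ?_
        split_ifs
        · exact zero_le_one
        · exact le_rfl
      have hsub : (a0 + a1) ^ lam ≤ a0 ^ lam + a1 ^ lam := by
        rcases le_total a1 a0 with h | h
        · exact (h1 p lam a0 a1 hp0 hp1 hlam ha1' h).2.1
        · have := (h1 p lam a1 a0 hp0 hp1 hlam ha0' h).2.1
          rw [add_comm a0 a1, add_comm (a0 ^ lam)]; exact this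
      have e3 : p ^ D.card * (1 - p) ^ (n + 1 - D.card) = p * c := by
        rw [e1, e2, hc, pow_succ]; ring
      rw [e3, hAr]
      have j0 := mul_le_mul_of_nonneg_left i0 hp0.le
      have j1 := mul_le_mul_of_nonneg_left i1 hp0.le
      have j2 := mul_nonneg h12p hS
      have j3 := mul_le_mul_of_nonneg_left hsub (mul_nonneg hp0.le hc0)
      nlinarith [j0, j1, j2, j3]
    · rw [if_neg h0] at hcD
      have e2 : D.card = (tl D).card := by omega
      have e1 : n + 1 - D.card = n - (tl D).card + 1 := by omega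
      have e3 : p ^ D.card * (1 - p) ^ (n + 1 - D.card) = c * (1 - p) := by
        rw [e1, e2, hc, pow_succ]; ring
      rw [e3, hAr]
      have hS : ∀ b : Bool, PP n p (tl D) (sl A b) ≤ ∑ R : Fin n → Option Bool,
        (∏ v, wt p (R v)) *
        (if (∀ v ∈ D, (Fin.cons none R : Fin (n + 1) → Option Bool) v ≠ none) ∧
          Hits (Fin.cons none R : Fin (n + 1) → Option Bool) A then (1 : ℝ) else 0) := by
        intro b
        refine Finset.sum_le_sum (fun R _ => ?_)
        refine mul_le_mul_of_nonneg_left ?_ (prod_nonneg' hp0 hp1 R)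
        by_cases hh : (∀ v ∈ tl D, R v ≠ none) ∧ Hits R (sl A b)
        · have hh2 : (∀ v ∈ D, (Fin.cons none R : Fin (n + 1) → Option Bool) v ≠ none) ∧
              Hits (Fin.cons none R : Fin (n + 1) → Option Bool) A :=
            ⟨cond_none D h0 R hh.1, hits_none A b R hh.2⟩
          rw [if_pos hh, if_pos hh2]
        · rw [if_neg hh]
          split_ifs
          · exact zero_le_one
          · exact le_rfl
      have j0 := mul_le_mul_of_nonneg_left i0 hp0.le
      have j1 := mul_le_mul_of_nonneg_left i1 hp0.le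
      rcases le_total a1 a0 with h | h
      · have k1 := (h1 p lam a0 a1 hp0 hp1 hlam ha1' h).1
        have k2 := mul_le_mul_of_nonneg_left ((i0).trans (hS false)) h12p
        have k3 := mul_le_mul_of_nonneg_left k1 hc0
        nlinarith [j0, j1, k2, k3]
      · have k1 := (h1 p lam a1 a0 hp0 hp1 hlam ha0' h).1
        have k2 := mul_le_mul_of_nonneg_left ((i1).trans (hS true)) h12p
        have k3 := mul_le_mul_of_nonneg_left k1 hc0
        rw [add_comm a0 a1]
        nlinarith [j0, j1, k2, k3]

end Hit

theorem tHit (h1 : S_Pow) : S_Hit := by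
  intro n p lam hp0 hp1 hlam D A
  have := Hit.main h1 p lam hp0 hp1 hlam n D A
  unfold Hit.PP at this
  exact this

end SRBP
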