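import Pool.Agent.Lib.MP_9dcf40_lc.SR.Spec

/-!
# The two-point inequality
-/

namespace SRBP

open Finset

/-- POW. -/
theorem tPow : S_Pow := by
  intro p lam a b hp0 hp hlam hb hba
  have ha : 0 ≤ a := hb.trans hba
  have hlam0 : 0 < lam := by
    by_contra hcon
    have h1 : (1 : ℝ) ≤ (2 : ℝ) ^ (-lam) :=
      Real.one_le_rpow (by norm_num) (by linarith)
    linarith
  have hlam1 : lam ≤ 1 := by
    by_contra hcon
    have h1 : (2 : ℝ) ^ (-lam) < (2 : ℝ) ^ (-1 : ℝ) :=
      Real.rpow_lt_rpow_of_exponent_lt (by norm_num) (by linarith)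
    rw [Real.rpow_neg_one] at h1
    linarith
  refine ⟨?_, Real.rpow_add_le_add_rpow ha hb hlam0.le hlam1, hlam0, hlam1⟩
  have hq : 1 ≤ 1 / lam := by rw [le_div_iff₀ hlam0]; linarith
  have hq0 : 1 / lam ≠ 0 := by positivity
  set A := a ^ lam with hA
  set B := b ^ lam with hB
  have hB0 : 0 ≤ B := Real.rpow_nonneg hb _
  have hAB : B ≤ A := Real.rpow_le_rpow hb hba hlam0.le
  have hAq : A ^ (1 / lam) = a := by
    rw [hA, ← Real.rpow_mul ha, mul_one_div_cancel hlam0.ne', Real.rpow_one]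
  have hBq : B ^ (1 / lam) = b := by
    rw [hB, ← Real.rpow_mul hb, mul_one_div_cancel hlam0.ne', Real.rpow_one]
  have hM := Real.Lp_add_le (univ : Finset (Fin 2)) ![A - B, 0] ![B, B] hq
  simp only [Fin.sum_univ_two, Matrix.cons_val_zero, Matrix.cons_val_one, sub_add_cancel,
    zero_add, abs_zero, abs_of_nonneg hB0, abs_of_nonneg (hB0.trans hAB),
    abs_of_nonneg (sub_nonneg.2 hAB), Real.zero_rpow hq0, add_zero, one_div_one_div] at hM
  have e1 : ((A - B) ^ (1 / lam)) ^ lam = A - B := by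
    rw [← Real.rpow_mul (sub_nonneg.2 hAB), one_div_mul_cancel hlam0.ne', Real.rpow_one]
  have e2 : (B ^ (1 / lam) + B ^ (1 / lam)) ^ lam = 2 ^ lam * B := by
    rw [hBq, ← two_mul, Real.mul_rpow (by norm_num) hb]
  rw [e1, e2, hAq, hBq] at hM
  have h2 : (1 - p) * 2 ^ lam = 1 := by
    rw [hlam, ← Real.rpow_add (by norm_num), neg_add_cancel, Real.rpow_zero]
  calc (1 - p) * (a + b) ^ lam ≤ (1 - p) * (A - B + 2 ^ lam * B) :=
        mul_le_mul_of_nonneg_left hM (by linarith)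
    _ = (1 - p) * (A - B) + ((1 - p) * 2 ^ lam) * B := by ring
    _ = (1 - p) * A + p * B := by rw [h2]; ring

end SRBP
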