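import Pool.Agent.Lib.MP_9dcf40_lc.SR.Model

/-!
# Nondeterministic semantic branching programs (MP_9dcf40_lc): definitions for the proof
-/

namespace SRBP

open Finset

/-- The variables tested at least twice. -/
def rep {ι : Type} [Fintype ι] [DecidableEq ι] (l : List (ι × Bool)) : Finset ι :=
  univ.filter (fun i => 2 ≤ (l.map Prod.fst).count i)

/-- Semantic `(1,+s)` program: on every accepting path which is consistent with some input at most
`s` variables are tested more than once (inconsistent paths are not restricted). -/
def Semantic {ι : Type} [Fintype ι] [DecidableEq ι] (P : NBP ι) (s : ℕ) : Prop :=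
  ∀ v l x, P.acc v → Walk P P.start l v → Consistent x l → (rep l).card ≤ s

/-- Existential `(1,+s)` program: every accepted input has an accepting path on which at most `s`
variables are tested more than once (no condition on the other paths). Weaker than `Semantic`. -/
def Weak {ι : Type} [Fintype ι] [DecidableEq ι] (P : NBP ι) (s : ℕ) : Prop :=
  ∀ x, Accepts P x → ∃ v l, P.acc v ∧ Walk P P.start l v ∧ Consistent x l ∧ (rep l).card ≤ s

/-- Every consistent accepting path tests every variable. -/
def AllT {ι : Type} (P : NBP ι) : Prop :=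
  ∀ v l x, P.acc v → Walk P P.start l v → Consistent x l → ∀ i, i ∈ l.map Prod.fst

/-- `l` tests every variable exactly once. -/
def Once {ι : Type} [DecidableEq ι] (l : List (ι × Bool)) : Prop :=
  ∀ i, (l.map Prod.fst).count i = 1

/-! ## The combinatorial core -/

/-- The part of `x` in the segments `J`. -/
def part {n k : ℕ} (own : (Fin n → Bool) → Fin n → Fin k) (J : Finset (Fin k)) (x : Fin n → Bool) :
    Fin n → Option Bool := fun v => if own x v ∈ J then some (x v) else none

/-- `F` is a set of inputs, `own x v` the segment in which the variable `v` is read on `x`;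
each segment has `ℓ` variables; if the hybrid of `x` (segments `J`) and `y` (other segments) is
consistent, it reads at most `s` variables twice. -/
def Good (n k ℓ s : ℕ) (F : Finset (Fin n → Bool)) (own : (Fin n → Bool) → Fin n → Fin k) : Prop :=
  (∀ x ∈ F, ∀ j, (univ.filter (fun v => own x v = j)).card = ℓ) ∧
  (∀ x ∈ F, ∀ y ∈ F, ∀ J : Finset (Fin k), (∀ v, own x v ∈ J → own y v ∉ J → x v = y v) →
    (univ.filter (fun v => own x v ∈ J ∧ own y v ∉ J)).card ≤ s)

/-- Size of the fibre of `f` through `x` in `F`. -/
noncomputable def fib {α β : Type} (F : Finset α) (f : α → β) (x : α) : ℕ := by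
  classical exact (F.filter (fun y => f y = f x)).card

/-- Entropy (natural logarithm) of `f` under the uniform distribution on `F`. -/
noncomputable def ent {α β : Type} (F : Finset α) (f : α → β) : ℝ :=
  (∑ x ∈ F, Real.log ((F.card : ℝ) / fib F f x)) / F.card

/-- Number of sets with at most `s` elements. -/
def ball (n s : ℕ) : ℕ := ((univ : Finset (Finset (Fin n))).filter (fun S => S.card ≤ s)).card

/-- Number of `y ∈ F` with the same `Y`-prefix (coordinates `< v`) as `x`. -/
noncomputable def preN {n : ℕ} {α : Type} (F : Finset α) (Y : α → Fin n → Option Bool)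
    (v : ℕ) (x : α) : ℕ := by
  classical exact (F.filter (fun y => ∀ u : Fin n, (u : ℕ) < v → Y y u = Y x u)).card

/-- Conditional probability, given the prefix of `x`, that the coordinate `v` is not `none`. -/
noncomputable def aa {n : ℕ} {α : Type} (F : Finset α) (Y : α → Fin n → Option Bool)
    (v : Fin n) (x : α) : ℝ := by
  classical exact ((F.filter (fun y => (∀ u : Fin n, (u : ℕ) < v → Y y u = Y x u) ∧
    Y y v ≠ none)).card : ℝ) / preN F Y v x

/-- Weight of a status: `none` = both letters are allowed, `some b` = only `b` is allowed. -/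
def wt (p : ℝ) : Option Bool → ℝ
  | none => 1 - 2 * p
  | some _ => p

/-- The subcube `R` meets `A`. -/
def Hits {n : ℕ} (R : Fin n → Option Bool) (A : Finset (Fin n → Bool)) : Prop :=
  ∃ a ∈ A, ∀ v, R v = none ∨ R v = some (a v)

/-! ## The function -/

/-- Coefficients of the quartic polynomials: sets of at most four variables. -/
abbrev Coef (n : ℕ) : Type := {S : Finset (Fin n) // S.card ≤ 4}

/-- Value of the quartic polynomial with coefficients `c` at `y` (in `F_2`). -/
def quartic {n : ℕ} (c : Coef n → Bool) (y : Fin n → Bool) : ZMod 2 :=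
  ∑ S : Coef n, (if c S then 1 else 0) * ∏ i ∈ S.1, (if y i then 1 else 0)

/-- `f_c (y) = 1` iff the quartic polynomial `c` is `1` at `y` and `y` has an even number of ones. -/
def fq {n : ℕ} (c : Coef n → Bool) (y : Fin n → Bool) : Prop :=
  quartic c y = 1 ∧ ∑ i, (if y i then (1 : ZMod 2) else 0) = 0

/-- The function `f_n` of the variables `c` and `y`. -/
def fn (n : ℕ) (z : Coef n ⊕ Fin n → Bool) : Prop :=
  fq (fun S => z (Sum.inl S)) (fun i => z (Sum.inr i))

/-- `a` on `U`, `b` outside. -/
def glue {n : ℕ} (U : Finset (Fin n)) (a b : Fin n → Bool) : Fin n → Bool :=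
  fun v => if v ∈ U then a v else b v

/-- `f` is not constantly true on a rectangle with sides `≥ t`, for any partition of the variables. -/
def NoRect {n : ℕ} (f : (Fin n → Bool) → Prop) (t : ℕ) : Prop :=
  ∀ (U : Finset (Fin n)) (A B : Finset (Fin n → Bool)), t ≤ A.card → t ≤ B.card →
    (∀ a ∈ A, ∀ a' ∈ A, ∀ v, v ∉ U → a v = a' v) → (∀ b ∈ B, ∀ b' ∈ B, ∀ v ∈ U, b v = b' v) →
    ∃ a ∈ A, ∃ b ∈ B, ¬ f (glue U a b)

end SRBP
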