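import Pool.Agent.Lib.MP_9dcf40_lc.SR.Spec

/-!
# SR, block B: `Bal` (the logarithm of the number of small sets)
-/

namespace SRBP

open Finset

private theorem ball_mul_le (n s : ℕ) (z : ℝ) (h0 : 0 < z) (h1 : z ≤ 1) :
    (ball n s : ℝ) * z ^ s ≤ (1 + z) ^ n := by
  have hs : ∑ S : Finset (Fin n), z ^ S.card = (1 + z) ^ n := by
    have h := Fintype.sum_pow_mul_eq_add_pow (Fin n) z (1 : ℝ)
    simp only [one_pow, mul_one, Fintype.card_fin] at h
    rw [h, add_comm]
  rw [← hs]
  calc (ball n s : ℝ) * z ^ s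
      = ∑ S ∈ (univ : Finset (Finset (Fin n))).filter (fun S => S.card ≤ s), z ^ s := by
        rw [Finset.sum_const, nsmul_eq_mul]
        rfl
    _ ≤ ∑ S ∈ (univ : Finset (Finset (Fin n))).filter (fun S => S.card ≤ s), z ^ S.card := by
        refine Finset.sum_le_sum fun S hS => ?_
        exact pow_le_pow_of_le_one h0.le h1 (Finset.mem_filter.1 hS).2
    _ ≤ ∑ S : Finset (Fin n), z ^ S.card := by
        refine Finset.sum_le_sum_of_subset_of_nonneg (Finset.filter_subset _ _) ?_
        intro S _ _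
        positivity

private theorem ball_pos (n s : ℕ) : 0 < ball n s := by
  unfold ball
  apply Finset.card_pos.2
  exact ⟨∅, by simp⟩

theorem tBal : S_Bal := by
  intro ε hε
  obtain ⟨z, hz0, hz1, hz2⟩ : ∃ z : ℝ, 0 < z ∧ z ≤ 1 / 2 ∧ 2 * z ≤ ε := by
    refine ⟨min (ε / 2) (1 / 2), by positivity, min_le_right _ _, ?_⟩
    have := min_le_left (ε / 2) (1 / 2)
    linarith
  have hlog : Real.log z < 0 := Real.log_neg hz0 (by linarith)
  refine ⟨z / (-Real.log z), div_pos hz0 (by linarith), fun n s hs => ?_⟩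
  have hb : (0 : ℝ) < ball n s := by exact_mod_cast ball_pos n s
  have h1 := ball_mul_le n s z hz0 (by linarith)
  have h2 : Real.log ((ball n s : ℝ) * z ^ s) ≤ Real.log ((1 + z) ^ n) :=
    Real.log_le_log (by positivity) h1
  rw [Real.log_mul hb.ne' (by positivity), Real.log_pow, Real.log_pow] at h2
  have h3 : Real.log (1 + z) ≤ z := by
    have := Real.log_le_sub_one_of_pos (x := 1 + z) (by linarith)
    linarith
  have h4 : (s : ℝ) * (-Real.log z) ≤ z * n := by
    have h5 : (s : ℝ) * (-Real.log z) ≤ z / (-Real.log z) * n * (-Real.log z) := by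
      have : 0 < -Real.log z := by linarith
      gcongr
    have h6 : z / (-Real.log z) * n * (-Real.log z) = z * n := by
      have h9 : -Real.log z ≠ 0 := by linarith
      rw [mul_right_comm, div_mul_cancel₀ _ h9]
    linarith
  have h7 : (n : ℝ) * Real.log (1 + z) ≤ n * z := by gcongr
  have h8 : 2 * z * n ≤ ε * n := by gcongr
  nlinarith

end SRBP
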