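import Pool.Agent.Lib.MP_9dcf40_lc.SR.Spec

/-! CHN: chain rule lower bound of the mutual information (helper98). -/

set_option autoImplicit false

namespace SRBP

open Finset

namespace ChnAux

/-- Same prefix of length `v`. -/
def pr {n : ℕ} {α : Type} (Y : α → Fin n → Option Bool) (v : ℕ) (x y : α) : Prop :=
  ∀ u : Fin n, (u : ℕ) < v → Y y u = Y x u

theorem pr_refl {n : ℕ} {α : Type} (Y : α → Fin n → Option Bool) (v : ℕ) (x : α) : pr Y v x x :=
  fun _ _ => rfl

theorem pr_symm {n : ℕ} {α : Type} {Y : α → Fin n → Option Bool} {v : ℕ} {x y : α}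
    (h : pr Y v x y) : pr Y v y x := fun u hu => (h u hu).symm

theorem pr_trans {n : ℕ} {α : Type} {Y : α → Fin n → Option Bool} {v : ℕ} {x y z : α}
    (h : pr Y v x y) (h' : pr Y v y z) : pr Y v x z := fun u hu => (h' u hu).trans (h u hu)

theorem pr_succ {n : ℕ} {α : Type} (Y : α → Fin n → Option Bool) (v : Fin n) (x y : α) :
    pr Y (v + 1) x y ↔ pr Y v x y ∧ Y y v = Y x v := by
  constructor
  · intro h
    exact ⟨fun u hu => h u (by omega), h v (by omega)⟩
  · rintro ⟨h, h'⟩ u hu
    by_cases hv : (u : ℕ) < v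
    · exact h u hv
    · have : u = v := Fin.ext (by omega)
      rw [this]
      exact h'

open scoped Classical in
theorem preN_def {n : ℕ} {α : Type} (F : Finset α) (Y : α → Fin n → Option Bool) (v : ℕ) (x : α) :
    preN F Y v x = (F.filter (pr Y v x)).card := by
  unfold preN pr
  congr

open scoped Classical in
theorem aa_def {n : ℕ} {α : Type} (F : Finset α) (Y : α → Fin n → Option Bool) (v : Fin n) (x : α) :
    aa F Y v x = (((F.filter (pr Y v x)).filter (fun y => Y y v ≠ none)).card : ℝ) /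
      ((F.filter (pr Y v x)).card : ℝ) := by
  rw [Finset.filter_filter, ← preN_def]
  unfold aa pr
  congr

open scoped Classical in
theorem fib_def {α β : Type} (F : Finset α) (f : α → β) (x : α) :
    fib F f x = (F.filter (fun y => f y = f x)).card := by
  unfold fib
  congr

open scoped Classical in
theorem avg {α : Type} (F : Finset α) (r : α → α → Prop) (hr : ∀ x, r x x)
    (hs : ∀ x y, r x y → r y x) (ht : ∀ x y z, r x y → r y z → r x z) (φ ψ : α → ℝ)
    (hφ : ∀ x ∈ F, ∀ y ∈ F, r x y → φ x = φ y) :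
    ∑ x ∈ F, φ x * ((∑ y ∈ F.filter (r x), ψ y) / (F.filter (r x)).card) =
      ∑ x ∈ F, φ x * ψ x := by
  have hc : ∀ x ∈ F, ∀ y ∈ F, r x y → F.filter (r x) = F.filter (r y) := by
    intro x _ y _ h
    ext z
    simp only [mem_filter]
    exact ⟨fun hz => ⟨hz.1, ht _ _ _ (hs _ _ h) hz.2⟩, fun hz => ⟨hz.1, ht _ _ _ h hz.2⟩⟩
  have h0 : ∀ x ∈ F, ((F.filter (r x)).card : ℝ) ≠ 0 := by
    intro x hx
    exact_mod_cast (Finset.card_pos.2 ⟨x, mem_filter.2 ⟨hx, hr x⟩⟩).ne'
  have h1 : ∀ x ∈ F, φ x * ((∑ y ∈ F.filter (r x), ψ y) / (F.filter (r x)).card) =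
      ∑ y ∈ F, if r x y then φ y * ψ y / (F.filter (r y)).card else 0 := by
    intro x hx
    rw [← sum_filter, sum_div, mul_sum]
    refine sum_congr rfl fun y hy => ?_
    obtain ⟨hy, hxy⟩ := mem_filter.1 hy
    rw [hc x hx y hy hxy, hφ x hx y hy hxy, mul_div_assoc]
  rw [sum_congr rfl h1, sum_comm]
  refine sum_congr rfl fun y hy => ?_
  have h2 : ∑ x ∈ F, (if r x y then φ y * ψ y / (F.filter (r y)).card else 0) =
      ∑ x ∈ F.filter (r y), φ y * ψ y / (F.filter (r y)).card := by
    rw [sum_filter]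
    refine sum_congr rfl fun x _ => ?_
    by_cases h : r x y
    · rw [if_pos h, if_pos (hs _ _ h)]
    · rw [if_neg h, if_neg (fun h' => h (hs _ _ h'))]
  rw [h2, sum_const, nsmul_eq_mul]
  have h3 := h0 y hy
  field_simp

open scoped Classical in
theorem fibsum {α : Type} (S : Finset α) (f : α → Option Bool) (W : Option Bool → ℝ)
    (hW : ∀ c, 0 ≤ W c) :
    ∑ y ∈ S, W (f y) / ((S.filter (fun z => f z = f y)).card : ℝ) ≤ ∑ c, W c := by
  have h := Finset.sum_comp (s := S) (fun c => W c / ((S.filter (fun z => f z = c)).card : ℝ)) f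
  rw [h]
  calc ∑ b ∈ S.image f, (S.filter (fun a => f a = b)).card •
        (W b / ((S.filter (fun z => f z = b)).card : ℝ)) = ∑ b ∈ S.image f, W b := by
        refine sum_congr rfl fun b hb => ?_
        obtain ⟨y, hy, rfl⟩ := mem_image.1 hb
        have hy' : y ∈ S.filter (fun z => f z = f y) := mem_filter.2 ⟨hy, rfl⟩
        have h1 : ((S.filter (fun z => f z = f y)).card : ℝ) ≠ 0 :=
          Nat.cast_ne_zero.2 (Finset.card_pos.2 ⟨y, hy'⟩).ne'
        rw [nsmul_eq_mul]
        field_simp
    _ ≤ ∑ c, W c := Finset.sum_le_univ_sum_of_nonneg hW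

open scoped Classical in
theorem filter_congr_pr {n : ℕ} {α : Type} (F : Finset α) (Y : α → Fin n → Option Bool) (v : ℕ)
    {x y : α} (h : pr Y v x y) : F.filter (pr Y v x) = F.filter (pr Y v y) := by
  ext z
  simp only [mem_filter]
  exact ⟨fun hz => ⟨hz.1, pr_trans (pr_symm h) hz.2⟩, fun hz => ⟨hz.1, pr_trans h hz.2⟩⟩

open scoped Classical in
theorem filter_succ {n : ℕ} {α : Type} (F : Finset α) (Y : α → Fin n → Option Bool) (v : Fin n)
    (x : α) : F.filter (pr Y (v + 1) x) =
      (F.filter (pr Y v x)).filter (fun y => Y y v = Y x v) := by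
  rw [filter_filter]
  exact filter_congr fun y _ => pr_succ Y v x y

open scoped Classical in
theorem card_pos' {n : ℕ} {α : Type} (F : Finset α) (Y : α → Fin n → Option Bool) (v : ℕ)
    {x : α} (hx : x ∈ F) : 0 < ((F.filter (pr Y v x)).card : ℝ) := by
  exact_mod_cast Finset.card_pos.2 ⟨x, mem_filter.2 ⟨hx, pr_refl Y v x⟩⟩

theorem cms (c s m : ℝ) (h : m ≠ 0) : c * m * (s / m) = c * s := by field_simp

/-- Same prefix of length `v` and same `Z`. -/
def pz {n : ℕ} {α β : Type} (Y : α → Fin n → Option Bool) (Z : α → β) (v : ℕ) (x y : α) : Prop :=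
  pr Y v x y ∧ Z y = Z x

theorem pz_symm {n : ℕ} {α β : Type} {Y : α → Fin n → Option Bool} {Z : α → β} {v : ℕ} {x y : α}
    (h : pz Y Z v x y) : pz Y Z v y x := ⟨pr_symm h.1, h.2.symm⟩

theorem pz_trans {n : ℕ} {α β : Type} {Y : α → Fin n → Option Bool} {Z : α → β} {v : ℕ}
    {x y z : α} (h : pz Y Z v x y) (h' : pz Y Z v y z) : pz Y Z v x z :=
  ⟨pr_trans h.1 h'.1, h'.2.trans h.2⟩

open scoped Classical in
theorem filter_succ_z {n : ℕ} {α β : Type} (F : Finset α) (Y : α → Fin n → Option Bool)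
    (Z : α → β) (v : Fin n) (x : α) : F.filter (pz Y Z (v + 1) x) =
      (F.filter (pz Y Z v x)).filter (fun y => Y y v = Y x v) := by
  rw [filter_filter]
  refine filter_congr fun y _ => ?_
  unfold pz
  rw [pr_succ]
  tauto

open scoped Classical in
theorem filter_congr_pz {n : ℕ} {α β : Type} (F : Finset α) (Y : α → Fin n → Option Bool)
    (Z : α → β) (v : ℕ) {x y : α} (h : pz Y Z v x y) :
    F.filter (pz Y Z v x) = F.filter (pz Y Z v y) := by
  ext z
  simp only [mem_filter]
  exact ⟨fun hz => ⟨hz.1, pz_trans (pz_symm h) hz.2⟩, fun hz => ⟨hz.1, pz_trans h hz.2⟩⟩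

open scoped Classical in
/-- Number of the elements with the same prefix and the same `Z`. -/
noncomputable def pzN {n : ℕ} {α β : Type} (F : Finset α) (Y : α → Fin n → Option Bool)
    (Z : α → β) (v : ℕ) (x : α) : ℕ := (F.filter (pz Y Z v x)).card

theorem pzN_pos {n : ℕ} {α β : Type} (F : Finset α) (Y : α → Fin n → Option Bool)
    (Z : α → β) (v : ℕ) {x : α} (hx : x ∈ F) : 0 < (pzN F Y Z v x : ℝ) := by
  classical
  exact Nat.cast_pos.2 (Finset.card_pos.2 ⟨x, mem_filter.2 ⟨hx, pr_refl Y v x, rfl⟩⟩)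

open scoped Classical in
theorem term {n : ℕ} {α β : Type} (F : Finset α) (Y : α → Fin n → Option Bool) (Z : α → β)
    (v : Fin n) :
    ∑ x ∈ F, (if (∀ y ∈ F, Z y = Z x → Y y v = none) then aa F Y v x else 0) ≤
      ∑ x ∈ F, ((Real.log (preN F Y v x) - Real.log (preN F Y (v + 1) x)) -
        (Real.log (pzN F Y Z v x) - Real.log (pzN F Y Z (v + 1) x))) := by
  set a : α → ℝ := aa F Y v with ha
  set N : α → ℝ := fun x => ((F.filter (pr Y v x)).card : ℝ) with hN
  set N' : α → ℝ := fun x => ((F.filter (pr Y (v + 1) x)).card : ℝ) with hN'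
  set M : α → ℝ := fun x => (pzN F Y Z v x : ℝ) with hM
  set M' : α → ℝ := fun x => (pzN F Y Z (v + 1) x : ℝ) with hM'
  set e : α → Prop := fun x => ∀ y ∈ F, Z y = Z x → Y y v = none with he
  have hNpos : ∀ x ∈ F, 0 < N x := fun x hx => card_pos' F Y v hx
  have hN'pos : ∀ x ∈ F, 0 < N' x := fun x hx => card_pos' F Y (v + 1) hx
  have hMpos : ∀ x ∈ F, 0 < M x := fun x hx => pzN_pos F Y Z v hx
  have hM'pos : ∀ x ∈ F, 0 < M' x := fun x hx => pzN_pos F Y Z (v + 1) hx
  have hMcon : ∀ x ∈ F, ∀ y ∈ F, pz Y Z v x y → M x = M y := by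
    intro x _ y _ h
    show ((F.filter (pz Y Z v x)).card : ℝ) = ((F.filter (pz Y Z v y)).card : ℝ)
    rw [filter_congr_pz F Y Z v h]
  have hecon : ∀ x y, pz Y Z v x y → (e x ↔ e y) := by
    intro x y h
    rw [he]
    dsimp only
    rw [h.2]
  have haN : ∀ x ∈ F, a x * N x =
      (((F.filter (pr Y v x)).filter (fun y => Y y v ≠ none)).card : ℝ) := by
    intro x hx
    have h1 := (hNpos x hx).ne'
    rw [ha, aa_def]
    exact div_mul_cancel₀ _ h1
  -- pointwise bound
  have hpt : ∀ x ∈ F, (if e x then a x else 0) +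
      (((if e x then 0 else 1) : ℝ) - ((if e x then 0 else 1) * M x) * ((N' x / N x) / M' x)) ≤
      (Real.log (preN F Y v x) - Real.log (preN F Y (v + 1) x)) -
        (Real.log (pzN F Y Z v x) - Real.log (pzN F Y Z (v + 1) x)) := by
    intro x hx
    have hx1 := hNpos x hx
    have hx2 := hN'pos x hx
    have hx3 := hMpos x hx
    have hx4 := hM'pos x hx
    rw [preN_def, preN_def]
    show _ ≤ (Real.log (N x) - Real.log (N' x)) - (Real.log (M x) - Real.log (M' x))
    by_cases hex : e x
    · have hn : Y x v = none := hex x hx rfl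
      have h3 : (F.filter (pr Y v x)).card =
          ((F.filter (pr Y v x)).filter (fun y => Y y v = Y x v)).card +
          ((F.filter (pr Y v x)).filter (fun y => Y y v ≠ none)).card := by
        rw [hn]
        exact (Finset.card_filter_add_card_filter_not (fun y => Y y v = none)).symm
      have h4 : N x = N' x + a x * N x := by
        rw [haN x hx, hN, hN']
        dsimp only
        rw [filter_succ, h3]
        push_cast
        rfl
      have h5 : 1 - a x = N' x / N x := by
        field_simp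
        linarith
      have h6 : M' x = M x := by
        show ((F.filter (pz Y Z (v + 1) x)).card : ℝ) = ((F.filter (pz Y Z v x)).card : ℝ)
        rw [filter_succ_z, Finset.filter_true_of_mem]
        intro y hy
        obtain ⟨hy1, hy2⟩ := mem_filter.1 hy
        rw [hn]
        exact hex y hy1 hy2.2
      have h7 : 0 < 1 - a x := by
        rw [h5]
        exact div_pos hx2 hx1
      have h8 := Real.log_le_sub_one_of_pos h7
      have h9 : Real.log (1 - a x) = Real.log (N' x) - Real.log (N x) := by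
        rw [h5, Real.log_div hx2.ne' hx1.ne']
      rw [if_pos hex, if_pos hex, h6]
      linarith
    · rw [if_neg hex, if_neg hex]
      have h6 : 0 < M x * (N' x / N x / M' x) := mul_pos hx3 (div_pos (div_pos hx2 hx1) hx4)
      have h7 := Real.log_le_sub_one_of_pos h6
      have h8 : Real.log (M x * (N' x / N x / M' x)) =
          Real.log (M x) + (Real.log (N' x) - Real.log (N x) - Real.log (M' x)) := by
        rw [Real.log_mul hx3.ne' (div_pos (div_pos hx2 hx1) hx4).ne',
          Real.log_div (div_pos hx2 hx1).ne' hx4.ne',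
          Real.log_div hx2.ne' hx1.ne']
      linarith
  refine le_trans ?_ (sum_le_sum hpt)
  rw [sum_add_distrib, sum_sub_distrib]
  have e4 := avg F (pz Y Z v) (fun x => ⟨pr_refl Y v x, rfl⟩) (fun _ _ => pz_symm)
    (fun _ _ _ => pz_trans) (fun x => (if e x then 0 else 1) * M x) (fun x => (N' x / N x) / M' x)
    (fun x hx y hy h => by
      rw [hMcon x hx y hy h, if_congr (hecon x y h) rfl rfl])
  have e5 : ∑ x ∈ F, ((if e x then 0 else 1) * M x) * ((N' x / N x) / M' x) ≤
      ∑ x ∈ F, (if e x then (0 : ℝ) else 1) := by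
    rw [← e4]
    refine sum_le_sum fun x hx => ?_
    have hx1 := hNpos x hx
    have hx3 := hMpos x hx
    have h1 : ∑ y ∈ F.filter (pz Y Z v x), (N' y / N y) / M' y ≤ 1 := by
      have h2 := fibsum (F.filter (pz Y Z v x)) (fun y => Y y v)
        (fun c => (((F.filter (pr Y v x)).filter (fun z => Y z v = c)).card : ℝ) / N x)
        (fun c => by positivity)
      have h3 : ∑ c : Option Bool,
          (((F.filter (pr Y v x)).filter (fun z => Y z v = c)).card : ℝ) / N x = 1 := by
        rw [← sum_div, ← Nat.cast_sum, ← Finset.card_eq_sum_card_fiberwise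
          (f := fun z => Y z v) (fun _ _ => Finset.mem_coe.2 (mem_univ _))]
        exact div_self hx1.ne'
      rw [h3] at h2
      refine le_trans (le_of_eq (sum_congr rfl fun y hy => ?_)) h2
      obtain ⟨hy1, hy2⟩ := mem_filter.1 hy
      show ((F.filter (pr Y (v + 1) y)).card : ℝ) / ((F.filter (pr Y v y)).card : ℝ) /
        ((F.filter (pz Y Z (v + 1) y)).card : ℝ) = _ / ((F.filter (pr Y v x)).card : ℝ) / _
      rw [filter_succ, filter_succ_z, filter_congr_pr F Y v hy2.1, filter_congr_pz F Y Z v hy2]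
    have h5 : (if e x then (0 : ℝ) else 1) * M x * ((∑ y ∈ F.filter (pz Y Z v x),
        (N' y / N y) / M' y) / (F.filter (pz Y Z v x)).card) =
        (if e x then (0 : ℝ) else 1) * (∑ y ∈ F.filter (pz Y Z v x), (N' y / N y) / M' y) := by
      exact cms _ _ _ hx3.ne'
    rw [h5]
    calc (if e x then (0 : ℝ) else 1) * _ ≤ (if e x then (0 : ℝ) else 1) * 1 :=
          mul_le_mul_of_nonneg_left h1 (by split_ifs <;> norm_num)
      _ = _ := mul_one _
  linarith

open scoped Classical in
theorem tele {n : ℕ} {α : Type} (F : Finset α) (Y : α → Fin n → Option Bool) {x : α}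
    (hx : x ∈ F) : Real.log ((F.card : ℝ) / fib F Y x) =
      ∑ v : Fin n, (Real.log (preN F Y v x) - Real.log (preN F Y (v + 1) x)) := by
  rw [Fin.sum_univ_eq_sum_range
    (fun v => Real.log (preN F Y v x) - Real.log (preN F Y (v + 1) x)) n, Finset.sum_range_sub']
  have h0 : preN F Y 0 x = F.card := by
    rw [preN_def]
    refine congrArg Finset.card (Finset.filter_true_of_mem fun y _ u hu => ?_)
    omega
  have h1 : preN F Y n x = fib F Y x := by
    rw [preN_def, fib_def]
    refine congrArg Finset.card ?_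
    ext y
    simp only [mem_filter]
    refine and_congr_right fun _ => ⟨fun h => ?_, fun h u _ => ?_⟩
    · funext u
      exact h u u.2
    · rw [h]
  have h2 : (0 : ℝ) < F.card := by
    exact_mod_cast Finset.card_pos.2 ⟨x, hx⟩
  have h3 : (0 : ℝ) < fib F Y x := by
    rw [← h1, preN_def]
    exact card_pos' F Y n hx
  rw [Real.log_div h2.ne' h3.ne', h0, h1]

open scoped Classical in
theorem tele_z {n : ℕ} {α β : Type} (F : Finset α) (Y : α → Fin n → Option Bool) (Z : α → β)
    {x : α} (hx : x ∈ F) : Real.log ((F.card : ℝ) / fib F (fun x => (Y x, Z x)) x) -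
      Real.log ((F.card : ℝ) / fib F Z x) =
      ∑ v : Fin n, (Real.log (pzN F Y Z v x) - Real.log (pzN F Y Z (v + 1) x)) := by
  rw [Fin.sum_univ_eq_sum_range
    (fun v => Real.log (pzN F Y Z v x) - Real.log (pzN F Y Z (v + 1) x)) n,
    Finset.sum_range_sub']
  have h0 : pzN F Y Z 0 x = fib F Z x := by
    rw [fib_def]
    unfold pzN
    refine congrArg Finset.card ?_
    ext y
    simp only [mem_filter]
    refine and_congr_right fun _ => ⟨fun h => h.2, fun h => ⟨fun u hu => ?_, h⟩⟩
    omega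
  have h1 : pzN F Y Z n x = fib F (fun x => (Y x, Z x)) x := by
    rw [fib_def]
    unfold pzN
    refine congrArg Finset.card ?_
    ext y
    simp only [mem_filter, Prod.mk.injEq]
    refine and_congr_right fun _ => ⟨fun h => ⟨?_, h.2⟩, fun h => ⟨fun u _ => ?_, h.2⟩⟩
    · funext u
      exact h.1 u u.2
    · rw [h.1]
  have h2 : (0 : ℝ) < F.card := by
    exact_mod_cast Finset.card_pos.2 ⟨x, hx⟩
  have h3 : (0 : ℝ) < fib F Z x := by
    rw [← h0]
    exact pzN_pos F Y Z 0 hx
  have h4 : (0 : ℝ) < fib F (fun x => (Y x, Z x)) x := by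
    rw [← h1]
    exact pzN_pos F Y Z n hx
  rw [Real.log_div h2.ne' h3.ne', Real.log_div h2.ne' h4.ne', h0, h1]
  ring

end ChnAux

open ChnAux

theorem tChn : S_Chn := by
  classical
  intro α β n F Y Z E hF hE
  have h1 : ent F Y + ent F Z - ent F (fun x => (Y x, Z x)) =
      (∑ x ∈ F, ∑ v : Fin n, ((Real.log (preN F Y v x) - Real.log (preN F Y (v + 1) x)) -
        (Real.log (pzN F Y Z v x) - Real.log (pzN F Y Z (v + 1) x)))) / F.card := by
    unfold ent
    rw [← add_div, ← sub_div, ← sum_add_distrib, ← sum_sub_distrib]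
    refine congrArg (· / (F.card : ℝ)) (sum_congr rfl fun x hx => ?_)
    rw [sum_sub_distrib, ← tele F Y hx, ← tele_z F Y Z hx]
    ring
  rw [h1]
  refine div_le_div_of_nonneg_right ?_ (Nat.cast_nonneg _)
  rw [sum_comm, sum_comm (s := F)]
  refine sum_le_sum fun v _ => le_trans (sum_le_sum fun x hx => ?_) (term F Y Z v)
  have h2 : 0 ≤ aa F Y v x := by
    rw [aa_def]
    positivity
  by_cases h3 : E x v
  · rw [if_pos h3, if_pos (hE x hx v h3)]
  · rw [if_neg h3]
    split_ifs
    · exact h2
    · exact le_refl _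

end SRBP
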