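import Pool.Agent.Lib.MP_9dcf40_lc.SR.Spec

/-!
# Counting bound (`S_Cnt`)
-/

namespace SRBP

open Finset

namespace CntP

theorem good_mono {n k ℓ s : ℕ} {F F' : Finset (Fin n → Bool)}
    {own : (Fin n → Bool) → Fin n → Fin k} (h : Good n k ℓ s F own) (hs : F' ⊆ F) :
    Good n k ℓ s F' own :=
  ⟨fun x hx j => h.1 x (hs hx) j, fun x hx y hy J hc => h.2 x (hs hx) y (hs hy) J hc⟩

theorem fib_mono {α β : Type} {F F' : Finset α} (f : α → β) (x : α) (hs : F' ⊆ F) :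
    fib F' f x ≤ fib F f x := by
  classical
  unfold fib
  exact Finset.card_le_card (Finset.filter_subset_filter _ hs)

theorem fib_pos {α β : Type} {F : Finset α} (f : α → β) {x : α} (hx : x ∈ F) :
    1 ≤ fib F f x := by
  classical
  unfold fib
  exact Finset.card_pos.mpr ⟨x, by simp [hx]⟩

end CntP

open CntP

theorem tCnt (h1 : S_Bol) : S_Cnt := by
  intro n k ℓ s F F' own hG hs p hp0 hp1 J t ht hfib
  have hq : 0 < 1 - p := by linarith
  set lam : ℝ := -Real.logb 2 (1 - p) with hlam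
  have hpow : 1 - p = (2 : ℝ) ^ (-lam) := by
    rw [hlam, neg_neg, Real.rpow_logb (by norm_num) (by norm_num) hq]
  have hl0 : 0 ≤ lam := by
    rw [hlam]
    have : Real.logb 2 (1 - p) ≤ 0 := by
      apply Real.logb_nonpos (by norm_num) hq.le (by linarith)
    linarith
  have hl1 : lam ≤ 1 := by
    rw [hlam]
    have : -1 ≤ Real.logb 2 (1 - p) := by
      rw [Real.le_logb_iff_rpow_le (by norm_num) hq]
      rw [Real.rpow_neg_one]
      linarith
    linarith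
  have hB := h1 n k ℓ s F' own (good_mono hG hs) p lam hp0 hp1 hpow J
  have htr : (1 : ℝ) ≤ t := by exact_mod_cast ht
  have htp : (0 : ℝ) < t := by linarith
  have hsum : (F'.card : ℝ) * (t : ℝ)⁻¹ ≤
      ∑ x ∈ F', (fib F' (part own J) x : ℝ) ^ (lam - 1) := by
    rw [← nsmul_eq_mul]
    apply Finset.card_nsmul_le_sum
    intro x hx
    have hf1 : 1 ≤ fib F' (part own J) x := fib_pos _ hx
    have hf2 : fib F' (part own J) x ≤ t := le_trans (fib_mono _ _ hs) (hfib x hx)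
    have hf1r : (1 : ℝ) ≤ fib F' (part own J) x := by exact_mod_cast hf1
    have hf2r : (fib F' (part own J) x : ℝ) ≤ t := by exact_mod_cast hf2
    calc (t : ℝ)⁻¹ = (t : ℝ) ^ (-1 : ℝ) := by rw [Real.rpow_neg_one]
      _ ≤ (t : ℝ) ^ (lam - 1) := Real.rpow_le_rpow_of_exponent_le htr (by linarith)
      _ ≤ (fib F' (part own J) x : ℝ) ^ (lam - 1) :=
        Real.rpow_le_rpow_of_nonpos (by linarith) hf2r (by linarith)
  have hc : 0 ≤ p ^ (J.card * ℓ) * (1 - p) ^ (n - J.card * ℓ) := by positivity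
  have h2 : p ^ (J.card * ℓ) * (1 - p) ^ (n - J.card * ℓ) * ((F'.card : ℝ) * (t : ℝ)⁻¹) ≤
      (ball n s : ℝ) ^ 2 := le_trans (mul_le_mul_of_nonneg_left hsum hc) hB
  have h3 := mul_le_mul_of_nonneg_left h2 htp.le
  have h4 : (t : ℝ) * (p ^ (J.card * ℓ) * (1 - p) ^ (n - J.card * ℓ) *
      ((F'.card : ℝ) * (t : ℝ)⁻¹)) =
      p ^ (J.card * ℓ) * (1 - p) ^ (n - J.card * ℓ) * (F'.card : ℝ) := by
    have h5 : (t : ℝ) * (t : ℝ)⁻¹ = 1 := mul_inv_cancel₀ htp.ne'
    generalize p ^ (J.card * ℓ) * (1 - p) ^ (n - J.card * ℓ) = A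
    calc (t : ℝ) * (A * ((F'.card : ℝ) * (t : ℝ)⁻¹)) = A * F'.card * ((t : ℝ) * (t : ℝ)⁻¹) := by ring
      _ = A * F'.card := by rw [h5, mul_one]
  rw [h4] at h3
  exact h3

end SRBP
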