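import Pool.Agent.Lib.MP_9dcf40_lc.SR.Spec

/-!
# SR, block B: `Cor` (the structure theorem)
-/

namespace SRBP

open Finset

private theorem cor_theta : (1 : ℝ) < 2 ^ 253 * ((126 / 253) ^ 126 * (1 - 126 / 253) ^ 127) := by
  norm_num

private theorem cor_fib_mono {α β : Type} {F F' : Finset α} (h : F' ⊆ F) (f : α → β) (x : α) :
    fib F' f x ≤ fib F f x := by
  unfold fib
  refine Finset.card_le_card fun y hy => ?_
  simp only [Finset.mem_filter] at hy ⊢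
  exact ⟨h hy.1, hy.2⟩

private theorem cor_good {n k ℓ s : ℕ} {F F' : Finset (Fin n → Bool)}
    {own : (Fin n → Bool) → Fin n → Fin k} (hG : Good n k ℓ s F own) (h : F' ⊆ F) :
    Good n k ℓ s F' own :=
  ⟨fun x hx => hG.1 x (h hx), fun x hx y hy => hG.2 x (h hx) y (h hy)⟩

private theorem ball_pos' (n s : ℕ) : 0 < ball n s := by
  unfold ball
  apply Finset.card_pos.2
  exact ⟨∅, by simp⟩

/-- One exceptional set is small. -/
private theorem cor_one (h1 : S_Cnt) (ℓ s t : ℕ) (F : Finset (Fin (253 * ℓ) → Bool))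
    (own : (Fin (253 * ℓ) → Bool) → Fin (253 * ℓ) → Fin 253) (hG : Good (253 * ℓ) 253 ℓ s F own)
    (ht : 1 ≤ t) (T : Finset (Fin 253)) (hT : T.card = 126) (F' : Finset (Fin (253 * ℓ) → Bool))
    (hF' : F' ⊆ F) (hle : ∀ x ∈ F', fib F (part own T) x ≤ t) :
    ((2 : ℝ) ^ 253 * ((126 / 253) ^ 126 * (1 - 126 / 253) ^ 127)) ^ ℓ * (F'.card : ℝ) ≤
      2 ^ (253 * ℓ) * (t * (ball (253 * ℓ) s : ℝ) ^ 2) := by
  have h := h1 (253 * ℓ) 253 ℓ s F F' own hG hF' (126 / 253) (by norm_num) (by norm_num) T t ht hle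
  rw [hT] at h
  have e : 253 * ℓ - 126 * ℓ = 127 * ℓ := by omega
  rw [e, pow_mul, pow_mul] at h
  have e2 : ((2 : ℝ) ^ 253 * ((126 / 253) ^ 126 * (1 - 126 / 253) ^ 127)) ^ ℓ * (F'.card : ℝ) =
      2 ^ (253 * ℓ) * (((126 / 253 : ℝ) ^ 126) ^ ℓ * ((1 - 126 / 253 : ℝ) ^ 127) ^ ℓ *
        (F'.card : ℝ)) := by
    rw [mul_pow, mul_pow, pow_mul (2 : ℝ) 253 ℓ]
    ring
  rw [e2]
  exact mul_le_mul_of_nonneg_left h (by positivity)

theorem tCor (h1 : S_Cnt) (h2 : S_Mut) (h3 : S_Bal) : S_Cor := by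
  obtain ⟨θ, hθdef⟩ : ∃ θ : ℝ, θ = 2 ^ 253 * ((126 / 253) ^ 126 * (1 - 126 / 253) ^ 127) :=
    ⟨_, rfl⟩
  have hθ1 : 1 < θ := hθdef ▸ cor_theta
  have hθ0 : 0 < θ := by linarith
  obtain ⟨τ, hτ0, hτ1, hτθ⟩ : ∃ τ : ℝ, 0 < τ ∧ τ ≤ 1 ∧ Real.exp τ ≤ θ := by
    refine ⟨min (Real.log θ) 1, lt_min (Real.log_pos hθ1) one_pos, min_le_right _ _, ?_⟩
    calc Real.exp (min (Real.log θ) 1) ≤ Real.exp (Real.log θ) :=
          Real.exp_le_exp.2 (min_le_left _ _)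
      _ = θ := Real.exp_log hθ0
  obtain ⟨cB, hcB, hB⟩ := h3 (τ / (253 * 10 ^ 4)) (by positivity)
  refine ⟨min cB (τ / 10 ^ 4), lt_min hcB (by positivity), max ⌈600 / τ⌉₊ 4000, ?_⟩
  intro ℓ hℓ s t F own hG hs ht hF
  have hc1 := min_le_left cB (τ / 10 ^ 4)
  have hc2 := min_le_right cB (τ / 10 ^ 4)
  have hc0 : 0 < min cB (τ / 10 ^ 4) := lt_min hcB (by positivity)
  obtain ⟨c, hc⟩ : ∃ c : ℝ, c = min cB (τ / 10 ^ 4) := ⟨_, rfl⟩
  rw [← hc] at hc0 hc1 hc2 hs ht hF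
  have hℓ1 : (4000 : ℝ) ≤ ℓ := by
    have : 4000 ≤ ℓ := le_trans (le_max_right _ _) hℓ
    exact_mod_cast this
  have hℓ2 : 600 ≤ τ * ℓ := by
    have : ⌈600 / τ⌉₊ ≤ ℓ := le_trans (le_max_left _ _) hℓ
    have h4 := Nat.ceil_le.1 this
    rw [div_le_iff₀ hτ0] at h4
    linarith
  have hℓ0 : (0 : ℝ) < ℓ := by linarith
  have hFpos : (0 : ℝ) < F.card := lt_of_lt_of_le (by positivity) hF
  have hFne : F.Nonempty := Finset.card_pos.1 (by exact_mod_cast hFpos)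
  -- the logarithm of the ball
  have hball0 : (0 : ℝ) < ball (253 * ℓ) s := by exact_mod_cast ball_pos' _ _
  have hlb : Real.log (ball (253 * ℓ) s) ≤ τ * ℓ / 10 ^ 4 := by
    have h4 := hB (253 * ℓ) s (by
      push_cast
      have h5 : c * ℓ ≤ cB * ℓ := by gcongr
      have h6 : (0 : ℝ) ≤ cB * ℓ := by positivity
      nlinarith)
    push_cast at h4
    calc _ ≤ τ / (253 * 10 ^ 4) * (253 * (ℓ : ℝ)) := h4
      _ = τ * ℓ / 10 ^ 4 := by ring
  rcases Nat.eq_zero_or_pos t with ht0 | ht0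
  · obtain ⟨x, hx⟩ := hFne
    exact ⟨∅, x, hx, by omega, by omega⟩
  by_contra hcon
  push Not at hcon
  have htR : (1 : ℝ) ≤ t := by exact_mod_cast ht0
  have hlt : Real.log t ≤ c * ℓ := by
    have := Real.log_le_log (by linarith) ht
    rwa [Real.log_exp] at this
  have hcl : c * ℓ ≤ τ * ℓ / 10 ^ 4 := by
    calc c * ℓ ≤ τ / 10 ^ 4 * ℓ := by gcongr
      _ = τ * ℓ / 10 ^ 4 := by ring
  -- the exceptional sets
  obtain ⟨FT, hFTm⟩ : ∃ FT : Finset (Fin 253) → Finset (Fin (253 * ℓ) → Bool), ∀ T x,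
      x ∈ FT T ↔ x ∈ F ∧ t ≤ fib F (part own Tᶜ) x :=
    ⟨fun T => F.filter (fun x => t ≤ fib F (part own Tᶜ) x), fun T x => Finset.mem_filter⟩
  obtain ⟨S, hSm, hSc⟩ : ∃ S : Finset (Finset (Fin 253)), (∀ T, T ∈ S ↔ T.card = 126) ∧
      S.card ≤ 2 ^ 253 := by
    refine ⟨univ.filter (fun T => T.card = 126), fun T => by simp, ?_⟩
    refine (Finset.card_filter_le _ _).trans ?_
    rw [Finset.card_univ, Fintype.card_finset, Fintype.card_fin]
  let A : ℝ := t * (ball (253 * ℓ) s : ℝ) ^ 2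
  have hA0 : 0 ≤ A := by positivity
  have hθℓ : 0 < θ ^ ℓ := by positivity
  have hFT : ∀ T ∈ S, ((FT T).card : ℝ) ≤ 2 ^ (253 * ℓ) * A / θ ^ ℓ := by
    intro T hT
    have hTc : T.card = 126 := (hSm T).1 hT
    rw [le_div_iff₀ hθℓ, mul_comm, hθdef]
    refine cor_one h1 ℓ s t F own hG ht0 T hTc (FT T) (fun x hx => ((hFTm T x).1 hx).1) ?_
    intro x hx
    obtain ⟨hxF, hxt⟩ := (hFTm T x).1 hx
    by_contra hlt2
    push Not at hlt2
    exact absurd hxt (not_le.2 (hcon T x hxF hlt2.le))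
  have hUn : ((S.biUnion FT).card : ℝ) ≤ 2 ^ 253 * (2 ^ (253 * ℓ) * A / θ ^ ℓ) := by
    have hS : (S.card : ℝ) ≤ 2 ^ 253 := by exact_mod_cast hSc
    calc ((S.biUnion FT).card : ℝ) ≤ ((∑ T ∈ S, (FT T).card : ℕ) : ℝ) := by
          exact_mod_cast Finset.card_biUnion_le
      _ = ∑ T ∈ S, ((FT T).card : ℝ) := by push_cast; rfl
      _ ≤ ∑ T ∈ S, (2 ^ (253 * ℓ) * A / θ ^ ℓ) := Finset.sum_le_sum hFT
      _ = S.card * (2 ^ (253 * ℓ) * A / θ ^ ℓ) := by rw [Finset.sum_const, nsmul_eq_mul]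
      _ ≤ 2 ^ 253 * (2 ^ (253 * ℓ) * A / θ ^ ℓ) := by gcongr
  -- the numbers
  have hnum : 2 ^ 254 * A * Real.exp (c * ℓ) ≤ θ ^ ℓ := by
    have e1 : (ball (253 * ℓ) s : ℝ) ≤ Real.exp (τ * ℓ / 10 ^ 4) := by
      rw [← Real.log_le_iff_le_exp hball0]
      exact hlb
    have e2 : (t : ℝ) ≤ Real.exp (τ * ℓ / 10 ^ 4) :=
      ht.trans (Real.exp_le_exp.2 hcl)
    have e3 : Real.exp (c * ℓ) ≤ Real.exp (τ * ℓ / 10 ^ 4) := Real.exp_le_exp.2 hcl
    have e4 : (2 : ℝ) ^ 254 ≤ Real.exp 254 := by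
      have h5 : (2 : ℝ) ^ 254 ≤ Real.exp 1 ^ 254 := by
        have := Real.exp_one_gt_d9.le
        gcongr
        linarith
      rw [← Real.exp_nat_mul] at h5
      norm_num at h5 ⊢
      exact h5
    calc 2 ^ 254 * A * Real.exp (c * ℓ)
        ≤ Real.exp 254 * (Real.exp (τ * ℓ / 10 ^ 4) * Real.exp (τ * ℓ / 10 ^ 4) ^ 2) *
          Real.exp (τ * ℓ / 10 ^ 4) := by
          show 2 ^ 254 * (t * (ball (253 * ℓ) s : ℝ) ^ 2) * Real.exp (c * ℓ) ≤ _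
          gcongr
      _ = Real.exp (254 + 4 * (τ * ℓ / 10 ^ 4)) := by
          rw [show 254 + 4 * (τ * ℓ / 10 ^ 4) = 254 + (τ * ℓ / 10 ^ 4 + (τ * ℓ / 10 ^ 4 +
            τ * ℓ / 10 ^ 4)) + τ * ℓ / 10 ^ 4 by ring]
          rw [Real.exp_add, Real.exp_add, Real.exp_add, Real.exp_add]
          ring
      _ ≤ Real.exp (ℓ * τ) := by
          apply Real.exp_le_exp.2
          linarith
      _ = Real.exp τ ^ ℓ := by rw [Real.exp_nat_mul]
      _ ≤ θ ^ ℓ := by gcongr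
  have hhalf : 2 * ((S.biUnion FT).card : ℝ) ≤ F.card := by
    calc 2 * ((S.biUnion FT).card : ℝ) ≤ 2 * (2 ^ 253 * (2 ^ (253 * ℓ) * A / θ ^ ℓ)) := by
          gcongr
      _ = 2 ^ (253 * ℓ) * ((2 ^ 254 * A) / θ ^ ℓ) := by ring
      _ ≤ 2 ^ (253 * ℓ) * Real.exp (-(c * ℓ)) := by
          have h5 : (2 ^ 254 * A) / θ ^ ℓ ≤ Real.exp (-(c * ℓ)) := by
            rw [div_le_iff₀ hθℓ, Real.exp_neg, inv_mul_eq_div, le_div_iff₀ (Real.exp_pos _)]
            exact hnum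
          gcongr
      _ ≤ F.card := hF
  let F' := F \ S.biUnion FT
  have hF'F : F' ⊆ F := Finset.sdiff_subset
  have hF'c : (F.card : ℝ) / 2 ≤ F'.card := by
    have h5 : F.card ≤ F'.card + (S.biUnion FT).card := by
      have := Finset.le_card_sdiff (S.biUnion FT) F
      change F.card ≤ (F \ S.biUnion FT).card + _
      omega
    have h6 : (F.card : ℝ) ≤ F'.card + (S.biUnion FT).card := by exact_mod_cast h5
    linarith
  have hF'0 : (0 : ℝ) < F'.card := by linarith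
  have hF'ne : F'.Nonempty := Finset.card_pos.1 (by exact_mod_cast hF'0)
  have hmut := h2 ℓ s t F' own (cor_good hG hF'F) hF'ne ht0 (by
    intro J hJ x hx
    refine (cor_fib_mono hF'F _ x).trans ?_
    obtain ⟨hxF, hxn⟩ := Finset.mem_sdiff.1 hx
    by_contra hlt2
    push Not at hlt2
    have hJc : Jᶜ.card = 126 := by rw [Finset.card_compl, hJ, Fintype.card_fin]
    have hx1 : x ∈ FT Jᶜ := by
      rw [hFTm, compl_compl]
      exact ⟨hxF, hlt2.le⟩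
    exact hxn (Finset.subset_biUnion_of_mem FT ((hSm _).2 hJc) hx1))
  have hD : 253 * (ℓ : ℝ) * Real.log 2 - Real.log F'.card ≤ c * ℓ + Real.log 2 := by
    have h5 : (2 : ℝ) ^ (253 * ℓ) * Real.exp (-(c * ℓ)) / 2 ≤ F'.card := by
      refine le_trans ?_ hF'c
      gcongr
    have h6 := Real.log_le_log (by positivity) h5
    rw [Real.log_div (by positivity) (by norm_num), Real.log_mul (by positivity)
      (Real.exp_pos _).ne', Real.log_exp, Real.log_pow] at h6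
    push_cast at h6
    linarith
  have hl2 : Real.log 2 ≤ 1 := by
    have := Real.log_two_lt_d9
    linarith
  have hτℓ : τ * ℓ ≤ ℓ := by
    calc τ * ℓ ≤ 1 * ℓ := by gcongr
      _ = ℓ := one_mul _
  linarith

end SRBP
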