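import Pool.Agent.Lib.MP_9dcf40_lc.SR.Spec

/-! # SR, module Den: density by flipping the constant coefficient (helper24) -/

namespace SRBP

open Finset

namespace DenAux

variable {n : ℕ}

/-- The index of the constant coefficient. -/
def e0 (n : ℕ) : Coef n := ⟨∅, by simp⟩

/-- Flip the constant coefficient. -/
def flp (c : Coef n → Bool) : Coef n → Bool := fun S => if S = e0 n then !(c S) else c S

theorem flp_flp (c : Coef n → Bool) : flp (flp c) = c := by
  funext S
  unfold flp
  by_cases h : S = e0 n
  · simp [h]
  · simp [h]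

theorem quartic_flp (c : Coef n → Bool) (y : Fin n → Bool) :
    quartic (flp c) y = quartic c y + 1 := by
  unfold quartic
  rw [← add_sum_erase univ _ (mem_univ (e0 n)), ← add_sum_erase univ
    (fun S : Coef n => (if c S then (1 : ZMod 2) else 0) * ∏ i ∈ S.1, (if y i then 1 else 0))
    (mem_univ (e0 n))]
  have h1 : ∑ S ∈ univ.erase (e0 n), (if flp c S then (1 : ZMod 2) else 0) *
      ∏ i ∈ S.1, (if y i then 1 else 0) = ∑ S ∈ univ.erase (e0 n),
        (if c S then (1 : ZMod 2) else 0) * ∏ i ∈ S.1, (if y i then 1 else 0) := by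
    refine sum_congr rfl fun S hS => ?_
    have h2 : flp c S = c S := if_neg (ne_of_mem_erase hS)
    rw [h2]
  have h3 : flp c (e0 n) = !(c (e0 n)) := if_pos rfl
  have h4 : ∏ i ∈ (e0 n).1, (if y i then (1 : ZMod 2) else 0) = 1 := by
    show ∏ i ∈ (∅ : Finset (Fin n)), _ = _
    rw [prod_empty]
  rw [h1, h3, h4]
  have h5 : (if (!(c (e0 n))) = true then (1 : ZMod 2) else 0) =
      (if c (e0 n) = true then (1 : ZMod 2) else 0) + 1 := by
    cases c (e0 n)
    · simp
    · simp only [Bool.not_true, if_true]
      decide
  rw [h5]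
  ring

/-- Flip one coordinate. -/
def fy (i : Fin n) (y : Fin n → Bool) : Fin n → Bool := fun j => if j = i then !(y j) else y j

theorem fy_fy (i : Fin n) (y : Fin n → Bool) : fy i (fy i y) = y := by
  funext j
  unfold fy
  by_cases h : j = i
  · simp [h]
  · simp [h]

theorem sum_fy (i : Fin n) (y : Fin n → Bool) :
    ∑ j, (if fy i y j then (1 : ZMod 2) else 0) = ∑ j, (if y j then (1 : ZMod 2) else 0) + 1 := by
  rw [← add_sum_erase univ _ (mem_univ i), ← add_sum_erase univ
    (fun j : Fin n => (if y j then (1 : ZMod 2) else 0)) (mem_univ i)]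
  have h1 : ∑ j ∈ univ.erase i, (if fy i y j then (1 : ZMod 2) else 0) =
      ∑ j ∈ univ.erase i, (if y j then (1 : ZMod 2) else 0) := by
    refine sum_congr rfl fun j hj => ?_
    have h2 : fy i y j = y j := if_neg (ne_of_mem_erase hj)
    rw [h2]
  have h3 : fy i y i = !(y i) := if_pos rfl
  rw [h1, h3]
  have h5 : (if (!(y i)) = true then (1 : ZMod 2) else 0) =
      (if y i = true then (1 : ZMod 2) else 0) + 1 := by
    cases y i
    · simp
    · simp only [Bool.not_true, if_true]
      decide
  rw [h5]
  ring

/-- At least half of the vectors are even. -/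
theorem even_card (hn : 2 ≤ n) : 2 * 2 ^ (n - 2) ≤
    ((univ : Finset (Fin n → Bool)).filter (fun y =>
      ∑ i, (if y i then (1 : ZMod 2) else 0) = 0)).card := by
  have i0 : Fin n := ⟨0, by omega⟩
  have h1 : ((univ : Finset (Fin n → Bool)).filter (fun y =>
      ¬ (∑ i, (if y i then (1 : ZMod 2) else 0) = 0))).card ≤
      ((univ : Finset (Fin n → Bool)).filter (fun y =>
      ∑ i, (if y i then (1 : ZMod 2) else 0) = 0)).card := by
    refine card_le_card_of_injOn (fy i0) ?_ ?_
    · intro y hy
      have hy' := (mem_filter.1 hy).2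
      refine mem_filter.2 ⟨mem_univ _, ?_⟩
      rw [sum_fy]
      revert hy'
      generalize (∑ i, (if y i then (1 : ZMod 2) else 0)) = z
      revert z
      decide
    · intro y _ y' _ h
      rw [← fy_fy i0 y, ← fy_fy i0 y', h]
  have h2 := card_filter_add_card_filter_not (s := (univ : Finset (Fin n → Bool)))
    (fun y => ∑ i, (if y i then (1 : ZMod 2) else 0) = 0)
  have h3 : (univ : Finset (Fin n → Bool)).card = 2 ^ n := by
    rw [card_univ, Fintype.card_fun, Fintype.card_fin, Fintype.card_bool]
  obtain ⟨m, rfl⟩ : ∃ m, n = m + 2 := ⟨n - 2, by omega⟩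
  rw [h3, pow_add] at h2
  rw [Nat.add_sub_cancel]
  omega

end DenAux

open DenAux

open scoped Classical in
theorem tDen : S_Den := by
  intro n hn
  -- one of `c`, `flp c` is good
  have key : ∀ c : Coef n → Bool,
      2 ^ (n - 2) ≤ ((univ : Finset (Fin n → Bool)).filter (fun y => fq c y)).card ∨
      2 ^ (n - 2) ≤ ((univ : Finset (Fin n → Bool)).filter (fun y => fq (flp c) y)).card := by
    intro c
    have h1 := even_card hn
    have h2 : ((univ : Finset (Fin n → Bool)).filter (fun y =>
        ∑ i, (if y i then (1 : ZMod 2) else 0) = 0)).card ≤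
        ((univ : Finset (Fin n → Bool)).filter (fun y => fq c y)).card +
        ((univ : Finset (Fin n → Bool)).filter (fun y => fq (flp c) y)).card := by
      refine le_trans (card_le_card ?_) (card_union_le _ _)
      intro y hy
      have hy' := (mem_filter.1 hy).2
      rw [mem_union, mem_filter, mem_filter]
      by_cases hq : quartic c y = 1
      · exact Or.inl ⟨mem_univ _, hq, hy'⟩
      · refine Or.inr ⟨mem_univ _, ?_, hy'⟩
        rw [quartic_flp]
        revert hq
        generalize quartic c y = z
        revert z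
        decide
    by_contra hcon
    rw [not_or, not_le, not_le] at hcon
    omega
  have h3 : ((univ : Finset (Coef n → Bool)).filter (fun c =>
      ¬ (2 ^ (n - 2) ≤ ((univ : Finset (Fin n → Bool)).filter (fun y => fq c y)).card))).card ≤
      ((univ : Finset (Coef n → Bool)).filter (fun c =>
      2 ^ (n - 2) ≤ ((univ : Finset (Fin n → Bool)).filter (fun y => fq c y)).card)).card := by
    refine card_le_card_of_injOn flp ?_ ?_
    · intro c hc
      have hc' := (mem_filter.1 hc).2
      exact mem_filter.2 ⟨mem_univ _, (key c).resolve_left hc'⟩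
    · intro y _ y' _ h
      rw [← flp_flp y, ← flp_flp y', h]
  have h4 := card_filter_add_card_filter_not (s := (univ : Finset (Coef n → Bool)))
    (fun c => 2 ^ (n - 2) ≤ ((univ : Finset (Fin n → Bool)).filter (fun y => fq c y)).card)
  have h5 : (univ : Finset (Coef n → Bool)).card = 2 ^ Fintype.card (Coef n) := by
    rw [card_univ, Fintype.card_fun, Fintype.card_bool]
  rw [h5] at h4
  omega

end SRBP
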