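import Pool.Agent.Lib.MP_9dcf40_lc.SR.Spec

/-! ENL: chain rule upper bound of the entropy (helper98). -/

set_option autoImplicit false

namespace SRBP

open Finset

namespace EnlAux

/-- Same prefix of length `v`. -/
def pr {n : ℕ} {α : Type} (Y : α → Fin n → Option Bool) (v : ℕ) (x y : α) : Prop :=
  ∀ u : Fin n, (u : ℕ) < v → Y y u = Y x u

theorem pr_refl {n : ℕ} {α : Type} (Y : α → Fin n → Option Bool) (v : ℕ) (x : α) : pr Y v x x :=
  fun _ _ => rfl

theorem pr_symm {n : ℕ} {α : Type} {Y : α → Fin n → Option Bool} {v : ℕ} {x y : α}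
    (h : pr Y v x y) : pr Y v y x := fun u hu => (h u hu).symm

theorem pr_trans {n : ℕ} {α : Type} {Y : α → Fin n → Option Bool} {v : ℕ} {x y z : α}
    (h : pr Y v x y) (h' : pr Y v y z) : pr Y v x z := fun u hu => (h' u hu).trans (h u hu)

theorem pr_succ {n : ℕ} {α : Type} (Y : α → Fin n → Option Bool) (v : Fin n) (x y : α) :
    pr Y (v + 1) x y ↔ pr Y v x y ∧ Y y v = Y x v := by
  constructor
  · intro h
    exact ⟨fun u hu => h u (by omega), h v (by omega)⟩
  · rintro ⟨h, h'⟩ u hu
    by_cases hv : (u : ℕ) < v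
    · exact h u hv
    · have : u = v := Fin.ext (by omega)
      rw [this]
      exact h'

open scoped Classical in
theorem preN_def {n : ℕ} {α : Type} (F : Finset α) (Y : α → Fin n → Option Bool) (v : ℕ) (x : α) :
    preN F Y v x = (F.filter (pr Y v x)).card := by
  unfold preN pr
  congr

open scoped Classical in
theorem aa_def {n : ℕ} {α : Type} (F : Finset α) (Y : α → Fin n → Option Bool) (v : Fin n) (x : α) :
    aa F Y v x = (((F.filter (pr Y v x)).filter (fun y => Y y v ≠ none)).card : ℝ) /
      ((F.filter (pr Y v x)).card : ℝ) := by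
  rw [Finset.filter_filter, ← preN_def]
  unfold aa pr
  congr

open scoped Classical in
theorem fib_def {α β : Type} (F : Finset α) (f : α → β) (x : α) :
    fib F f x = (F.filter (fun y => f y = f x)).card := by
  unfold fib
  congr

open scoped Classical in
theorem avg {α : Type} (F : Finset α) (r : α → α → Prop) (hr : ∀ x, r x x)
    (hs : ∀ x y, r x y → r y x) (ht : ∀ x y z, r x y → r y z → r x z) (φ ψ : α → ℝ)
    (hφ : ∀ x ∈ F, ∀ y ∈ F, r x y → φ x = φ y) :
    ∑ x ∈ F, φ x * ((∑ y ∈ F.filter (r x), ψ y) / (F.filter (r x)).card) =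
      ∑ x ∈ F, φ x * ψ x := by
  have hc : ∀ x ∈ F, ∀ y ∈ F, r x y → F.filter (r x) = F.filter (r y) := by
    intro x _ y _ h
    ext z
    simp only [mem_filter]
    exact ⟨fun hz => ⟨hz.1, ht _ _ _ (hs _ _ h) hz.2⟩, fun hz => ⟨hz.1, ht _ _ _ h hz.2⟩⟩
  have h0 : ∀ x ∈ F, ((F.filter (r x)).card : ℝ) ≠ 0 := by
    intro x hx
    exact_mod_cast (Finset.card_pos.2 ⟨x, mem_filter.2 ⟨hx, hr x⟩⟩).ne'
  have h1 : ∀ x ∈ F, φ x * ((∑ y ∈ F.filter (r x), ψ y) / (F.filter (r x)).card) =
      ∑ y ∈ F, if r x y then φ y * ψ y / (F.filter (r y)).card else 0 := by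
    intro x hx
    rw [← sum_filter, sum_div, mul_sum]
    refine sum_congr rfl fun y hy => ?_
    obtain ⟨hy, hxy⟩ := mem_filter.1 hy
    rw [hc x hx y hy hxy, hφ x hx y hy hxy, mul_div_assoc]
  rw [sum_congr rfl h1, sum_comm]
  refine sum_congr rfl fun y hy => ?_
  have h2 : ∑ x ∈ F, (if r x y then φ y * ψ y / (F.filter (r y)).card else 0) =
      ∑ x ∈ F.filter (r y), φ y * ψ y / (F.filter (r y)).card := by
    rw [sum_filter]
    refine sum_congr rfl fun x _ => ?_
    by_cases h : r x y
    · rw [if_pos h, if_pos (hs _ _ h)]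
    · rw [if_neg h, if_neg (fun h' => h (hs _ _ h'))]
  rw [h2, sum_const, nsmul_eq_mul]
  have h3 := h0 y hy
  field_simp

open scoped Classical in
theorem fibsum {α : Type} (S : Finset α) (f : α → Option Bool) (W : Option Bool → ℝ)
    (hW : ∀ c, 0 ≤ W c) :
    ∑ y ∈ S, W (f y) / ((S.filter (fun z => f z = f y)).card : ℝ) ≤ ∑ c, W c := by
  have h := Finset.sum_comp (s := S) (fun c => W c / ((S.filter (fun z => f z = c)).card : ℝ)) f
  rw [h]
  calc ∑ b ∈ S.image f, (S.filter (fun a => f a = b)).card •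
        (W b / ((S.filter (fun z => f z = b)).card : ℝ)) = ∑ b ∈ S.image f, W b := by
        refine sum_congr rfl fun b hb => ?_
        obtain ⟨y, hy, rfl⟩ := mem_image.1 hb
        have hy' : y ∈ S.filter (fun z => f z = f y) := mem_filter.2 ⟨hy, rfl⟩
        have h1 : ((S.filter (fun z => f z = f y)).card : ℝ) ≠ 0 :=
          Nat.cast_ne_zero.2 (Finset.card_pos.2 ⟨y, hy'⟩).ne'
        rw [nsmul_eq_mul]
        field_simp
    _ ≤ ∑ c, W c := Finset.sum_le_univ_sum_of_nonneg hW

open scoped Classical in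
theorem filter_congr_pr {n : ℕ} {α : Type} (F : Finset α) (Y : α → Fin n → Option Bool) (v : ℕ)
    {x y : α} (h : pr Y v x y) : F.filter (pr Y v x) = F.filter (pr Y v y) := by
  ext z
  simp only [mem_filter]
  exact ⟨fun hz => ⟨hz.1, pr_trans (pr_symm h) hz.2⟩, fun hz => ⟨hz.1, pr_trans h hz.2⟩⟩

open scoped Classical in
theorem filter_succ {n : ℕ} {α : Type} (F : Finset α) (Y : α → Fin n → Option Bool) (v : Fin n)
    (x : α) : F.filter (pr Y (v + 1) x) =
      (F.filter (pr Y v x)).filter (fun y => Y y v = Y x v) := by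
  rw [filter_filter]
  exact filter_congr fun y _ => pr_succ Y v x y

open scoped Classical in
theorem card_pos' {n : ℕ} {α : Type} (F : Finset α) (Y : α → Fin n → Option Bool) (v : ℕ)
    {x : α} (hx : x ∈ F) : 0 < ((F.filter (pr Y v x)).card : ℝ) := by
  exact_mod_cast Finset.card_pos.2 ⟨x, mem_filter.2 ⟨hx, pr_refl Y v x⟩⟩

open scoped Classical in
theorem aa_sum {n : ℕ} {α : Type} (F : Finset α) (Y : α → Fin n → Option Bool) (v : Fin n)
    (φ : α → ℝ) (hφ : ∀ x ∈ F, ∀ y ∈ F, pr Y v x y → φ x = φ y) :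
    ∑ x ∈ F, φ x * (if Y x v ≠ none then 1 else 0) = ∑ x ∈ F, φ x * aa F Y v x := by
  rw [← avg F (pr Y v) (pr_refl Y v) (fun _ _ => pr_symm) (fun _ _ _ => pr_trans) φ _ hφ]
  refine sum_congr rfl fun x _ => ?_
  rw [aa_def, ← sum_filter, sum_const, nsmul_eq_mul, mul_one]

open scoped Classical in
theorem term {n : ℕ} {α : Type} (F : Finset α) (Y : α → Fin n → Option Bool) (v : Fin n) :
    ∑ x ∈ F, (Real.log (preN F Y v x) - Real.log (preN F Y (v + 1) x)) ≤
      ∑ x ∈ F, (Real.binEntropy (aa F Y v x) + aa F Y v x * Real.log 2) := by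
  set a : α → ℝ := aa F Y v with ha
  have hacon : ∀ x ∈ F, ∀ y ∈ F, pr Y v x y → a x = a y := by
    intro x _ y _ h
    rw [ha, aa_def, aa_def, filter_congr_pr F Y v h]
  set N : α → ℝ := fun x => ((F.filter (pr Y v x)).card : ℝ) with hN
  set N' : α → ℝ := fun x => ((F.filter (pr Y (v + 1) x)).card : ℝ) with hN'
  have hNpos : ∀ x ∈ F, 0 < N x := fun x hx => card_pos' F Y v hx
  have hN'pos : ∀ x ∈ F, 0 < N' x := fun x hx => card_pos' F Y (v + 1) hx
  have hNcon : ∀ x ∈ F, ∀ y ∈ F, pr Y v x y → N x = N y := by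
    intro x _ y _ h
    rw [hN]
    dsimp only
    rw [filter_congr_pr F Y v h]
  have haN : ∀ x ∈ F, a x * N x =
      (((F.filter (pr Y v x)).filter (fun y => Y y v ≠ none)).card : ℝ) := by
    intro x hx
    have h1 := (hNpos x hx).ne'
    rw [ha, aa_def]
    exact div_mul_cancel₀ _ h1
  -- pointwise bound
  have hpt : ∀ x ∈ F, Real.log (preN F Y v x) - Real.log (preN F Y (v + 1) x) ≤
      (-Real.log (1 - a x)) - (-Real.log (1 - a x)) * (if Y x v ≠ none then 1 else 0) +
      (-Real.log (a x) + Real.log 2) * (if Y x v ≠ none then 1 else 0) +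
      ((a x / 2 * N x) * ((if Y x v ≠ none then 1 else 0) / N' x) -
        1 * (if Y x v ≠ none then 1 else 0)) := by
    intro x hx
    have hx1 := hNpos x hx
    have hx2 := hN'pos x hx
    rw [preN_def, preN_def]
    show Real.log (N x) - Real.log (N' x) ≤ _
    by_cases hn : Y x v = none
    · have h3 : (F.filter (pr Y v x)).card =
          ((F.filter (pr Y v x)).filter (fun y => Y y v = Y x v)).card +
          ((F.filter (pr Y v x)).filter (fun y => Y y v ≠ none)).card := by
        rw [hn]
        exact (Finset.card_filter_add_card_filter_not (fun y => Y y v = none)).symm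
      have h4 : N x = N' x + a x * N x := by
        rw [haN x hx, hN, hN']
        dsimp only
        rw [filter_succ, h3]
        push_cast
        rfl
      have h5 : 1 - a x = N' x / N x := by
        field_simp
        linarith
      rw [if_neg (not_not.2 hn), h5, Real.log_div hx2.ne' hx1.ne']
      simp
    · have h3 : 0 < a x := by
        have h4 : N' x ≤ a x * N x := by
          rw [haN x hx, hN']
          dsimp only
          rw [filter_succ]
          refine Nat.cast_le.2 (Finset.card_le_card fun y hy => ?_)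
          obtain ⟨hy1, hy2⟩ := mem_filter.1 hy
          refine mem_filter.2 ⟨hy1, ?_⟩
          rw [hy2]
          exact hn
        by_contra hneg
        have := mul_nonpos_of_nonpos_of_nonneg (not_lt.1 hneg) hx1.le
        linarith
      rw [if_pos hn]
      have h6 : 0 < a x / 2 * N x * (1 / N' x) := by positivity
      have h7 := Real.log_le_sub_one_of_pos h6
      have h8 : Real.log (a x / 2 * N x * (1 / N' x)) =
          Real.log (a x) - Real.log 2 + Real.log (N x) - Real.log (N' x) := by
        rw [Real.log_mul (by positivity) (by positivity), Real.log_mul (by positivity)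
          (by positivity), Real.log_div h3.ne' two_ne_zero, one_div, Real.log_inv]
        ring
      linarith
  refine (sum_le_sum hpt).trans ?_
  have e1 := aa_sum F Y v (fun x => -Real.log (1 - a x)) (fun x hx y hy h => by
    rw [hacon x hx y hy h])
  have e2 := aa_sum F Y v (fun x => -Real.log (a x) + Real.log 2) (fun x hx y hy h => by
    rw [hacon x hx y hy h])
  have e3 := aa_sum F Y v (fun _ => 1) (fun _ _ _ _ _ => rfl)
  have e4 := avg F (pr Y v) (pr_refl Y v) (fun _ _ => pr_symm) (fun _ _ _ => pr_trans)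
    (fun x => a x / 2 * N x) (fun x => (if Y x v ≠ none then 1 else 0) / N' x)
    (fun x hx y hy h => by
      rw [hacon x hx y hy h, hNcon x hx y hy h])
  have e5 : ∑ x ∈ F, (a x / 2 * N x) * ((if Y x v ≠ none then 1 else 0) / N' x) ≤
      ∑ x ∈ F, a x := by
    rw [← e4]
    refine sum_le_sum fun x hx => ?_
    have hx1 := hNpos x hx
    have h1 : ∑ y ∈ F.filter (pr Y v x), (if Y y v ≠ none then (1 : ℝ) else 0) / N' y ≤ 2 := by
      have h2 := fibsum (F.filter (pr Y v x)) (fun y => Y y v)
        (fun c => if c ≠ none then (1 : ℝ) else 0) (fun c => by split_ifs <;> norm_num)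
      have h3 : ∑ c : Option Bool, (if c ≠ none then (1 : ℝ) else 0) = 2 := by
        rw [Fintype.sum_option]
        simp
      rw [h3] at h2
      refine le_trans (le_of_eq (sum_congr rfl fun y hy => ?_)) h2
      obtain ⟨hy1, hy2⟩ := mem_filter.1 hy
      rw [hN']
      dsimp only
      rw [filter_succ, filter_congr_pr F Y v hy2]
    have h4 : 0 ≤ a x := by
      rw [ha, aa_def]
      positivity
    have h5 : a x / 2 * N x * ((∑ y ∈ F.filter (pr Y v x),
        (if Y y v ≠ none then (1 : ℝ) else 0) / N' y) / (F.filter (pr Y v x)).card) =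
        a x / 2 * (∑ y ∈ F.filter (pr Y v x), (if Y y v ≠ none then (1 : ℝ) else 0) / N' y) := by
      show a x / 2 * N x * (_ / N x) = _
      field_simp
    rw [h5]
    calc a x / 2 * _ ≤ a x / 2 * 2 := mul_le_mul_of_nonneg_left h1 (by linarith)
      _ = a x := by ring
  simp only [sum_add_distrib, sum_sub_distrib]
  rw [e1, e2, e3]
  have e6 : ∑ x ∈ F, Real.binEntropy (a x) = ∑ x ∈ F, (-Real.log (1 - a x)) -
      ∑ x ∈ F, (-Real.log (1 - a x)) * aa F Y v x + ∑ x ∈ F, (-Real.log (a x)) * aa F Y v x := by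
    rw [← sum_sub_distrib, ← sum_add_distrib]
    refine sum_congr rfl fun x _ => ?_
    rw [Real.binEntropy, Real.log_inv, Real.log_inv]
    show _ = -Real.log (1 - a x) - -Real.log (1 - a x) * a x + -Real.log (a x) * a x
    ring
  have e7 : ∑ x ∈ F, (-Real.log (a x) + Real.log 2) * aa F Y v x =
      ∑ x ∈ F, (-Real.log (a x)) * aa F Y v x + ∑ x ∈ F, a x * Real.log 2 := by
    rw [← sum_add_distrib]
    refine sum_congr rfl fun x _ => ?_
    show (-Real.log (a x) + Real.log 2) * a x = -Real.log (a x) * a x + a x * Real.log 2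
    ring
  have e8 : ∑ x ∈ F, (1 : ℝ) * aa F Y v x = ∑ x ∈ F, a x :=
    sum_congr rfl fun x _ => one_mul _
  rw [e6, e7, e8]
  linarith

open scoped Classical in
theorem tele {n : ℕ} {α : Type} (F : Finset α) (Y : α → Fin n → Option Bool) {x : α}
    (hx : x ∈ F) : Real.log ((F.card : ℝ) / fib F Y x) =
      ∑ v : Fin n, (Real.log (preN F Y v x) - Real.log (preN F Y (v + 1) x)) := by
  rw [Fin.sum_univ_eq_sum_range
    (fun v => Real.log (preN F Y v x) - Real.log (preN F Y (v + 1) x)) n, Finset.sum_range_sub']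
  have h0 : preN F Y 0 x = F.card := by
    rw [preN_def]
    refine congrArg Finset.card (Finset.filter_true_of_mem fun y _ u hu => ?_)
    omega
  have h1 : preN F Y n x = fib F Y x := by
    rw [preN_def, fib_def]
    refine congrArg Finset.card ?_
    ext y
    simp only [mem_filter]
    refine and_congr_right fun _ => ⟨fun h => ?_, fun h u _ => ?_⟩
    · funext u
      exact h u u.2
    · rw [h]
  have h2 : (0 : ℝ) < F.card := by
    exact_mod_cast Finset.card_pos.2 ⟨x, hx⟩
  have h3 : (0 : ℝ) < fib F Y x := by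
    rw [← h1, preN_def]
    exact card_pos' F Y n hx
  rw [Real.log_div h2.ne' h3.ne', h0, h1]

end EnlAux

open EnlAux

theorem tEnl (_h1 : S_Avg) : S_Enl := by
  intro α n F Y hF
  unfold ent
  refine div_le_div_of_nonneg_right ?_ (Nat.cast_nonneg _)
  rw [sum_congr rfl fun x hx => tele F Y hx, sum_comm, sum_comm (s := F)]
  exact sum_le_sum fun v _ => term F Y v

end SRBP
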