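import Pool.Agent.Lib.MP_9dcf40_lc.SR.Spec

/-!
# Elementary facts on the entropy of functions on a finite set
-/

namespace SRBP

open Finset

namespace EntAux

variable {α β γ : Type}

theorem fib_pos {F : Finset α} {f : α → β} {x : α} (hx : x ∈ F) : 0 < fib F f x := by
  classical
  unfold fib
  refine Finset.card_pos.2 ⟨x, ?_⟩
  rw [Finset.mem_filter]
  exact ⟨hx, rfl⟩

theorem fib_le {F : Finset α} {f : α → β} {g : α → γ} {x : α}
    (h : ∀ y ∈ F, f y = f x → g y = g x) : fib F f x ≤ fib F g x := by
  classical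
  unfold fib
  refine Finset.card_le_card fun y hy => ?_
  rw [Finset.mem_filter] at hy ⊢
  exact ⟨hy.1, h y hy.1 hy.2⟩

open scoped Classical in
theorem fib_sum (F : Finset α) (f : α → β) (x : α) :
    (fib F f x : ℝ) = ∑ y ∈ F, if f y = f x then (1 : ℝ) else 0 := by
  unfold fib
  rw [Finset.card_filter]
  push_cast
  rfl

open scoped Classical in
theorem inner_le (F : Finset α) (f : α → β) (g : α → γ) (y z : α) :
    ∑ x ∈ F, (if f y = f x then (1 : ℝ) else 0) * (if g z = g x then (1 : ℝ) else 0) /
      (fib F (fun x => (f x, g x)) x : ℝ) ≤ 1 := by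
  set S := F.filter (fun x => f y = f x ∧ g z = g x) with hS
  have h1 : ∑ x ∈ F, (if f y = f x then (1 : ℝ) else 0) * (if g z = g x then (1 : ℝ) else 0) /
      (fib F (fun x => (f x, g x)) x : ℝ) = ∑ x ∈ S, 1 / (S.card : ℝ) := by
    rw [hS, Finset.sum_filter]
    refine Finset.sum_congr rfl fun x _ => ?_
    by_cases h1 : f y = f x
    · by_cases h2 : g z = g x
      · rw [if_pos h1, if_pos h2, if_pos ⟨h1, h2⟩, mul_one]
        have hcard : fib F (fun x => (f x, g x)) x =
            (F.filter (fun x => f y = f x ∧ g z = g x)).card := by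
          unfold fib
          apply congrArg Finset.card
          ext w
          simp only [Finset.mem_filter, Prod.mk.injEq, h1, h2]
          constructor
          · rintro ⟨a, b, c⟩
            exact ⟨a, b.symm, c.symm⟩
          · rintro ⟨a, b, c⟩
            exact ⟨a, b.symm, c.symm⟩
        rw [hcard]
      · rw [if_neg h2, if_neg (show ¬(f y = f x ∧ g z = g x) from fun h => h2 h.2)]
        simp
    · rw [if_neg h1, if_neg (show ¬(f y = f x ∧ g z = g x) from fun h => h1 h.1)]
      simp
  rw [h1, Finset.sum_const, nsmul_eq_mul, mul_one_div]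
  exact div_self_le_one _

theorem key (F : Finset α) (f : α → β) (g : α → γ) :
    ∑ x ∈ F, (fib F f x : ℝ) * (fib F g x : ℝ) / (fib F (fun x => (f x, g x)) x : ℝ) ≤
      (F.card : ℝ) * F.card := by
  classical
  have h1 : ∀ x ∈ F, (fib F f x : ℝ) * (fib F g x : ℝ) / (fib F (fun x => (f x, g x)) x : ℝ) =
      ∑ y ∈ F, ∑ z ∈ F, (if f y = f x then (1 : ℝ) else 0) * (if g z = g x then (1 : ℝ) else 0) /
        (fib F (fun x => (f x, g x)) x : ℝ) := by
    intro x _
    rw [fib_sum F f x, fib_sum F g x, Finset.sum_mul_sum, Finset.sum_div]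
    refine Finset.sum_congr rfl fun y _ => ?_
    rw [Finset.sum_div]
  rw [Finset.sum_congr rfl h1, Finset.sum_comm]
  calc ∑ y ∈ F, ∑ x ∈ F, ∑ z ∈ F, (if f y = f x then (1 : ℝ) else 0) *
        (if g z = g x then (1 : ℝ) else 0) / (fib F (fun x => (f x, g x)) x : ℝ)
      = ∑ y ∈ F, ∑ z ∈ F, ∑ x ∈ F, (if f y = f x then (1 : ℝ) else 0) *
        (if g z = g x then (1 : ℝ) else 0) / (fib F (fun x => (f x, g x)) x : ℝ) := by
        refine Finset.sum_congr rfl fun y _ => ?_
        rw [Finset.sum_comm]
    _ ≤ ∑ y ∈ F, ∑ z ∈ F, (1 : ℝ) :=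
        Finset.sum_le_sum fun y _ => Finset.sum_le_sum fun z _ => inner_le F f g y z
    _ = (F.card : ℝ) * F.card := by
        rw [Finset.sum_const, Finset.sum_const, nsmul_eq_mul, nsmul_eq_mul, mul_one]

end EntAux

open EntAux

theorem tEnt : S_Ent := by
  intro α β γ F f g hF
  have hc : (0 : ℝ) < F.card := by exact_mod_cast hF.card_pos
  refine ⟨fun hfg => ?_, ?_, fun t ht hft => ?_⟩
  · unfold ent
    apply div_le_div_of_nonneg_right _ hc.le
    refine Finset.sum_le_sum fun x hx => ?_
    have h1 : (0 : ℝ) < fib F f x := by exact_mod_cast fib_pos hx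
    have h2 : (0 : ℝ) < fib F g x := by exact_mod_cast fib_pos hx
    have h3 : (fib F f x : ℝ) ≤ fib F g x := by
      exact_mod_cast fib_le fun y hy h => hfg y hy x hx h
    exact Real.log_le_log (by positivity) (div_le_div_of_nonneg_left hc.le h1 h3)
  · unfold ent
    rw [← add_div, ← Finset.sum_add_distrib]
    apply div_le_div_of_nonneg_right _ hc.le
    rw [← sub_nonpos, ← Finset.sum_sub_distrib]
    have h1 : ∀ x ∈ F, Real.log ((F.card : ℝ) / fib F (fun x => (f x, g x)) x) -
        (Real.log ((F.card : ℝ) / fib F f x) + Real.log ((F.card : ℝ) / fib F g x)) ≤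
        (fib F f x : ℝ) * (fib F g x : ℝ) / (fib F (fun x => (f x, g x)) x : ℝ) / F.card - 1 := by
      intro x hx
      have p1 : (0 : ℝ) < fib F f x := by exact_mod_cast fib_pos hx
      have p2 : (0 : ℝ) < fib F g x := by exact_mod_cast fib_pos hx
      have p3 : (0 : ℝ) < fib F (fun x => (f x, g x)) x := by exact_mod_cast fib_pos hx
      have e1 : Real.log ((F.card : ℝ) / fib F (fun x => (f x, g x)) x) -
        (Real.log ((F.card : ℝ) / fib F f x) + Real.log ((F.card : ℝ) / fib F g x)) =
        Real.log ((fib F f x : ℝ) * (fib F g x : ℝ) /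
          (fib F (fun x => (f x, g x)) x : ℝ) / F.card) := by
        rw [Real.log_div hc.ne' p3.ne', Real.log_div hc.ne' p1.ne', Real.log_div hc.ne' p2.ne',
          Real.log_div (by positivity) hc.ne', Real.log_div (by positivity) p3.ne',
          Real.log_mul p1.ne' p2.ne']
        ring
      rw [e1]
      exact Real.log_le_sub_one_of_pos (by positivity)
    refine (Finset.sum_le_sum h1).trans ?_
    rw [Finset.sum_sub_distrib, Finset.sum_const, nsmul_eq_mul, mul_one, ← Finset.sum_div,
      sub_nonpos, div_le_iff₀ hc]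
    exact key F f g
  · unfold ent
    rw [le_div_iff₀ hc]
    have ht0 : (0 : ℝ) < t := by exact_mod_cast (by omega : 0 < t)
    calc (Real.log F.card - Real.log t) * F.card = ∑ x ∈ F, (Real.log F.card - Real.log t) := by
          rw [Finset.sum_const, nsmul_eq_mul, mul_comm]
      _ ≤ ∑ x ∈ F, Real.log ((F.card : ℝ) / fib F f x) := by
          refine Finset.sum_le_sum fun x hx => ?_
          have p1 : (0 : ℝ) < fib F f x := by exact_mod_cast fib_pos hx
          have p2 : (fib F f x : ℝ) ≤ t := by exact_mod_cast hft x hx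
          rw [Real.log_div hc.ne' p1.ne']
          have := Real.log_le_log p1 p2
          linarith

end SRBP
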