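import Pool.Agent.Lib.MP_9dcf40_lc.SR.Spec

/-!
# SR, statement `S_Eu2`: the entropy bound for `p = 199/400`
-/

namespace SRBP

open Finset

theorem tEu2 (h1 : S_Eup) : S_Eu2 := by
  intro n k ℓ s F own hG hF J
  have hl2 : 0 < Real.log 2 := Real.log_pos one_lt_two
  obtain ⟨lam, hlam⟩ : ∃ lam : ℝ, lam = -Real.logb 2 (201 / 400) := ⟨_, rfl⟩
  have hp : (1 : ℝ) - 199 / 400 = (2 : ℝ) ^ (-lam) := by
    rw [hlam, neg_neg, Real.rpow_logb (by norm_num) (by norm_num) (by norm_num)]
    norm_num
  have hE := h1 n k ℓ s F own hG hF (199 / 400) lam (by norm_num) (by norm_num) hp J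
  have hlog : (1 - lam) * Real.log 2 = Real.log (201 / 200) := by
    rw [hlam, Real.logb, sub_neg_eq_add, add_mul, div_mul_cancel₀ _ hl2.ne', one_mul,
      ← Real.log_mul (by norm_num) (by norm_num)]
    norm_num
  have hn1 : Real.log (201 / 199) * 127 ≤ Real.log (201 / 200) * 255 := by
    have e1 : Real.log ((201 / 199 : ℝ) ^ 127) ≤ Real.log ((201 / 200 : ℝ) ^ 255) :=
      Real.log_le_log (by positivity) (by norm_num)
    rw [Real.log_pow, Real.log_pow] at e1
    push_cast at e1
    linarith
  have hn2 : Real.log 2 ≤ Real.log (201 / 200) * 140 := by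
    have e1 : Real.log 2 ≤ Real.log ((201 / 200 : ℝ) ^ 140) :=
      Real.log_le_log (by norm_num) (by norm_num)
    rw [Real.log_pow] at e1
    push_cast at e1
    linarith
  have hμ : 1 ≤ 140 * (1 - lam) := by
    rw [← hlog] at hn2
    have e2 : 1 * Real.log 2 ≤ (140 * (1 - lam)) * Real.log 2 := by linarith
    exact le_of_mul_le_mul_right e2 hl2
  have hpos : 0 < 1 - lam := by linarith
  have hlam1 : lam ≤ 1 := by linarith
  have hFc : (0 : ℝ) < F.card := by exact_mod_cast hF.card_pos
  have hD : 0 ≤ n * Real.log 2 - Real.log F.card := by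
    have e1 : (F.card : ℝ) ≤ (2 : ℝ) ^ n := by
      have e2 : F.card ≤ Fintype.card (Fin n → Bool) := Finset.card_le_univ F
      rw [Fintype.card_fun, Fintype.card_bool, Fintype.card_fin] at e2
      exact_mod_cast e2
    have e3 := Real.log_le_log hFc e1
    rw [Real.log_pow] at e3
    linarith
  have hb : 0 ≤ 2 * Real.log (ball n s) := by
    have e1 : 1 ≤ ball n s := by
      unfold ball
      rw [Nat.one_le_iff_ne_zero, ← Nat.pos_iff_ne_zero, Finset.card_pos]
      exact ⟨∅, by simp⟩
    have e2 : (1 : ℝ) ≤ ball n s := by exact_mod_cast e1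
    have := Real.log_nonneg e2
    linarith
  have hx : (1 - 199 / 400 : ℝ) / (199 / 400) = 201 / 199 := by norm_num
  rw [hx] at hE
  have hJ : (0 : ℝ) ≤ J.card * ℓ := by positivity
  have t1 : J.card * ℓ * Real.log (201 / 199) ≤
      (1 - lam) * (255 / 127 * Real.log 2 * (J.card * ℓ)) := by
    have e1 : Real.log (201 / 199) ≤ 255 / 127 * ((1 - lam) * Real.log 2) := by
      rw [hlog]
      linarith
    calc _ ≤ (J.card * ℓ : ℝ) * (255 / 127 * ((1 - lam) * Real.log 2)) :=
          mul_le_mul_of_nonneg_left e1 hJ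
      _ = _ := by ring
  have t2 : lam * (n * Real.log 2 - Real.log F.card) ≤
      (1 - lam) * (140 * (n * Real.log 2 - Real.log F.card)) := by
    have e1 : lam * (n * Real.log 2 - Real.log F.card) ≤
        1 * (n * Real.log 2 - Real.log F.card) := mul_le_mul_of_nonneg_right hlam1 hD
    have e2 : 1 * (n * Real.log 2 - Real.log F.card) ≤
        140 * (1 - lam) * (n * Real.log 2 - Real.log F.card) :=
      mul_le_mul_of_nonneg_right hμ hD
    linarith
  have t3 : 2 * Real.log (ball n s) ≤ (1 - lam) * (140 * (2 * Real.log (ball n s))) := by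
    have e2 : 1 * (2 * Real.log (ball n s)) ≤
        140 * (1 - lam) * (2 * Real.log (ball n s)) :=
      mul_le_mul_of_nonneg_right hμ hb
    linarith
  have hfin : (1 - lam) * ent F (part own J) ≤
      (1 - lam) * (255 / 127 * Real.log 2 * (J.card * ℓ) +
        140 * (n * Real.log 2 - Real.log F.card + 2 * Real.log (ball n s))) := by
    calc _ ≤ _ := hE
      _ ≤ (1 - lam) * (255 / 127 * Real.log 2 * (J.card * ℓ)) +
          (1 - lam) * (140 * (n * Real.log 2 - Real.log F.card)) +
          (1 - lam) * (140 * (2 * Real.log (ball n s))) := add_le_add (add_le_add t1 t2) t3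
      _ = _ := by ring
  exact le_of_mul_le_mul_left hfin hpos

end SRBP
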