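import Pool.Agent.Lib.MP_9dcf40_lc.SR.Spec

/-!
# Entropy bound (`S_Eup`)
-/

namespace SRBP

open Finset

namespace EupP

theorem fib_pos {α β : Type} {F : Finset α} (f : α → β) {x : α} (hx : x ∈ F) :
    1 ≤ fib F f x := by
  classical
  unfold fib
  exact Finset.card_pos.mpr ⟨x, by simp [hx]⟩

theorem ball_pos (n s : ℕ) : 1 ≤ ball n s := by
  unfold ball
  exact Finset.card_pos.mpr ⟨∅, by simp⟩

/-- `|J| ℓ ≤ n` -/
theorem card_le {n k ℓ s : ℕ} {F : Finset (Fin n → Bool)}
    {own : (Fin n → Bool) → Fin n → Fin k} (h : Good n k ℓ s F own) (hF : F.Nonempty)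
    (J : Finset (Fin k)) : J.card * ℓ ≤ n := by
  obtain ⟨x, hx⟩ := hF
  have h1 : ∑ j ∈ J, (univ.filter (fun v => own x v = j)).card = J.card * ℓ := by
    rw [Finset.sum_congr rfl (fun j _ => h.1 x hx j)]
    simp
  have h2 : (J.biUnion (fun j => univ.filter (fun v => own x v = j))).card =
      ∑ j ∈ J, (univ.filter (fun v => own x v = j)).card := by
    apply Finset.card_biUnion
    intro i _ j _ hij
    apply Finset.disjoint_left.mpr
    intro v hv hv'
    simp only [Finset.mem_filter, Finset.mem_univ, true_and] at hv hv'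
    exact hij (hv.symm.trans hv')
  have h3 : (J.biUnion (fun j => univ.filter (fun v => own x v = j))).card ≤ n := by
    have := Finset.card_le_univ (J.biUnion (fun j => univ.filter (fun v => own x v = j)))
    rwa [Fintype.card_fin] at this
  omega

/-- Jensen: `c * mean log g ≤ log (mean g ^ c)`. -/
theorem jensen {α : Type} (F : Finset α) (hF : F.Nonempty) (g : α → ℝ) (hg : ∀ x ∈ F, 0 < g x) :
    (∑ x ∈ F, Real.log (g x)) / F.card ≤ Real.log ((∑ x ∈ F, g x) / F.card) := by
  have hc : (0 : ℝ) < F.card := by exact_mod_cast Finset.card_pos.mpr hF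
  have h := (strictConcaveOn_log_Ioi.concaveOn).le_map_sum (t := F) (w := fun _ => (F.card : ℝ)⁻¹)
    (p := g) (fun _ _ => by positivity) (by rw [Finset.sum_const, nsmul_eq_mul]; field_simp)
    (fun x hx => hg x hx)
  simp only [smul_eq_mul] at h
  rw [← Finset.mul_sum, ← Finset.mul_sum] at h
  rw [div_eq_inv_mul, div_eq_inv_mul]
  exact h

end EupP

open EupP

theorem tEup (h1 : S_Bol) : S_Eup := by
  intro n k ℓ s F own hG hF p lam hp0 hp1 hpow J
  have hq : 0 < 1 - p := by linarith
  have hcard := card_le hG hF J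
  have hc : (0 : ℝ) < F.card := by exact_mod_cast Finset.card_pos.mpr hF
  have hB := h1 n k ℓ s F own hG p lam hp0 hp1 hpow J
  have hb : (0 : ℝ) < ball n s := by exact_mod_cast ball_pos n s
  have hfib : ∀ x ∈ F, (0 : ℝ) < fib F (part own J) x := fun x hx => by
    have := fib_pos (part own J) hx
    exact_mod_cast this
  have hlog : Real.log (1 - p) = -lam * Real.log 2 := by
    rw [hpow, Real.log_rpow (by norm_num)]
  set S : ℝ := ∑ x ∈ F, (fib F (part own J) x : ℝ) ^ (lam - 1) with hS
  have hSpos : 0 < S := Finset.sum_pos (fun x hx => Real.rpow_pos_of_pos (hfib x hx) _) hF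
  -- log of Bol
  have hpa : 0 < p ^ (J.card * ℓ) := by positivity
  have hqb : 0 < (1 - p) ^ (n - J.card * ℓ) := by positivity
  have hL := Real.log_le_log (by positivity) hB
  rw [Real.log_mul (by positivity) hSpos.ne', Real.log_mul hpa.ne' hqb.ne', Real.log_pow,
    Real.log_pow, Real.log_pow, Nat.cast_sub hcard] at hL
  -- Jensen
  have hJ := jensen F hF (fun x => (fib F (part own J) x : ℝ) ^ (lam - 1))
    (fun x hx => Real.rpow_pos_of_pos (hfib x hx) _)
  rw [Real.log_div hSpos.ne' hc.ne'] at hJ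
  have hJ2 : ∑ x ∈ F, Real.log ((fib F (part own J) x : ℝ) ^ (lam - 1)) =
      (lam - 1) * ∑ x ∈ F, Real.log (fib F (part own J) x) := by
    rw [Finset.mul_sum]
    exact Finset.sum_congr rfl (fun x hx => Real.log_rpow (hfib x hx) _)
  rw [hJ2] at hJ
  -- entropy
  have hE : ent F (part own J) =
      Real.log F.card - (∑ x ∈ F, Real.log (fib F (part own J) x)) / F.card := by
    unfold ent
    have : ∑ x ∈ F, Real.log ((F.card : ℝ) / fib F (part own J) x) =
        F.card * Real.log F.card - ∑ x ∈ F, Real.log (fib F (part own J) x) := by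
      rw [Finset.sum_congr rfl (fun x hx => Real.log_div hc.ne' (hfib x hx).ne'),
        Finset.sum_sub_distrib, Finset.sum_const, nsmul_eq_mul]
    rw [this, sub_div, mul_div_assoc, mul_div_cancel₀]
    exact hc.ne'
  rw [hE, Real.log_div hq.ne' hp0.ne', hlog]
  rw [hlog] at hL
  set M : ℝ := (∑ x ∈ F, Real.log (fib F (part own J) x)) / F.card with hM
  have hJ3 : (lam - 1) * M ≤ Real.log S - Real.log F.card := by
    rw [hM, ← mul_div_assoc]
    exact hJ
  push_cast at hL
  nlinarith [hJ3, hL]

end SRBP
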