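import Pool.Agent.Lib.MP_9dcf40_lc.SR.Spec

/-!
# SR, statement `S_Fam`: from walks to `Good` (pigeonhole, hybrids)
-/

namespace SRBP

open Finset

namespace FamAux

theorem once_length {N : ℕ} (l : List (Fin N × Bool)) (h : Once l) : l.length = N := by
  have h1 : (l.map Prod.fst).Nodup := List.nodup_iff_count_le_one.2 fun a => (h a).le
  have h2 : (l.map Prod.fst).toFinset = univ := by
    ext i
    simp only [List.mem_toFinset, mem_univ, iff_true]
    rw [← List.count_pos_iff, h i]
    exact one_pos
  have h3 := List.toFinset_card_of_nodup h1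
  rw [h2, Finset.card_univ, Fintype.card_fin, List.length_map] at h3
  exact h3.symm

/-- The properties of the segments of the walk of `x`. -/
structure Seg {N k : ℕ} (ℓ : ℕ) (x : Fin N → Bool) (seg : Fin k → List (Fin N × Bool)) :
    Prop where
  nod : ∀ i, ((seg i).map Prod.fst).Nodup
  uni : ∀ i j v, v ∈ (seg i).map Prod.fst → v ∈ (seg j).map Prod.fst → i = j
  len : ∀ i, (seg i).length = ℓ
  ex : ∀ v, ∃ i, v ∈ (seg i).map Prod.fst
  con : ∀ i, ∀ p ∈ seg i, x p.1 = p.2

theorem seg_of {N k ℓ : ℕ} (x : Fin N → Bool) (seg : Fin k → List (Fin N × Bool))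
    (hlen : ∀ i, (seg i).length = ℓ) (ho : Once (List.ofFn seg).flatten)
    (hc : Consistent x (List.ofFn seg).flatten) : Seg ℓ x seg := by
  have hm : ((List.ofFn seg).flatten.map Prod.fst) =
      (List.ofFn (fun i => (seg i).map Prod.fst)).flatten := by
    rw [List.map_flatten, List.map_ofFn]
    rfl
  have hn : ((List.ofFn (fun i => (seg i).map Prod.fst)).flatten).Nodup := by
    rw [← hm]
    exact List.nodup_iff_count_le_one.2 fun a => (ho a).le
  rw [List.nodup_flatten, List.pairwise_ofFn] at hn
  obtain ⟨h1, h2⟩ := hn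
  refine ⟨?_, ?_, hlen, ?_, ?_⟩
  · intro i
    exact h1 _ (List.mem_ofFn.2 ⟨i, rfl⟩)
  · intro i j v hi hj
    rcases lt_trichotomy i j with h | h | h
    · exact absurd hj (fun hj => h2 h hi hj)
    · exact h
    · exact absurd hi (fun hi => h2 h hj hi)
  · intro v
    have h3 : v ∈ (List.ofFn seg).flatten.map Prod.fst := by
      rw [← List.count_pos_iff, ho v]
      exact one_pos
    rw [hm, List.mem_flatten] at h3
    obtain ⟨m, hm1, hm2⟩ := h3
    rw [List.mem_ofFn] at hm1
    obtain ⟨i, rfl⟩ := hm1
    exact ⟨i, hm2⟩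
  · intro i p hp
    exact hc p (List.mem_flatten.2 ⟨seg i, List.mem_ofFn.2 ⟨i, rfl⟩, hp⟩)

theorem count_ge {N k : ℕ} (seg : Fin k → List (Fin N × Bool)) (v : Fin N) (i j : Fin k)
    (hij : i ≠ j) (hi : v ∈ (seg i).map Prod.fst) (hj : v ∈ (seg j).map Prod.fst) :
    2 ≤ ((List.ofFn seg).flatten.map Prod.fst).count v := by
  have hm : ((List.ofFn seg).flatten.map Prod.fst) =
      (List.ofFn (fun i => (seg i).map Prod.fst)).flatten := by
    rw [List.map_flatten, List.map_ofFn]
    rfl
  rw [hm, List.count_flatten, List.map_ofFn, List.sum_ofFn]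
  calc 2 = 1 + 1 := rfl
    _ ≤ (List.count v ∘ fun i => (seg i).map Prod.fst) i +
        (List.count v ∘ fun i => (seg i).map Prod.fst) j :=
        add_le_add (List.count_pos_iff.2 hi) (List.count_pos_iff.2 hj)
    _ = ∑ a ∈ ({i, j} : Finset (Fin k)), (List.count v ∘ fun i => (seg i).map Prod.fst) a :=
        (Finset.sum_pair hij).symm
    _ ≤ _ := Finset.sum_le_sum_of_subset (Finset.subset_univ _)

end FamAux

open FamAux in
theorem fam_pos (h1 : S_Cut) (k ℓ : ℕ) (hk0 : 0 < k) (P : NBP (Fin (k * ℓ))) (hP : AllT P)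
    (G : Finset (Fin (k * ℓ) → Bool))
    (hG : ∀ x ∈ G, ∃ v l, P.acc v ∧ Walk P P.start l v ∧ Consistent x l ∧ Once l) :
    ∃ F ⊆ G, ∃ own : (Fin (k * ℓ) → Bool) → Fin (k * ℓ) → Fin k, Good (k * ℓ) k ℓ 0 F own ∧
    G.card ≤ Fintype.card P.V ^ (k + 1) * F.card ∧
    ∀ x ∈ F, ∀ y ∈ F, ∀ J : Finset (Fin k), (∀ v, own x v ∈ J → own y v ∉ J → x v = y v) →
      Accepts P (fun v => if own x v ∈ J then x v else y v) := by
  classical
  have hpick : ∀ x : Fin (k * ℓ) → Bool, ∃ (q : Fin (k + 1) → P.V)
      (seg : Fin k → List (Fin (k * ℓ) × Bool)), x ∈ G → q 0 = P.start ∧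
        P.acc (q (Fin.last k)) ∧ (∀ i : Fin k, Walk P (q i.castSucc) (seg i) (q i.succ)) ∧
        Seg ℓ x seg := by
    intro x
    by_cases hx : x ∈ G
    · obtain ⟨v, l, hv, hw, hc, ho⟩ := hG x hx
      obtain ⟨q, seg, hq0, hql, hqw, hlen, hfl⟩ :=
        (h1 (Fin (k * ℓ)) P k ℓ).1 hk0 l P.start v hw (once_length l ho)
      refine ⟨q, seg, fun _ => ⟨hq0, by rw [hql]; exact hv, hqw, ?_⟩⟩
      rw [← hfl] at hc ho
      exact seg_of x seg hlen ho hc
    · exact ⟨fun _ => P.start, fun _ => [], fun h => absurd h hx⟩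
  choose q seg hqs using hpick
  have hown : ∀ (x : Fin (k * ℓ) → Bool) (v : Fin (k * ℓ)), ∃ i : Fin k,
      x ∈ G → v ∈ (seg x i).map Prod.fst := by
    intro x v
    by_cases hx : x ∈ G
    · obtain ⟨i, hi⟩ := (hqs x hx).2.2.2.ex v
      exact ⟨i, fun _ => hi⟩
    · have hk : 0 < k := by
        rcases Nat.eq_zero_or_pos k with h | h
        · exact absurd v.2 (by simp [h])
        · exact h
      exact ⟨⟨0, hk⟩, fun h => absurd h hx⟩
  choose own hown using hown
  have hou : ∀ x ∈ G, ∀ (v : Fin (k * ℓ)) (i : Fin k), v ∈ (seg x i).map Prod.fst →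
      own x v = i := fun x hx v i hv => (hqs x hx).2.2.2.uni _ _ v (hown x v hx) hv
  -- the largest class
  obtain ⟨c, -, hc⟩ := Finset.exists_max_image (univ : Finset (Fin (k + 1) → P.V))
    (fun c => (G.filter (fun x => q x = c)).card) ⟨fun _ => P.start, mem_univ _⟩
  have hcard : G.card ≤ Fintype.card P.V ^ (k + 1) * (G.filter (fun x => q x = c)).card := by
    have e1 := Finset.card_eq_sum_card_fiberwise (s := G)
      (t := (univ : Finset (Fin (k + 1) → P.V))) (f := q) (fun x _ => by simp)
    have e2 : Fintype.card (Fin (k + 1) → P.V) = Fintype.card P.V ^ (k + 1) := by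
      rw [Fintype.card_fun, Fintype.card_fin]
    calc G.card = _ := e1
      _ ≤ ∑ _b : Fin (k + 1) → P.V, (G.filter (fun x => q x = c)).card :=
          Finset.sum_le_sum fun b hb => hc b hb
      _ = _ := by rw [Finset.sum_const, smul_eq_mul, Finset.card_univ, e2]
  have hsub : G.filter (fun x => q x = c) ⊆ G := Finset.filter_subset _ _
  -- hybrids
  have hyb : ∀ x ∈ G.filter (fun x => q x = c), ∀ y ∈ G.filter (fun x => q x = c),
      ∀ J : Finset (Fin k), (∀ v, own x v ∈ J → own y v ∉ J → x v = y v) →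
      P.acc (c (Fin.last k)) ∧
      Walk P P.start (List.ofFn (fun i => if i ∈ J then seg x i else seg y i)).flatten
        (c (Fin.last k)) ∧
      Consistent (fun v => if own x v ∈ J then x v else y v)
        (List.ofFn (fun i => if i ∈ J then seg x i else seg y i)).flatten := by
    intro x hx y hy J hJ
    rw [Finset.mem_filter] at hx hy
    obtain ⟨hxG, hxc⟩ := hx
    obtain ⟨hyG, hyc⟩ := hy
    obtain ⟨hx0, hxa, hxw, hxs⟩ := hqs x hxG
    obtain ⟨hy0, hya, hyw, hys⟩ := hqs y hyG
    rw [hxc] at hx0 hxa hxw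
    rw [hyc] at hyw
    refine ⟨hxa, ?_, ?_⟩
    · have := (h1 (Fin (k * ℓ)) P k ℓ).2 c (fun i => if i ∈ J then seg x i else seg y i) (by
        intro i
        by_cases hi : i ∈ J
        · simp only [hi, if_true]
          exact hxw i
        · simp only [hi, if_false]
          exact hyw i)
      rwa [hx0] at this
    · intro p hp
      rw [List.mem_flatten] at hp
      obtain ⟨m, hm, hpm⟩ := hp
      rw [List.mem_ofFn] at hm
      obtain ⟨i, rfl⟩ := hm
      by_cases hi : i ∈ J
      · simp only [hi, if_true] at hpm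
        have e1 : own x p.1 = i := hou x hxG p.1 i (List.mem_map_of_mem (f := Prod.fst) hpm)
        rw [← e1] at hi
        simp only [hi, if_true]
        exact hxs.con i p hpm
      · simp only [hi, if_false] at hpm
        have e1 : own y p.1 = i := hou y hyG p.1 i (List.mem_map_of_mem (f := Prod.fst) hpm)
        rw [← e1] at hi
        have e2 := hys.con i p hpm
        by_cases h3 : own x p.1 ∈ J
        · simp only [h3, if_true]
          rw [hJ p.1 h3 hi]
          exact e2
        · simp only [h3, if_false]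
          exact e2
  refine ⟨G.filter (fun x => q x = c), hsub, own, ⟨?_, ?_⟩, hcard, ?_⟩
  · intro x hx j
    have hxG := hsub hx
    have hs := (hqs x hxG).2.2.2
    have e1 : univ.filter (fun v => own x v = j) = ((seg x j).map Prod.fst).toFinset := by
      ext v
      simp only [mem_filter, mem_univ, true_and, List.mem_toFinset]
      constructor
      · intro h
        rw [← h]
        exact hown x v hxG
      · exact hou x hxG v j
    rw [e1, List.toFinset_card_of_nodup (hs.nod j), List.length_map, hs.len j]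
  · intro x hx y hy J hJ
    obtain ⟨ha, hw, hcon⟩ := hyb x hx y hy J hJ
    rw [Nat.le_zero, Finset.card_eq_zero, Finset.filter_eq_empty_iff]
    intro v _ hv
    have h2 := count_ge (fun i => if i ∈ J then seg x i else seg y i) v (own x v) (own y v)
      (fun h => hv.2 (h ▸ hv.1)) (by
        simp only [hv.1, if_true]
        exact hown x v (hsub hx)) (by
        simp only [hv.2, if_false]
        exact hown y v (hsub hy))
    have h3 := fun w => List.count_pos_iff.2 (hP _ _ _ ha hw hcon w)
    have hlen : (List.ofFn (fun i => if i ∈ J then seg x i else seg y i)).flatten.length =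
        k * ℓ := by
      rw [List.length_flatten, List.map_ofFn, List.sum_ofFn]
      have : ∀ i : Fin k, (List.length ∘ fun i => if i ∈ J then seg x i else seg y i) i = ℓ := by
        intro i
        by_cases hi : i ∈ J
        · simp only [Function.comp_apply, hi, if_true]
          exact (hqs x (hsub hx)).2.2.2.len i
        · simp only [Function.comp_apply, hi, if_false]
          exact (hqs y (hsub hy)).2.2.2.len i
      rw [Finset.sum_congr rfl (fun i _ => this i)]
      simp
    set L := (List.ofFn (fun i => if i ∈ J then seg x i else seg y i)).flatten with hL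
    have h4 : (L.map Prod.fst).toFinset = univ := by
      ext i
      simp only [List.mem_toFinset, mem_univ, iff_true]
      exact List.count_pos_iff.1 (h3 i)
    have h5 := List.sum_toFinset_count_eq_length (L.map Prod.fst)
    rw [h4, List.length_map, hlen] at h5
    have h6 : ∑ _a : Fin (k * ℓ), 1 < ∑ a, (L.map Prod.fst).count a :=
      Finset.sum_lt_sum (fun a _ => h3 a) ⟨v, mem_univ _, h2⟩
    rw [h5] at h6
    simp at h6
  · intro x hx y hy J hJ
    obtain ⟨ha, hw, hcon⟩ := hyb x hx y hy J hJ
    exact ⟨_, _, ha, hw, hcon⟩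

theorem tFam (h1 : S_Cut) : S_Fam := by
  classical
  intro k ℓ P hP G hG
  rcases Nat.eq_zero_or_pos k with hk | hk
  · subst hk
    have hE : IsEmpty (Fin (0 * ℓ)) := by
      rw [zero_mul]
      infer_instance
    refine ⟨G, Finset.Subset.refl _, fun _ v => (hE.false v).elim, ⟨fun x _ j => j.elim0, ?_⟩, ?_, ?_⟩
    · intro x _ y _ J _
      rw [Nat.le_zero, Finset.card_eq_zero, Finset.filter_eq_empty_iff]
      exact fun v => (hE.false v).elim
    · rw [zero_add, pow_one]
      have : 0 < Fintype.card P.V := Fintype.card_pos_iff.2 ⟨P.start⟩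
      exact Nat.le_mul_of_pos_left _ this
    · intro x hx y _ J _
      obtain ⟨v, l, hv, hw, hc, _⟩ := hG x hx
      refine ⟨v, l, hv, hw, ?_⟩
      intro p _
      exact (hE.false p.1).elim
  · exact fam_pos h1 k ℓ hk P hP G hG

end SRBP
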