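import Pool.Agent.Lib.MP_9dcf40_lc.SR.Spec

/-!
# SR, block B: `Hbi` (an upper bound for the binary entropy)
-/

namespace SRBP

open Finset

private theorem hbi_half (a : ℝ) (h0 : 0 ≤ a) (h1 : a ≤ 1 / 2) :
    Real.binEntropy a ≤ 8 * (a * (1 - a)) + 1 / 50 := by
  rcases h0.eq_or_lt with h | h
  · rw [← h]
    simp
  · have e4 : (50 : ℝ) ≤ Real.exp 4 := by
      have h2 : (2.7182818283 : ℝ) ^ 4 ≤ Real.exp 1 ^ 4 := by
        have := Real.exp_one_gt_d9.le
        gcongr
      have h3 : Real.exp 1 ^ 4 = Real.exp 4 := by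
        rw [← Real.exp_nat_mul]
        norm_num
      rw [h3] at h2
      refine le_trans ?_ h2
      norm_num
    have hl1 : -Real.log a ≤ 3 + (Real.exp 4)⁻¹ / a := by
      have h2 := Real.log_le_sub_one_of_pos (x := (Real.exp 4)⁻¹ / a) (by positivity)
      rw [Real.log_div (by positivity) h.ne', Real.log_inv, Real.log_exp] at h2
      linarith
    have hl2 : -Real.log (1 - a) ≤ a / (1 - a) := by
      have h1a : 0 < 1 - a := by linarith
      have h2 := Real.log_le_sub_one_of_pos (x := (1 - a)⁻¹) (by positivity)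
      rw [Real.log_inv] at h2
      have h3 : (1 - a)⁻¹ - 1 = a / (1 - a) := by
        field_simp
        ring
      linarith
    have h1a : 0 < 1 - a := by linarith
    unfold Real.binEntropy
    rw [Real.log_inv, Real.log_inv]
    have m1 : a * -Real.log a ≤ 3 * a + (Real.exp 4)⁻¹ := by
      calc a * -Real.log a ≤ a * (3 + (Real.exp 4)⁻¹ / a) := by gcongr
        _ = 3 * a + (Real.exp 4)⁻¹ := by field_simp
    have m2 : (1 - a) * -Real.log (1 - a) ≤ a := by
      calc (1 - a) * -Real.log (1 - a) ≤ (1 - a) * (a / (1 - a)) := by gcongr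
        _ = a := by field_simp
    have m3 : (Real.exp 4)⁻¹ ≤ 1 / 50 := by
      rw [one_div]
      exact inv_anti₀ (by norm_num) e4
    nlinarith

theorem tHbi : S_Hbi := by
  intro a h0 h1
  rcases le_total a (1 / 2) with h | h
  · exact hbi_half a h0 h
  · have := hbi_half (1 - a) (by linarith) (by linarith)
    rw [Real.binEntropy_one_sub] at this
    linarith

end SRBP
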