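import Pool.Agent.Lib.MP_9dcf40_lc.SR.Spec

namespace SRBP

open Finset

theorem mut_part_eq {n k : ℕ} {own : (Fin n → Bool) → Fin n → Fin k} {J : Finset (Fin k)}
    {x y : Fin n → Bool} (h : part own J x = part own J y) (v : Fin n) (hv : own x v ∈ J) :
    own y v ∈ J ∧ x v = y v := by
  have h1 := congrFun h v
  unfold part at h1
  rw [if_pos hv] at h1
  by_cases h2 : own y v ∈ J
  · rw [if_pos h2] at h1
    exact ⟨h2, Option.some.inj h1⟩
  · rw [if_neg h2] at h1
    exact absurd h1 (by simp)

theorem mut_part_none {n k : ℕ} {own : (Fin n → Bool) → Fin n → Fin k} {J : Finset (Fin k)}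
    {x : Fin n → Bool} (v : Fin n) : part own J x v = none ↔ own x v ∉ J := by
  unfold part
  by_cases h : own x v ∈ J
  · simp [h]
  · simp [h]

theorem mut_union {n k : ℕ} {own : (Fin n → Bool) → Fin n → Fin k} {J J' : Finset (Fin k)}
    {x y : Fin n → Bool} (h : part own J x = part own J y) (h' : part own J' x = part own J' y) :
    part own (J ∪ J') x = part own (J ∪ J') y := by
  funext v
  have h1 := congrFun h v
  have h2 := congrFun h' v
  unfold part at *
  by_cases a : own x v ∈ J <;> by_cases b : own x v ∈ J' <;> by_cases c : own y v ∈ J <;>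
    by_cases d : own y v ∈ J' <;> simp_all

/-- the number of variables owned by `J`. -/
theorem mut_card {n k ℓ s : ℕ} {F : Finset (Fin n → Bool)} {own : (Fin n → Bool) → Fin n → Fin k}
    (hG : Good n k ℓ s F own) {x : Fin n → Bool} (hx : x ∈ F) (J : Finset (Fin k)) :
    (univ.filter (fun v => own x v ∈ J)).card = J.card * ℓ := by
  have h : univ.filter (fun v => own x v ∈ J) = J.biUnion (fun j => univ.filter (fun v => own x v = j)) := by
    ext v
    simp
  rw [h, card_biUnion]
  · rw [sum_congr rfl (fun j _ => hG.1 x hx j)]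
    simp
  · intro a _ b _ hab
    rw [Function.onFun, disjoint_left]
    intro v hv hv'
    simp at hv hv'
    exact hab (hv.symm.trans hv')

/-- The partition. -/
def mJ (a b : ℕ) : Finset (Fin 253) := univ.filter (fun i => a ≤ (i : ℕ) ∧ (i : ℕ) < b)

theorem mJ_card (a b : ℕ) (_hab : a ≤ b) (hb : b ≤ 253) : (mJ a b).card = b - a := by
  have : (mJ a b).map Fin.valEmbedding = Finset.Ico a b := by
    ext i
    simp only [mJ, mem_map, mem_filter, mem_univ, true_and, Fin.valEmbedding_apply, mem_Ico]
    constructor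
    · rintro ⟨j, hj, rfl⟩
      exact hj
    · intro h
      exact ⟨⟨i, by omega⟩, h, rfl⟩
  rw [← card_map, this, Nat.card_Ico]

theorem tMut (h1 : S_Eu2) (h2 : S_Ent) (h3 : S_Avg) (h4 : S_Enl) (h5 : S_Chn) (h6 : S_Hbi) : S_Mut := by
  classical
  intro ℓ s t F own hG hF ht hfib
  have hFc : (0 : ℝ) < F.card := by exact_mod_cast hF.card_pos
  set L2 : ℝ := Real.log 2 with hL2
  set D : ℝ := 253 * ℓ * L2 - Real.log F.card with hD
  set B : ℝ := 2 * Real.log (ball (253 * ℓ) s) with hB
  set lt : ℝ := Real.log t with hlt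
  have hcast : (((253 * ℓ : ℕ)) : ℝ) = 253 * ℓ := by push_cast; ring
  set J1 := mJ 0 64 with hJ1
  have c1 : J1.card = 64 := mJ_card 0 64 (by norm_num) (by norm_num)
  -- the three others
  let Jo : Fin 3 → Finset (Fin 253) := fun i => mJ (64 + 63 * i) (127 + 63 * i)
  have cJ : ∀ i, (Jo i).card = 63 := by
    intro i
    have : (Jo i).card = (127 + 63 * (i : ℕ)) - (64 + 63 * i) :=
      mJ_card _ _ (by omega) (by omega)
    omega
  have hdis : ∀ i, Disjoint J1 (Jo i) := by
    intro i
    rw [disjoint_left]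
    intro v hv hv'
    simp only [hJ1, mJ, mem_filter, mem_univ, true_and, Jo] at hv hv'
    omega
  have hU : ∀ i, (J1 ∪ Jo i).card = 127 := by
    intro i
    rw [card_union_of_disjoint (hdis i), c1, cJ i]
  -- entropy of the union
  have hUe : ∀ i, Real.log F.card - lt ≤ ent F (part own (J1 ∪ Jo i)) := fun i =>
    (h2 _ _ Unit F (part own (J1 ∪ Jo i)) (fun _ => ()) hF).2.2 t ht (hfib _ (hU i))
  have hPe : ∀ i, Real.log F.card - lt ≤ ent F (fun x => (part own J1 x, part own (Jo i) x)) := by
    intro i
    refine le_trans (hUe i) ((h2 _ _ _ F (fun x => (part own J1 x, part own (Jo i) x))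
      (part own (J1 ∪ Jo i)) hF).1 ?_)
    intro x _ y _ hxy
    exact mut_union (Prod.ext_iff.1 hxy).1 (Prod.ext_iff.1 hxy).2
  -- upper bounds
  have hu1 : ent F (part own J1) ≤ 255 / 127 * L2 * (64 * ℓ) + 140 * (D + B) := by
    have := h1 _ _ _ _ F own hG hF J1
    rw [c1, hcast] at this
    simpa [hD, hB, hL2] using this
  have huo : ∀ i, ent F (part own (Jo i)) ≤ 255 / 127 * L2 * (63 * ℓ) + 140 * (D + B) := by
    intro i
    have := h1 _ _ _ _ F own hG hF (Jo i)
    rw [cJ i, hcast] at this
    simpa [hD, hB, hL2] using this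
  -- the sum of the mutual informations
  let a : Fin (253 * ℓ) → (Fin (253 * ℓ) → Bool) → ℝ := fun v x => aa F (part own J1) v x
  have hI : ∀ i, (∑ x ∈ F, ∑ v, (if own x v ∈ Jo i then a v x else 0)) / F.card ≤
      ent F (part own J1) + ent F (part own (Jo i)) -
        ent F (fun x => (part own J1 x, part own (Jo i) x)) := by
    intro i
    have h := h5 _ _ (253 * ℓ) F (part own J1) (part own (Jo i))
      (fun x v => own x v ∈ Jo i) hF ?_
    · refine le_trans (le_of_eq ?_) h
      congr 1
      exact sum_congr rfl fun x _ => sum_congr rfl fun v _ => by split_ifs <;> rfl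
    · intro x _ v hv y _ hxy
      rw [mut_part_none]
      intro hy
      have := (mut_part_eq hxy.symm v hv).1
      exact (disjoint_left.1 (hdis i)) hy this
  have hsum : (∑ x ∈ F, ∑ v, a v x * (1 - a v x)) / F.card ≤
      ∑ i, (ent F (part own J1) + ent F (part own (Jo i)) -
        ent F (fun x => (part own J1 x, part own (Jo i) x))) := by
    refine le_trans (le_of_eq ?_) (sum_le_sum (fun i _ => hI i))
    rw [← sum_div]
    congr 1
    have hone : ∀ x v, (if part own J1 x v = none then a v x else 0) =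
        ∑ i, (if own x v ∈ Jo i then a v x else 0) := by
      intro x v
      rw [Fin.sum_univ_three]
      have hm : ∀ p q : ℕ, own x v ∈ mJ p q ↔ p ≤ (own x v : ℕ) ∧ (own x v : ℕ) < q := by
        intro p q
        simp [mJ]
      have hlt := (own x v).2
      have e1 : (part own J1 x v = none) ↔ 64 ≤ (own x v : ℕ) := by
        rw [mut_part_none, hJ1, hm]
        omega
      simp only [Jo, hm, e1]
      have v0 : ((0 : Fin 3) : ℕ) = 0 := rfl
      have v1 : ((1 : Fin 3) : ℕ) = 1 := rfl
      have v2 : ((2 : Fin 3) : ℕ) = 2 := rfl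
      rw [v0, v1, v2]
      by_cases g1 : 64 ≤ (own x v : ℕ)
      · by_cases g2 : (own x v : ℕ) < 127
        · rw [if_pos g1, if_pos (by omega), if_neg (by omega), if_neg (by omega)]
          ring
        · by_cases g3 : (own x v : ℕ) < 190
          · rw [if_pos g1, if_neg (by omega), if_pos (by omega), if_neg (by omega)]
            ring
          · rw [if_pos g1, if_neg (by omega), if_neg (by omega), if_pos (by omega)]
            ring
      · rw [if_neg g1, if_neg (by omega), if_neg (by omega), if_neg (by omega)]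
        ring
    rw [sum_comm]
    have e2 : ∀ v, ∑ x ∈ F, a v x * (1 - a v x) = ∑ x ∈ F, ∑ i, (if own x v ∈ Jo i then a v x else 0) := by
      intro v
      rw [← (h3 _ _ F (part own J1) v).2.1]
      exact sum_congr rfl fun x _ => by
        rw [← hone x v]
    rw [sum_congr rfl (fun v _ => e2 v)]
    rw [sum_comm]
    rw [sum_comm (s := (univ : Finset (Fin 3)))]
    exact sum_congr rfl fun x _ => by rw [sum_comm]
  -- upper bound of the entropy of Y1
  have hasum : (∑ x ∈ F, ∑ v, a v x) / F.card = 64 * ℓ := by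
    rw [sum_comm]
    rw [sum_congr rfl (fun v _ => (h3 _ _ F (part own J1) v).2.2)]
    rw [← Nat.cast_sum]
    have e3 : ∑ v, (F.filter (fun x => part own J1 x v ≠ none)).card = F.card * (64 * ℓ) := by
      simp_rw [card_filter]
      rw [sum_comm]
      rw [sum_congr rfl (g := fun _ => 64 * ℓ)]
      · simp
      · intro x hx
        rw [← c1, ← mut_card hG hx J1, card_filter]
        refine sum_congr rfl fun v _ => ?_
        have : (part own J1 x v ≠ none) ↔ own x v ∈ J1 := by
          rw [Ne, mut_part_none, not_not]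
        by_cases hv : own x v ∈ J1
        · rw [if_pos hv, if_pos (this.2 hv)]
        · rw [if_neg hv, if_neg (fun h => hv (this.1 h))]
    rw [e3]
    push_cast
    field_simp
  have hup : ent F (part own J1) ≤ 8 * ((∑ x ∈ F, ∑ v, a v x * (1 - a v x)) / F.card) +
      253 * ℓ / 50 + 64 * ℓ * L2 := by
    refine le_trans (h4 _ _ F (part own J1) hF) ?_
    have : ∀ x ∈ F, ∑ v, (Real.binEntropy (aa F (part own J1) v x) + aa F (part own J1) v x * Real.log 2) ≤
        8 * ∑ v, a v x * (1 - a v x) + 253 * ℓ / 50 + (∑ v, a v x) * L2 := by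
      intro x _
      rw [mul_sum, sum_mul]
      have : (253 * (ℓ : ℝ) / 50) = ∑ _v : Fin (253 * ℓ), (1 / 50 : ℝ) := by
        rw [sum_const, card_univ, Fintype.card_fin, nsmul_eq_mul, hcast]
        ring
      rw [this, ← sum_add_distrib, ← sum_add_distrib]
      refine sum_le_sum fun v _ => ?_
      have ha := (h3 _ _ F (part own J1) v).1 x
      have hb := h6 _ ha.1 ha.2
      exact add_le_add hb le_rfl
    have h2' := sum_le_sum this
    rw [sum_add_distrib, sum_add_distrib, ← mul_sum, ← sum_mul, sum_const, nsmul_eq_mul] at h2'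
    rw [div_le_iff₀ hFc]
    have e4 : (8 * ((∑ x ∈ F, ∑ v, a v x * (1 - a v x)) / F.card) + 253 * ℓ / 50 + 64 * ℓ * L2) * F.card =
        8 * (∑ x ∈ F, ∑ v, a v x * (1 - a v x)) + F.card * (253 * ℓ / 50) + (64 * ℓ * F.card) * L2 := by
      field_simp
    rw [e4]
    have e5 : (∑ x ∈ F, ∑ v, a v x) = 64 * ℓ * F.card := by
      rw [← hasum]
      field_simp
    rw [e5] at h2'
    exact h2'
  -- numbers
  rw [Fin.sum_univ_three] at hsum
  have hP0 := hPe 0
  have hP1 := hPe 1
  have hP2 := hPe 2
  have hO0 := huo 0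
  have hO1 := huo 1
  have hO2 := huo 2
  have hlow := (h2 _ _ _ F (part own J1) (part own (Jo 0)) hF).2.1
  set S := (∑ x ∈ F, ∑ v, a v x * (1 - a v x)) / (F.card : ℝ) with hS
  set e1 := ent F (part own J1) with he1
  set o0 := ent F (part own (Jo 0)) with ho0
  set o1 := ent F (part own (Jo 1)) with ho1
  set o2 := ent F (part own (Jo 2)) with ho2
  set p0 := ent F (fun x => (part own J1 x, part own (Jo 0) x)) with hp0
  set p1 := ent F (fun x => (part own J1 x, part own (Jo 1) x)) with hp1
  set p2 := ent F (fun x => (part own J1 x, part own (Jo 2) x)) with hp2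
  have hL : (0.69 : ℝ) ≤ L2 := by
    have := Real.log_two_gt_d9
    rw [hL2]
    linarith
  have hℓ : (0 : ℝ) ≤ ℓ := Nat.cast_nonneg _
  have hLℓ : 0.69 * (ℓ : ℝ) ≤ L2 * ℓ := mul_le_mul_of_nonneg_right hL hℓ
  have hX : (ℓ : ℝ) / 6 ≤ 280 * (D + B) + D + lt := by
    have k1 : Real.log F.card = 253 * (L2 * ℓ) - D := by
      rw [hD]
      ring
    rw [k1] at hP0 hP1 hP2
    have q1 : e1 ≤ 255 * 64 / 127 * (L2 * ℓ) + 140 * (D + B) := by
      refine le_trans hu1 (le_of_eq ?_)
      ring
    have q2 : o0 ≤ 255 * 63 / 127 * (L2 * ℓ) + 140 * (D + B) := by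
      refine le_trans hO0 (le_of_eq ?_)
      ring
    have q3 : o1 ≤ 255 * 63 / 127 * (L2 * ℓ) + 140 * (D + B) := by
      refine le_trans hO1 (le_of_eq ?_)
      ring
    have q4 : o2 ≤ 255 * 63 / 127 * (L2 * ℓ) + 140 * (D + B) := by
      refine le_trans hO2 (le_of_eq ?_)
      ring
    have q5 : e1 ≤ 8 * S + 253 * ℓ / 50 + 64 * (L2 * ℓ) := by
      refine le_trans hup (le_of_eq ?_)
      ring
    set u := L2 * (ℓ : ℝ) with hu
    have r1 : S ≤ 6 * u + 3 * (280 * (D + B) + D + lt) := by
      linarith
    have hDB : 0 ≤ D + B := by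
      have hD0 : 0 ≤ D := by
        have hle : (F.card : ℝ) ≤ 2 ^ (253 * ℓ) := by
          have : F.card ≤ 2 ^ (253 * ℓ) := by
            refine le_trans (card_le_univ F) (le_of_eq ?_)
            simp
          exact_mod_cast this
        have hlog := Real.log_le_log hFc hle
        rw [Real.log_pow, hcast] at hlog
        rw [hD, hL2]
        linarith
      have hB0 : 0 ≤ B := by
        have : (1 : ℝ) ≤ ball (253 * ℓ) s := by
          have : 0 < ball (253 * ℓ) s := by
            unfold ball
            refine card_pos.2 ⟨∅, ?_⟩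
            simp
          exact_mod_cast this
        have := Real.log_nonneg this
        rw [hB]
        linarith
      linarith
    linarith
  exact hX

end SRBP
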