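import Pool.Agent.Lib.MP_9dcf40_lc.SR.Spec

/-!
# SR, Qua: a quartic polynomial which is not constant on large rectangles
-/

namespace SRBP

open Finset

private theorem card_two {n : ℕ} (W : Finset (Fin n)) :
    (two W).card = 1 + W.card + W.card.choose 2 := by
  classical
  have h : two W = (Finset.range 3).biUnion fun j => powersetCard j W := by
    ext S
    unfold two
    rw [mem_filter, mem_powerset, mem_biUnion]
    constructor
    · rintro ⟨h1, h2⟩
      exact ⟨S.card, mem_range.2 (by omega), mem_powersetCard.2 ⟨h1, rfl⟩⟩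
    · rintro ⟨j, hj, hS⟩
      rw [mem_range] at hj
      obtain ⟨h1, h2⟩ := mem_powersetCard.1 hS
      exact ⟨h1, by omega⟩
  rw [h, card_biUnion]
  · simp only [card_powersetCard, Finset.sum_range_succ, Finset.range_zero, Finset.sum_empty,
      Nat.choose_zero_right, Nat.choose_one_right, zero_add]
  · intro i _ j _ hij
    exact (Finset.pairwise_disjoint_powersetCard W) hij

open scoped Classical in
theorem tQua (h1 : S_Sha) (h2 : S_Cfg) (h3 : S_Uni) (h4 : S_Den) : S_Qua := by
  intro ε hε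
  obtain ⟨N, hN⟩ := h1 ε hε
  refine ⟨max N 2, ?_⟩
  intro n hn t ht
  have hnN : N ≤ n := le_trans (le_max_left _ _) hn
  have hn2 : 2 ≤ n := le_trans (le_max_right _ _) hn
  set w : ℕ := 2 * Nat.sqrt n + 4 with hw
  set m : ℕ := 1 + w + w.choose 2 with hm
  have hm2 : 2 * n + 2 ≤ m := by
    have hr : n ≤ Nat.sqrt n * Nat.sqrt n + Nat.sqrt n + Nat.sqrt n := Nat.sqrt_le_add n
    have hch : w.choose 2 = (Nat.sqrt n + 2) * (2 * Nat.sqrt n + 3) := by
      rw [Nat.choose_two_right, hw]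
      have : (2 * Nat.sqrt n + 4) * (2 * Nat.sqrt n + 4 - 1) =
          2 * ((Nat.sqrt n + 2) * (2 * Nat.sqrt n + 3)) := by
        rw [show 2 * Nat.sqrt n + 4 - 1 = 2 * Nat.sqrt n + 3 by omega]
        ring
      rw [this, Nat.mul_div_cancel_left _ (by norm_num)]
    rw [hm, hch]
    nlinarith
  have hmm : n + 2 * n * m + 2 ≤ m * m := by nlinarith
  -- a good coefficient vector
  have hUni := h3 n m
  have hDen := h4 n hn2
  set X : Finset (Coef n → Bool) := (univ : Finset (Coef n → Bool)).filter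
    (fun c => ∃ (U : Finset (Fin n)) (a b : Fin m → Fin n → Bool),
      ((univ : Finset (Coef n → Bool)).filter (fun c' => ∀ i j,
        quartic c' (glue U (a i) (b j)) = 1)).card * 2 ^ (m * m) ≤ 2 ^ Fintype.card (Coef n) ∧
      ∀ i j, quartic c (glue U (a i) (b j)) = 1) with hX
  set Y : Finset (Coef n → Bool) := (univ : Finset (Coef n → Bool)).filter (fun c =>
    2 ^ (n - 2) ≤ ((univ : Finset (Fin n → Bool)).filter (fun y => fq c y)).card) with hY
  have hlt : X.card < Y.card := by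
    have e1 : X.card * 2 ^ (n + 2 * n * m + 2) ≤ 2 ^ (n + 2 * n * m) * 2 ^ Fintype.card (Coef n) :=
      le_trans (Nat.mul_le_mul_left _ (Nat.pow_le_pow_right (by norm_num) hmm)) hUni
    have e2 : X.card * 4 ≤ 2 ^ Fintype.card (Coef n) := by
      have hpos : 0 < 2 ^ (n + 2 * n * m) := Nat.pow_pos (by norm_num)
      refine Nat.le_of_mul_le_mul_left ?_ hpos
      refine le_trans (le_of_eq ?_) e1
      rw [pow_add]
      ring
    have e3 : 0 < 2 ^ Fintype.card (Coef n) := Nat.pow_pos (by norm_num)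
    omega
  obtain ⟨c, hcY, hcX⟩ : ∃ c ∈ Y, c ∉ X := by
    by_contra hcon
    push Not at hcon
    exact absurd (card_le_card hcon) (not_le.2 hlt)
  refine ⟨c, (mem_filter.1 hcY).2, ?_⟩
  intro U A B hA hB hAU hBU
  by_contra hcon
  push Not at hcon
  have htA : Real.exp (ε * n) ≤ (A.card : ℝ) := le_trans ht (by exact_mod_cast hA)
  have htB : Real.exp (ε * n) ≤ (B.card : ℝ) := le_trans ht (by exact_mod_cast hB)
  obtain ⟨W, hWc, hWs⟩ := hN n hnN A htA
  obtain ⟨W', hWc', hWs'⟩ := hN n hnN B htB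
  have hWU : W ⊆ U := by
    intro v hv
    by_contra hvU
    obtain ⟨a, ha, ha'⟩ := hWs ∅ (empty_subset _)
    obtain ⟨b, hb, hb'⟩ := hWs {v} (singleton_subset_iff.2 hv)
    have e1 := hAU a ha b hb v hvU
    have e2 : b v = true := (hb' v hv).2 (mem_singleton_self v)
    rw [e2] at e1
    exact absurd ((ha' v hv).1 e1) (notMem_empty v)
  have hWU' : Disjoint W' U := by
    rw [Finset.disjoint_left]
    intro v hv hvU
    obtain ⟨a, ha, ha'⟩ := hWs' ∅ (empty_subset _)
    obtain ⟨b, hb, hb'⟩ := hWs' {v} (singleton_subset_iff.2 hv)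
    have e1 := hBU a ha b hb v hvU
    have e2 : b v = true := (hb' v hv).2 (mem_singleton_self v)
    rw [e2] at e1
    exact absurd ((ha' v hv).1 e1) (notMem_empty v)
  have hcA : ∀ S : Finset (Fin n), ∃ a : Fin n → Bool, S ⊆ W →
      a ∈ A ∧ ∀ v ∈ W, (a v = true ↔ v ∈ S) := by
    intro S
    by_cases hS : S ⊆ W
    · obtain ⟨a, ha, ha'⟩ := hWs S hS
      exact ⟨a, fun _ => ⟨ha, ha'⟩⟩
    · exact ⟨fun _ => false, fun h => absurd h hS⟩
  have hcB : ∀ S : Finset (Fin n), ∃ a : Fin n → Bool, S ⊆ W' →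
      a ∈ B ∧ ∀ v ∈ W', (a v = true ↔ v ∈ S) := by
    intro S
    by_cases hS : S ⊆ W'
    · obtain ⟨a, ha, ha'⟩ := hWs' S hS
      exact ⟨a, fun _ => ⟨ha, ha'⟩⟩
    · exact ⟨fun _ => false, fun h => absurd h hS⟩
  choose a ha using hcA
  choose b hb using hcB
  have sub2 : ∀ (V S : Finset (Fin n)), S ∈ two V → S ⊆ V := fun V S hS =>
    mem_powerset.1 (mem_filter.1 hS).1
  have hCfg := h2 n U W W' hWU hWU' a b
    (fun S hS v hv => (ha S (sub2 W S hS)).2 v hv)
    (fun S hS v hv => (hb S (sub2 W' S hS)).2 v hv)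
  have hcW : (two W).card = m := by rw [card_two, hWc]
  have hcW' : (two W').card = m := by rw [card_two, hWc']
  set p := (two W).equivFinOfCardEq hcW with hp
  set p' := (two W').equivFinOfCardEq hcW' with hp'
  apply hcX
  rw [hX, mem_filter]
  refine ⟨mem_univ _, U, fun i => a (p.symm i), fun j => b (p'.symm j), ?_, ?_⟩
  · rw [hcW, hcW'] at hCfg
    refine le_trans (le_of_eq ?_) hCfg
    congr 1
    refine congrArg card ?_
    ext c'
    rw [mem_filter, mem_filter]
    constructor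
    · rintro ⟨_, h⟩
      refine ⟨mem_univ _, fun S hS S' hS' => ?_⟩
      have h5 := h (p ⟨S, hS⟩) (p' ⟨S', hS'⟩)
      simp only [Equiv.symm_apply_apply] at h5
      exact h5
    · rintro ⟨_, h⟩
      exact ⟨mem_univ _, fun i j => h _ (p.symm i).2 _ (p'.symm j).2⟩
  · intro i j
    exact (hcon (a (p.symm i)) (ha _ (sub2 W _ (p.symm i).2)).1
      (b (p'.symm j)) (hb _ (sub2 W' _ (p'.symm j).2)).1).1

end SRBP
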