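import Pool.Agent.Lib.MP_9dcf40_lc.SR.Spec

/-!
# SR, Rec: the rectangle
-/

namespace SRBP

open Finset

private theorem part_eq {n k : ℕ} {own : (Fin n → Bool) → Fin n → Fin k} {J : Finset (Fin k)}
    {x y : Fin n → Bool} (h : part own J y = part own J x) (i : Fin n) :
    (own y i ∈ J ↔ own x i ∈ J) ∧ (own x i ∈ J → y i = x i) := by
  have hi := congrFun h i
  unfold part at hi
  by_cases h1 : own y i ∈ J
  · by_cases h2 : own x i ∈ J
    · rw [if_pos h1, if_pos h2] at hi
      exact ⟨⟨fun _ => h2, fun _ => h1⟩, fun _ => Option.some.inj hi⟩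
    · rw [if_pos h1, if_neg h2] at hi
      exact absurd hi (Option.some_ne_none _)
  · by_cases h2 : own x i ∈ J
    · rw [if_neg h1, if_pos h2] at hi
      exact absurd hi.symm (Option.some_ne_none _)
    · exact ⟨⟨fun h3 => absurd h3 h1, fun h3 => absurd h3 h2⟩, fun h3 => absurd h3 h2⟩

theorem tRec : S_Rec := by
  classical
  intro n m k t f hf ext φ e hφ hext1 hext2 F own hyb T x hx ⟨h1, h2⟩
  have hinj : Function.Injective ext := by
    intro y z hyz
    funext i
    rw [← hext1 y i, ← hext1 z i, hyz]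
  set FA : Finset (Fin m → Bool) := F.filter (fun y => part own Tᶜ y = part own Tᶜ x) with hFA
  set FB : Finset (Fin m → Bool) := F.filter (fun y => part own T y = part own T x) with hFB
  have hcA : t ≤ (FA.image ext).card := by
    rw [card_image_of_injective _ hinj]
    refine le_trans h2 (le_of_eq ?_)
    unfold fib
    rw [hFA]
    refine congrArg card ?_
    ext z
    simp only [mem_filter]
  have hcB : t ≤ (FB.image ext).card := by
    rw [card_image_of_injective _ hinj]
    refine le_trans h1 (le_of_eq ?_)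
    unfold fib
    rw [hFB]
    refine congrArg card ?_
    ext z
    simp only [mem_filter]
  set U : Finset (Fin n) := (univ.filter fun i => own x i ∈ T).image φ with hU
  have hUmem : ∀ i, φ i ∈ U ↔ own x i ∈ T := by
    intro i
    rw [hU, mem_image]
    constructor
    · rintro ⟨j, hj, hji⟩
      rw [← hφ hji]
      exact (mem_filter.1 hj).2
    · intro hi
      exact ⟨i, mem_filter.2 ⟨mem_univ _, hi⟩, rfl⟩
  have hUr : ∀ v, (∀ i, v ≠ φ i) → v ∉ U := by
    intro v hv hvU
    rw [hU, mem_image] at hvU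
    obtain ⟨i, _, hi⟩ := hvU
    exact hv i hi.symm
  have hA : ∀ a ∈ FA.image ext, ∀ v, v ∉ U → a v = ext x v := by
    intro a ha v hv
    obtain ⟨y, hy, rfl⟩ := mem_image.1 ha
    have hp := (mem_filter.1 hy).2
    by_cases hr : ∃ i, v = φ i
    · obtain ⟨i, rfl⟩ := hr
      rw [hUmem] at hv
      rw [hext1, hext1]
      exact (part_eq hp i).2 (mem_compl.2 hv)
    · push Not at hr
      rw [hext2 _ v hr, hext2 _ v hr]
  have hB : ∀ b ∈ FB.image ext, ∀ v ∈ U, b v = ext x v := by
    intro b hb v hv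
    obtain ⟨y, hy, rfl⟩ := mem_image.1 hb
    have hp := (mem_filter.1 hy).2
    by_cases hr : ∃ i, v = φ i
    · obtain ⟨i, rfl⟩ := hr
      rw [hUmem] at hv
      rw [hext1, hext1]
      exact (part_eq hp i).2 hv
    · push Not at hr
      exact absurd hv (hUr v hr)
  obtain ⟨a, ha, b, hb, hab⟩ := hf U (FA.image ext) (FB.image ext) hcA hcB
    (fun a ha a' ha' v hv => by rw [hA a ha v hv, hA a' ha' v hv])
    (fun b hb b' hb' v hv => by rw [hB b hb v hv, hB b' hb' v hv])
  obtain ⟨x1, hx1, rfl⟩ := mem_image.1 ha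
  obtain ⟨x2, hx2, rfl⟩ := mem_image.1 hb
  have p1 := (mem_filter.1 hx1).2
  have p2 := (mem_filter.1 hx2).2
  have o1 : ∀ i, own x1 i ∈ T ↔ own x i ∈ T := by
    intro i
    have h3 := (part_eq p1 i).1
    rw [mem_compl, mem_compl] at h3
    exact not_iff_not.1 h3
  have o2 : ∀ i, own x2 i ∈ T ↔ own x i ∈ T := fun i => (part_eq p2 i).1
  have hz := hyb x1 (mem_filter.1 hx1).1 x2 (mem_filter.1 hx2).1 T
    (fun v hv hv' => absurd ((o2 v).2 ((o1 v).1 hv)) hv')
  apply hab
  have hglue : glue U (ext x1) (ext x2) = ext (fun v => if own x1 v ∈ T then x1 v else x2 v) := by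
    funext v
    unfold glue
    by_cases hr : ∃ i, v = φ i
    · obtain ⟨i, rfl⟩ := hr
      rw [hext1, hext1, hext1]
      by_cases hi : own x i ∈ T
      · rw [if_pos ((hUmem i).2 hi), if_pos ((o1 i).2 hi)]
      · rw [if_neg (fun h => hi ((hUmem i).1 h)), if_neg (fun h => hi ((o1 i).1 h))]
    · push Not at hr
      rw [hext2 _ v hr, hext2 _ v hr, hext2 _ v hr, ite_self]
  rw [hglue]
  exact hz

end SRBP
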