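import Pool.Agent.Lib.MP_9dcf40_lc.SR.Spec

/-!
# SR, Res: substitution of constants in a program
-/

namespace SRBP

open Finset

private theorem subl_nil {κ ι : Type} (σ : κ → Bool ⊕ ι) : subl σ [] = [] := rfl

private theorem subl_inl {κ ι : Type} (σ : κ → Bool ⊕ ι) (a : κ) (b c : Bool)
    (l : List (κ × Bool)) (h : σ a = Sum.inl c) : subl σ ((a, b) :: l) = subl σ l := by
  unfold subl
  rw [List.filterMap_cons]
  simp only [h, Sum.elim_inl]

private theorem subl_inr {κ ι : Type} (σ : κ → Bool ⊕ ι) (a : κ) (b : Bool) (i : ι)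
    (l : List (κ × Bool)) (h : σ a = Sum.inr i) :
    subl σ ((a, b) :: l) = (i, b) :: subl σ l := by
  unfold subl
  rw [List.filterMap_cons]
  simp only [h, Sum.elim_inr]

private theorem count_subl {κ ι : Type} [DecidableEq κ] [DecidableEq ι] (σ : κ → Bool ⊕ ι)
    (hσ : ∀ a b i, σ a = Sum.inr i → σ b = Sum.inr i → a = b) (a : κ) (i : ι)
    (h : σ a = Sum.inr i) (l : List (κ × Bool)) :
    ((subl σ l).map Prod.fst).count i = (l.map Prod.fst).count a := by
  induction l with
  | nil => rfl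
  | cons p l ih =>
    obtain ⟨a', b'⟩ := p
    rcases hs : σ a' with c | i'
    · rw [subl_inl σ a' b' c l hs, ih, List.map_cons, List.count_cons_of_ne]
      intro he
      have he' : a' = a := he
      rw [he', h] at hs
      exact Sum.inr_ne_inl hs
    · rw [subl_inr σ a' b' i' l hs, List.map_cons, List.map_cons]
      by_cases hi : i' = i
      · have ha : a' = a := hσ a' a i (by rw [hs, hi]) h
        subst hi
        subst ha
        rw [List.count_cons_self, List.count_cons_self, ih]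
      · rw [List.count_cons_of_ne hi, List.count_cons_of_ne, ih]
        intro he
        have he' : a' = a := he
        rw [he', h] at hs
        exact hi (Sum.inr_injective hs).symm

private theorem mem_subl {κ ι : Type} (σ : κ → Bool ⊕ ι) (i : ι) (b : Bool)
    (l : List (κ × Bool)) : (i, b) ∈ subl σ l ↔ ∃ a, σ a = Sum.inr i ∧ (a, b) ∈ l := by
  unfold subl
  rw [List.mem_filterMap]
  constructor
  · rintro ⟨⟨a, b'⟩, hq, h⟩
    rcases hs : σ a with c | i'
    · simp only [hs, Sum.elim_inl] at h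
      exact absurd h.symm (Option.some_ne_none _)
    · simp only [hs, Sum.elim_inr, Option.some.injEq, Prod.mk.injEq] at h
      obtain ⟨h1, h2⟩ := h
      subst h1
      subst h2
      exact ⟨a, hs, hq⟩
  · rintro ⟨a, ha, hl⟩
    exact ⟨(a, b), hl, by simp only [ha, Sum.elim_inr]⟩

/-- the program after the substitution -/
private def sub' {κ ι : Type} (P : NBP κ) (σ : κ → Bool ⊕ ι) : NBP ι where
  V := P.V
  fin := P.fin
  edge := fun u o v => match o with
    | none => P.edge u none v ∨ ∃ a b, σ a = Sum.inl b ∧ P.edge u (some (a, b)) v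
    | some (i, b) => ∃ a, σ a = Sum.inr i ∧ P.edge u (some (a, b)) v
  start := P.start
  acc := P.acc

private theorem walkA {κ ι : Type} (P : NBP κ) (σ : κ → Bool ⊕ ι) (y : ι → Bool) {u w : P.V}
    {l : List (κ × Bool)} (h : Walk P u l w)
    (hc : Consistent (fun a => Sum.elim id y (σ a)) l) :
    Walk (sub' P σ) u (subl σ l) w ∧ Consistent y (subl σ l) := by
  induction h with
  | nil u => exact ⟨Walk.nil (P := sub' P σ) u, fun p hp => absurd hp List.not_mem_nil⟩
  | free he _ ih =>
    obtain ⟨h1, h2⟩ := ih hc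
    exact ⟨Walk.free (P := sub' P σ) (Or.inl he) h1, h2⟩
  | read a b he _ ih =>
    obtain ⟨h1, h2⟩ := ih fun p hp => hc p (List.mem_cons_of_mem _ hp)
    have hab : Sum.elim id y (σ a) = b := hc (a, b) List.mem_cons_self
    rcases hs : σ a with c | i
    · rw [subl_inl σ a b c _ hs]
      rw [hs, Sum.elim_inl] at hab
      have hcb : c = b := hab
      refine ⟨Walk.free (P := sub' P σ) (Or.inr ⟨a, b, ?_, he⟩) h1, h2⟩
      rw [hs, hcb]
    · rw [subl_inr σ a b i _ hs]
      rw [hs, Sum.elim_inr] at hab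
      refine ⟨Walk.read (P := sub' P σ) i b ⟨a, hs, he⟩ h1, ?_⟩
      intro p hp
      rcases List.mem_cons.1 hp with rfl | hp
      · exact hab
      · exact h2 p hp

private theorem walkB {κ ι : Type} (P : NBP κ) (σ : κ → Bool ⊕ ι) {u w : (sub' P σ).V}
    {l' : List (ι × Bool)} (h : Walk (sub' P σ) u l' w) :
    ∃ l, Walk P u l w ∧ subl σ l = l' ∧ ∀ p ∈ l, ∀ c, σ p.1 = Sum.inl c → p.2 = c := by
  induction h with
  | nil u => exact ⟨[], Walk.nil (P := P) u, rfl, fun p hp => absurd hp List.not_mem_nil⟩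
  | free he _ ih =>
    obtain ⟨l, h1, h2, h3⟩ := ih
    rcases he with he | ⟨a, b, hab, he⟩
    · exact ⟨l, Walk.free (P := P) he h1, h2, h3⟩
    · refine ⟨(a, b) :: l, Walk.read (P := P) a b he h1, ?_, ?_⟩
      · rw [subl_inl σ a b b l hab, h2]
      · intro p hp c hpc
        rcases List.mem_cons.1 hp with rfl | hp
        · rw [hab] at hpc
          exact Sum.inl_injective hpc
        · exact h3 p hp c hpc
  | read i b he _ ih =>
    obtain ⟨l, h1, h2, h3⟩ := ih
    obtain ⟨a, ha, he⟩ := he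
    refine ⟨(a, b) :: l, Walk.read (P := P) a b he h1, ?_, ?_⟩
    · rw [subl_inr σ a b i l ha, h2]
    · intro p hp c hpc
      rcases List.mem_cons.1 hp with rfl | hp
      · rw [ha] at hpc
        exact absurd hpc Sum.inr_ne_inl
      · exact h3 p hp c hpc

private theorem consB {κ ι : Type} (σ : κ → Bool ⊕ ι) (y : ι → Bool) (l : List (κ × Bool))
    (h3 : ∀ p ∈ l, ∀ c, σ p.1 = Sum.inl c → p.2 = c) (hc : Consistent y (subl σ l)) :
    Consistent (fun a => Sum.elim id y (σ a)) l := by
  intro p hp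
  change Sum.elim id y (σ p.1) = p.2
  rcases hs : σ p.1 with c | i
  · rw [Sum.elim_inl]
    exact (h3 p hp c hs).symm
  · rw [Sum.elim_inr]
    exact hc (i, p.2) ((mem_subl σ i p.2 l).2 ⟨p.1, hs, hp⟩)

theorem tRes : S_Res := by
  intro κ ι _ _ _ _ P σ hσ
  refine ⟨sub' P σ, rfl, ?_, ?_, ?_⟩
  · rintro s hP y ⟨v', l', hv', hw', hc'⟩
    obtain ⟨l₀, h1, h2, h3⟩ := walkB P σ hw'
    subst h2
    obtain ⟨v, l, hv, hw, hc, hr⟩ := hP (fun a => Sum.elim id y (σ a))
      ⟨v', l₀, hv', h1, consB σ y l₀ h3 hc'⟩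
    obtain ⟨h4, h5⟩ := walkA P σ y hw hc
    refine ⟨v, subl σ l, hv, h4, h5, le_trans ?_ hr⟩
    rw [← card_map (Function.Embedding.some : ι ↪ Option ι)]
    refine le_trans (card_le_card ?_)
      (card_image_le (f := fun a : κ => Sum.elim (fun _ => none) (fun i => some i) (σ a)))
    intro o ho
    rw [mem_map] at ho
    obtain ⟨i, hi, rfl⟩ := ho
    have hi2 := (mem_filter.1 hi).2
    have hmem : i ∈ (subl σ l).map Prod.fst := by
      rw [← List.count_pos_iff]
      omega
    rw [List.mem_map] at hmem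
    obtain ⟨⟨i', b⟩, hq, hqi⟩ := hmem
    have hqi' : i' = i := hqi
    subst hqi'
    obtain ⟨a, ha, _⟩ := (mem_subl σ i' b l).1 hq
    rw [mem_image]
    refine ⟨a, ?_, ?_⟩
    · unfold rep
      rw [mem_filter]
      refine ⟨mem_univ _, ?_⟩
      rw [← count_subl σ hσ a i' ha l]
      exact hi2
    · rw [ha, Sum.elim_inr]
      rfl
  · intro y
    constructor
    · rintro ⟨v, l', hv, hw, hc⟩
      obtain ⟨l, h1, h2, h3⟩ := walkB P σ hw
      subst h2
      exact ⟨v, l, hv, h1, consB σ y l h3 hc⟩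
    · rintro ⟨v, l, hv, hw, hc⟩
      obtain ⟨h1, h2⟩ := walkA P σ y hw hc
      exact ⟨v, subl σ l, hv, h1, h2⟩
  · intro y v l hv hw hc
    obtain ⟨h1, h2⟩ := walkA P σ y hw hc
    exact ⟨v, hv, h1, h2⟩

end SRBP
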