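import Pool.Agent.Lib.MP_9dcf40_lc.SR.Spec

/-! # SR, module Sha: application of the Sauer-Shelah lemma (helper24) -/

namespace SRBP

open Finset

namespace ShaAux

/-- The support. -/
def spp {n : ℕ} (a : Fin n → Bool) : Finset (Fin n) := univ.filter (fun v => a v = true)

theorem spp_inj {n : ℕ} : Function.Injective (spp : (Fin n → Bool) → Finset (Fin n)) := by
  intro a b h
  funext v
  have h1 : v ∈ spp a ↔ v ∈ spp b := by rw [h]
  simp only [spp, mem_filter, mem_univ, true_and] at h1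
  cases ha : a v <;> cases hb : b v <;> simp_all

end ShaAux

open ShaAux

theorem tSha (h1 : S_Bal) : S_Sha := by
  intro ε hε
  obtain ⟨c, hc, hbal⟩ := h1 (ε / 2) (half_pos hε)
  obtain ⟨N, hN⟩ := exists_nat_ge (36 / c ^ 2 : ℝ)
  refine ⟨N + 1, fun n hn A hA => ?_⟩
  classical
  have hn1 : (1 : ℝ) ≤ n := by exact_mod_cast (by omega : 1 ≤ n)
  have hnN : (36 / c ^ 2 : ℝ) ≤ n := le_trans hN (by exact_mod_cast (by omega : N ≤ n))
  have hw : (2 * (Nat.sqrt n : ℝ) + 4) ≤ c * n := by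
    have h2 : (Nat.sqrt n : ℝ) ≤ Real.sqrt n := Real.nat_sqrt_le_real_sqrt
    have h3 : Real.sqrt n * Real.sqrt n = n := Real.mul_self_sqrt (by linarith)
    have h4 : 1 ≤ Real.sqrt n := by
      rw [show (1 : ℝ) = Real.sqrt 1 from Real.sqrt_one.symm]
      exact Real.sqrt_le_sqrt hn1
    have h5 : 6 / c ≤ Real.sqrt n := by
      apply Real.le_sqrt_of_sq_le
      rw [div_pow]
      norm_num
      exact hnN
    have h6 : 6 ≤ c * Real.sqrt n := by
      rw [div_le_iff₀ hc] at h5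
      linarith
    have h7 : 6 * Real.sqrt n ≤ c * n := by
      have h8 := mul_le_mul_of_nonneg_right h6 (Real.sqrt_nonneg (n : ℝ))
      rw [mul_assoc, h3] at h8
      exact h8
    linarith
  -- the family of supports
  obtain ⟨𝒜, h𝒜⟩ : ∃ 𝒜 : Finset (Finset (Fin n)), 𝒜 = A.image spp := ⟨_, rfl⟩
  have hcard : 𝒜.card = A.card := by rw [h𝒜]; exact card_image_of_injective _ spp_inj
  have hex : ∃ W ∈ 𝒜.shatterer, 2 * Nat.sqrt n + 4 ≤ W.card := by
    by_contra hcon
    push Not at hcon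
    have h2 : 𝒜.shatterer ⊆ (univ : Finset (Finset (Fin n))).filter
        (fun S => S.card ≤ 2 * Nat.sqrt n + 4) := by
      intro S hS
      exact mem_filter.2 ⟨mem_univ _, (hcon S hS).le⟩
    have h3 : A.card ≤ ball n (2 * Nat.sqrt n + 4) := by
      rw [← hcard]
      exact le_trans (card_le_card_shatterer 𝒜) (card_le_card h2)
    have h4 := hbal n (2 * Nat.sqrt n + 4) (by push_cast; exact hw)
    have h5 : Real.exp (ε * n) ≤ (ball n (2 * Nat.sqrt n + 4) : ℝ) :=
      le_trans hA (by exact_mod_cast h3)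
    have h6 : ε * n ≤ Real.log (ball n (2 * Nat.sqrt n + 4)) := by
      rw [← Real.log_exp (ε * n)]
      exact Real.log_le_log (Real.exp_pos _) h5
    have h7 : 0 < ε * n := mul_pos hε (by linarith)
    linarith
  obtain ⟨W', hW', hWc⟩ := hex
  obtain ⟨W, hWW, hWcard⟩ := exists_subset_card_eq hWc
  have hsh : 𝒜.Shatters W := (mem_shatterer.1 hW').mono_right hWW
  refine ⟨W, hWcard, fun S hS => ?_⟩
  obtain ⟨u, hu, hWu⟩ := hsh hS
  rw [h𝒜] at hu
  obtain ⟨a, ha, rfl⟩ := mem_image.1 hu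
  refine ⟨a, ha, fun v hv => ?_⟩
  rw [← hWu, mem_inter]
  simp only [spp, mem_filter, mem_univ, true_and]
  exact ⟨fun h => ⟨hv, h⟩, fun h => h.2⟩

end SRBP
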