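import Pool.Agent.Lib.MP_9dcf40_lc.SR.Spec

/-! # SR, module Uni: union bound (helper24) -/

namespace SRBP

open Finset

open scoped Classical in
theorem tUni : S_Uni := by
  intro n m
  let G : Finset (Fin n) × (Fin m → Fin n → Bool) × (Fin m → Fin n → Bool) →
      Finset (Coef n → Bool) := fun t =>
    (univ : Finset (Coef n → Bool)).filter (fun c' => ∀ i j,
      quartic c' (glue t.1 (t.2.1 i) (t.2.2 j)) = 1)
  let H : Finset (Fin n) × (Fin m → Fin n → Bool) × (Fin m → Fin n → Bool) →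
      Finset (Coef n → Bool) := fun t =>
    if (G t).card * 2 ^ (m * m) ≤ 2 ^ Fintype.card (Coef n) then G t else ∅
  have hH : ∀ t, (H t).card * 2 ^ (m * m) ≤ 2 ^ Fintype.card (Coef n) := by
    intro t
    show (if (G t).card * 2 ^ (m * m) ≤ 2 ^ Fintype.card (Coef n) then G t else ∅).card *
      2 ^ (m * m) ≤ 2 ^ Fintype.card (Coef n)
    split_ifs with h
    · exact h
    · simp
  have h1 : ((univ : Finset (Coef n → Bool)).filter (fun c => ∃ (U : Finset (Fin n))
    (a b : Fin m → Fin n → Bool),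
    ((univ : Finset (Coef n → Bool)).filter (fun c' => ∀ i j,
      quartic c' (glue U (a i) (b j)) = 1)).card * 2 ^ (m * m) ≤ 2 ^ Fintype.card (Coef n) ∧
    ∀ i j, quartic c (glue U (a i) (b j)) = 1)) ⊆ univ.biUnion H := by
    intro c hc
    obtain ⟨U, a, b, h2, h3⟩ := (mem_filter.1 hc).2
    refine mem_biUnion.2 ⟨(U, a, b), mem_univ _, ?_⟩
    show c ∈ if (G (U, a, b)).card * 2 ^ (m * m) ≤ 2 ^ Fintype.card (Coef n) then G (U, a, b)
      else ∅
    rw [if_pos h2]
    exact mem_filter.2 ⟨mem_univ _, h3⟩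
  have hT : Fintype.card (Finset (Fin n) × (Fin m → Fin n → Bool) × (Fin m → Fin n → Bool)) =
      2 ^ (n + 2 * n * m) := by
    simp only [Fintype.card_prod, Fintype.card_finset, Fintype.card_fun, Fintype.card_fin,
      Fintype.card_bool, ← pow_mul, ← pow_add]
    congr 1
    ring
  calc _ ≤ (univ.biUnion H).card * 2 ^ (m * m) := Nat.mul_le_mul_right _ (card_le_card h1)
    _ ≤ (∑ t, (H t).card) * 2 ^ (m * m) := Nat.mul_le_mul_right _ card_biUnion_le
    _ = ∑ t, (H t).card * 2 ^ (m * m) := by rw [sum_mul]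
    _ ≤ ∑ _t : Finset (Fin n) × (Fin m → Fin n → Bool) × (Fin m → Fin n → Bool),
        2 ^ Fintype.card (Coef n) := sum_le_sum fun t _ => hH t
    _ = 2 ^ (n + 2 * n * m) * 2 ^ Fintype.card (Coef n) := by
        rw [sum_const, card_univ, hT, smul_eq_mul]

end SRBP
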