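import Pool.Agent.Lib.MP_9dcf40_lc.SR.Avg
import Pool.Agent.Lib.MP_9dcf40_lc.SR.Bal
import Pool.Agent.Lib.MP_9dcf40_lc.SR.Bol
import Pool.Agent.Lib.MP_9dcf40_lc.SR.Cfg
import Pool.Agent.Lib.MP_9dcf40_lc.SR.Cheap
import Pool.Agent.Lib.MP_9dcf40_lc.SR.Chn
import Pool.Agent.Lib.MP_9dcf40_lc.SR.Cir
import Pool.Agent.Lib.MP_9dcf40_lc.SR.Cnt
import Pool.Agent.Lib.MP_9dcf40_lc.SR.Cor
import Pool.Agent.Lib.MP_9dcf40_lc.SR.Cut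
import Pool.Agent.Lib.MP_9dcf40_lc.SR.Den
import Pool.Agent.Lib.MP_9dcf40_lc.SR.Enl
import Pool.Agent.Lib.MP_9dcf40_lc.SR.Ent
import Pool.Agent.Lib.MP_9dcf40_lc.SR.Eu2
import Pool.Agent.Lib.MP_9dcf40_lc.SR.Eup
import Pool.Agent.Lib.MP_9dcf40_lc.SR.Fam
import Pool.Agent.Lib.MP_9dcf40_lc.SR.Gat
import Pool.Agent.Lib.MP_9dcf40_lc.SR.Hbi
import Pool.Agent.Lib.MP_9dcf40_lc.SR.Hit
import Pool.Agent.Lib.MP_9dcf40_lc.SR.Mon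
import Pool.Agent.Lib.MP_9dcf40_lc.SR.Mut
import Pool.Agent.Lib.MP_9dcf40_lc.SR.Pow
import Pool.Agent.Lib.MP_9dcf40_lc.SR.Qua
import Pool.Agent.Lib.MP_9dcf40_lc.SR.Rec
import Pool.Agent.Lib.MP_9dcf40_lc.SR.Res
import Pool.Agent.Lib.MP_9dcf40_lc.SR.Sha
import Pool.Agent.Lib.MP_9dcf40_lc.SR.Uni
import Pool.Agent.Lib.MP_9dcf40_lc.SR.Xor

/-!
# All modules together
-/

namespace SRBP

theorem aBol : S_Bol := tBol (tHit tPow)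

theorem aMut : S_Mut := tMut (tEu2 (tEup aBol)) tEnt tAvg (tEnl tAvg) tChn tHbi

theorem aCor : S_Cor := tCor (tCnt aBol) aMut tBal

theorem aQua : S_Qua := tQua (tSha tBal) tCfg tUni tDen

theorem aTopC2 : S_TopC2 := tTopC2 aCor tBal aQua (tGap2 tRes) (tFam tCut) tRec

theorem aCir : S_Cir := tCir tGat (tMon tGat (tXor tGat))

end SRBP
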