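import Pool.Agent.Lib.MP_9dcf40_lc.SR.Spec

/-!
# SR, statement `S_Avg`: cell averages
-/

namespace SRBP

open Finset

namespace AvgAux

theorem cell {α β : Type} [DecidableEq β] (F : Finset α) (κ : α → β) (P : α → Prop)
    [DecidablePred P] (g : α → ℝ) (hg : ∀ x y, κ x = κ y → g x = g y) :
    ∑ x ∈ F, (if P x then g x else 0) = ∑ x ∈ F, g x *
      (((F.filter (fun y => κ y = κ x ∧ P y)).card : ℝ) /
        (F.filter (fun y => κ y = κ x)).card) := by
  have e1 : ∀ x ∈ F, g x * (((F.filter (fun y => κ y = κ x ∧ P y)).card : ℝ) /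
      (F.filter (fun y => κ y = κ x)).card) =
      ∑ y ∈ F, if κ y = κ x ∧ P y then g y / ((F.filter (fun z => κ z = κ y)).card : ℝ)
        else 0 := by
    intro x hx
    rw [← Finset.sum_filter]
    have e2 : ∀ y ∈ F.filter (fun y => κ y = κ x ∧ P y),
        g y / ((F.filter (fun z => κ z = κ y)).card : ℝ) =
        g x / ((F.filter (fun z => κ z = κ x)).card : ℝ) := by
      intro y hy
      rw [Finset.mem_filter] at hy
      rw [hg y x hy.2.1, hy.2.1]
    rw [Finset.sum_congr rfl e2, Finset.sum_const, nsmul_eq_mul]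
    ring
  rw [Finset.sum_congr rfl e1, Finset.sum_comm]
  refine Finset.sum_congr rfl fun y hy => ?_
  by_cases hP : P y
  · rw [if_pos hP]
    have e3 : ∑ x ∈ F, (if κ y = κ x ∧ P y then
        g y / ((F.filter (fun z => κ z = κ y)).card : ℝ) else 0) =
        ∑ x ∈ F.filter (fun x => κ x = κ y),
          g y / ((F.filter (fun z => κ z = κ y)).card : ℝ) := by
      rw [Finset.sum_filter]
      refine Finset.sum_congr rfl fun x _ => ?_
      simp only [hP, and_true, eq_comm]
    have e4 : ((F.filter (fun z => κ z = κ y)).card : ℝ) ≠ 0 := by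
      have : 0 < (F.filter (fun z => κ z = κ y)).card :=
        Finset.card_pos.2 ⟨y, Finset.mem_filter.2 ⟨hy, rfl⟩⟩
      exact_mod_cast this.ne'
    rw [e3, Finset.sum_const, nsmul_eq_mul, mul_div_cancel₀ _ e4]
  · rw [if_neg hP]
    refine (Finset.sum_eq_zero fun x _ => ?_).symm
    rw [if_neg (fun h => hP h.2)]

/-- The prefix. -/
def key {n : ℕ} {α : Type} (Y : α → Fin n → Option Bool) (v : ℕ) (x : α) :
    Fin n → Option (Option Bool) := fun u => if (u : ℕ) < v then some (Y x u) else none

theorem key_iff {n : ℕ} {α : Type} (Y : α → Fin n → Option Bool) (v : ℕ) (x y : α) :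
    key Y v y = key Y v x ↔ ∀ u : Fin n, (u : ℕ) < v → Y y u = Y x u := by
  constructor
  · intro h u hu
    have := congrFun h u
    simpa [key, hu] using this
  · intro h
    funext u
    unfold key
    by_cases hu : (u : ℕ) < v
    · rw [if_pos hu, if_pos hu, h u hu]
    · rw [if_neg hu, if_neg hu]

theorem preN_eq {n : ℕ} {α : Type} (F : Finset α) (Y : α → Fin n → Option Bool) (v : ℕ)
    (x : α) : preN F Y v x = (F.filter (fun y => key Y v y = key Y v x)).card := by
  unfold preN
  exact congrArg Finset.card (Finset.filter_congr fun y _ => (key_iff Y v x y).symm)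

theorem aa_eq {n : ℕ} {α : Type} (F : Finset α) (Y : α → Fin n → Option Bool) (v : Fin n)
    (x : α) : aa F Y v x =
      ((F.filter (fun y => key Y v y = key Y v x ∧ Y y v ≠ none)).card : ℝ) /
        (F.filter (fun y => key Y v y = key Y v x)).card := by
  unfold aa
  rw [preN_eq]
  refine congrArg (fun m : ℕ => (m : ℝ) / _) (congrArg Finset.card ?_)
  exact Finset.filter_congr fun y _ => and_congr_left' (key_iff Y v x y).symm

theorem aa_key {n : ℕ} {α : Type} (F : Finset α) (Y : α → Fin n → Option Bool) (v : Fin n)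
    (x y : α) (h : key Y v x = key Y v y) : aa F Y v x = aa F Y v y := by
  rw [aa_eq, aa_eq, h]

end AvgAux

open AvgAux in
theorem tAvg : S_Avg := by
  intro α n F Y v
  refine ⟨fun x => ?_, ?_, ?_⟩
  · rw [aa_eq]
    refine ⟨by positivity, div_le_one_of_le₀ ?_ (by positivity)⟩
    exact_mod_cast Finset.card_le_card
      (Finset.monotone_filter_right F fun y _ (h : _ ∧ _) => h.1)
  · rw [cell F (key Y v) (fun x => Y x v = none) (fun x => aa F Y v x)
      (fun x y h => aa_key F Y v x y h)]
    refine Finset.sum_congr rfl fun x hx => ?_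
    refine congrArg (fun r => aa F Y v x * r) ?_
    have e0 : ((F.filter (fun z => key Y v z = key Y v x)).card : ℝ) ≠ 0 := by
      have : 0 < (F.filter (fun z => key Y v z = key Y v x)).card :=
        Finset.card_pos.2 ⟨x, Finset.mem_filter.2 ⟨hx, rfl⟩⟩
      exact_mod_cast this.ne'
    rw [aa_eq, eq_sub_iff_add_eq, ← add_div, div_eq_one_iff_eq e0]
    have e1 := Finset.card_filter_add_card_filter_not
      (s := F.filter (fun z => key Y v z = key Y v x)) (fun z => Y z v = none)
    rw [Finset.filter_filter, Finset.filter_filter] at e1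
    exact_mod_cast e1
  · have h := cell F (key Y v) (fun x => Y x v ≠ none) (fun _ => (1 : ℝ)) (fun _ _ _ => rfl)
    rw [← Finset.sum_filter, Finset.sum_const, nsmul_eq_mul, mul_one] at h
    rw [h]
    refine Finset.sum_congr rfl fun x _ => ?_
    rw [one_mul, aa_eq]

end SRBP
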