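import Pool.Agent.Lib.MP_9dcf40_lc.SR.Spec

namespace SRBP

open Finset

/-- flipping one variable changes the parity. -/
theorem gap_parity {n : ℕ} (c : Coef n → Bool) (y : Fin n → Bool) (v : Fin n)
    (h : fq c y) (h' : fq c (Function.update y v (!y v))) : False := by
  have a := h.2
  have b := h'.2
  rw [← add_sum_erase univ _ (mem_univ v)] at a b
  have e : ∑ i ∈ univ.erase v, (if Function.update y v (!y v) i then (1 : ZMod 2) else 0) =
      ∑ i ∈ univ.erase v, (if y i then (1 : ZMod 2) else 0) := by
    refine sum_congr rfl fun i hi => ?_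
    rw [Function.update_of_ne (ne_of_mem_erase hi)]
  rw [e, Function.update_self] at b
  have hne : (if y v then (1 : ZMod 2) else 0) = (if (!y v) then (1 : ZMod 2) else 0) := by
    exact add_right_cancel (a.trans b.symm)
  cases hy : y v
  · rw [hy] at hne
    simp at hne
  · rw [hy] at hne
    simp at hne

theorem gap_consistent_update {ι : Type} [DecidableEq ι] {y : ι → Bool} {l : List (ι × Bool)} {v : ι}
    {b : Bool} (h : Consistent y l) (hv : v ∉ l.map Prod.fst) :
    Consistent (Function.update y v b) l := by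
  intro p hp
  have : p.1 ≠ v := by
    rintro rfl
    exact hv (List.mem_map_of_mem hp)
  rw [Function.update_of_ne this]
  exact h p hp

theorem gap_count {κ ι : Type} [DecidableEq κ] [DecidableEq ι] (σ : κ → Bool ⊕ ι) (i : ι) (a : κ)
    (ha : ∀ b, σ b = Sum.inr i ↔ b = a) (l : List (κ × Bool)) :
    ((subl σ l).map Prod.fst).count i = (l.map Prod.fst).count a := by
  induction l with
  | nil => simp [subl]
  | cons p l ih =>
    have hc : subl σ (p :: l) = (match σ p.1 with
        | Sum.inl _ => subl σ l
        | Sum.inr j => (j, p.2) :: subl σ l) := by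
      unfold subl
      rw [List.filterMap_cons]
      cases hs : σ p.1 <;> simp
    rw [hc, List.map_cons]
    cases hs : σ p.1 with
    | inl b =>
      have : p.1 ≠ a := by
        intro h
        have := (ha p.1).2 h
        rw [hs] at this
        cases this
      simp only
      rw [List.count_cons_of_ne this]
      exact ih
    | inr j =>
      simp only
      rw [List.map_cons]
      by_cases hj : j = i
      · subst hj
        have : p.1 = a := (ha p.1).1 hs
        rw [this, List.count_cons_self, List.count_cons_self, ih]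
      · have : p.1 ≠ a := by
          intro h
          have := (ha p.1).2 h
          rw [hs] at this
          exact hj (Sum.inr.inj this)
        rw [List.count_cons_of_ne this, List.count_cons_of_ne hj]
        exact ih

theorem gap_card_supp {n : ℕ} (E : Finset (Fin n)) :
    ((univ : Finset (Fin n → Bool)).filter (fun h => ∀ v, v ∉ E → h v = false)).card = 2 ^ E.card := by
  have : (univ : Finset (Fin n → Bool)).filter (fun h => ∀ v, v ∉ E → h v = false) =
      Fintype.piFinset (fun v => if v ∈ E then (univ : Finset Bool) else {false}) := by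
    ext h
    simp only [mem_filter, mem_univ, true_and, Fintype.mem_piFinset]
    refine forall_congr' fun v => ?_
    by_cases hv : v ∈ E <;> simp [hv]
  rw [this, Fintype.card_piFinset]
  have : ∀ v : Fin n, (if v ∈ E then (univ : Finset Bool) else {false}).card = if v ∈ E then 2 else 1 := by
    intro v
    by_cases hv : v ∈ E <;> simp [hv]
  rw [prod_congr rfl (fun v _ => this v), prod_ite]
  simp

theorem gap_card_T (n e0 : ℕ) : ((univ : Finset (Finset (Fin n) × (Fin n → Bool))).filter
    (fun p => p.1.card = e0 ∧ ∀ v, v ∉ p.1 → p.2 v = false)).card ≤ ball n e0 * 2 ^ e0 := by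
  classical
  have h : (univ : Finset (Finset (Fin n) × (Fin n → Bool))).filter
      (fun p => p.1.card = e0 ∧ ∀ v, v ∉ p.1 → p.2 v = false) ⊆
      (((univ : Finset (Finset (Fin n))).filter (fun S => S.card = e0)).biUnion (fun E =>
        (((univ : Finset (Fin n → Bool)).filter (fun h => ∀ v, v ∉ E → h v = false))).image
          (fun h => (E, h)))) := by
    intro p hp
    simp only [mem_filter, mem_univ, true_and] at hp
    simp only [mem_biUnion, mem_filter, mem_univ, true_and, mem_image]
    exact ⟨p.1, hp.1, p.2, hp.2, rfl⟩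
  refine le_trans (card_le_card h) (le_trans card_biUnion_le ?_)
  refine le_trans (sum_le_card_nsmul _ _ (2 ^ e0) ?_) ?_
  · intro E hE
    simp only [mem_filter, mem_univ, true_and] at hE
    refine le_trans card_image_le ?_
    rw [gap_card_supp, hE]
  · rw [smul_eq_mul]
    refine Nat.mul_le_mul_right _ ?_
    unfold ball
    refine card_le_card ?_
    intro S hS
    simp only [mem_filter, mem_univ, true_and] at hS ⊢
    exact hS.le

theorem tGap (h1 : S_Res) : S_Gap := by
  classical
  intro n ℓ s c P hn hW hf K hA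
  obtain ⟨A, hAf, hAK⟩ := hA
  set e0 := n - 253 * ℓ with he0
  -- the walks
  have hw : ∀ y, fq c y → ∃ v l, P.acc v ∧ Walk P P.start l v ∧ Consistent y l ∧ (rep l).card ≤ s :=
    fun y hy => hW y ((hf y).2 hy)
  -- the exceptional sets
  have hE : ∀ y, fq c y → ∃ (v : P.V) (l : List (Fin n × Bool)) (E : Finset (Fin n)), P.acc v ∧
      Walk P P.start l v ∧ Consistent y l ∧ rep l ⊆ E ∧ E.card = e0 := by
    intro y hy
    obtain ⟨v, l, ha, hwk, hc, hr⟩ := hw y hy
    obtain ⟨E, hE1, hE2⟩ := exists_superset_card_eq (s := rep l) (n := e0) (by omega)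
      (by rw [Fintype.card_fin]; omega)
    exact ⟨v, l, E, ha, hwk, hc, hE1, hE2⟩
  choose! vv ll EE hacc hwalk hcons hrep hEc using hE
  -- pigeonhole
  set T := (univ : Finset (Finset (Fin n) × (Fin n → Bool))).filter
    (fun p => p.1.card = e0 ∧ ∀ v, v ∉ p.1 → p.2 v = false) with hT
  have hTne : T.Nonempty := by
    obtain ⟨E, _, hE2⟩ := exists_superset_card_eq (s := (∅ : Finset (Fin n))) (n := e0) (by simp)
      (by rw [Fintype.card_fin]; omega)
    refine ⟨(E, fun _ => false), ?_⟩
    simp [hT, hE2]
  let g : (Fin n → Bool) → Finset (Fin n) × (Fin n → Bool) :=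
    fun y => (EE y, fun v => if v ∈ EE y then y v else false)
  have hg : ∀ y ∈ A, g y ∈ T := by
    intro y hy
    simp only [hT, mem_filter, mem_univ, true_and, g]
    refine ⟨hEc y (hAf y hy), ?_⟩
    intro v hv
    rw [if_neg hv]
  obtain ⟨p, hpT, hpmax⟩ := exists_max_image T (fun p => (A.filter (fun y => g y = p)).card) hTne
  set G0 := A.filter (fun y => g y = p) with hG0
  have hcard : A.card ≤ T.card * G0.card := by
    rw [card_eq_sum_card_fiberwise hg]
    exact sum_le_card_nsmul _ _ _ (fun q hq => hpmax q hq)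
  have hpT' : p.1.card = e0 ∧ ∀ v, v ∉ p.1 → p.2 v = false := by
    simpa [hT] using hpT
  -- the enumeration
  have hcc : (p.1)ᶜ.card = 253 * ℓ := by
    rw [card_compl, Fintype.card_fin, hpT'.1]
    omega
  let φ : Fin (253 * ℓ) → Fin n := (p.1)ᶜ.orderEmbOfFin hcc
  have hφi : Function.Injective φ := ((p.1)ᶜ.orderEmbOfFin hcc).injective
  have hφr : ∀ v, v ∉ p.1 ↔ ∃ i, φ i = v := by
    intro v
    have := (p.1)ᶜ.range_orderEmbOfFin hcc
    have h2 : v ∈ Set.range ((p.1)ᶜ.orderEmbOfFin hcc) ↔ v ∈ ((p.1)ᶜ : Finset (Fin n)) := by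
      rw [this]
      simp
    rw [← mem_compl, ← h2]
    rfl
  let σ : Fin n → Bool ⊕ Fin (253 * ℓ) :=
    fun v => if h : ∃ i, φ i = v then Sum.inr h.choose else Sum.inl (p.2 v)
  have hσ1 : ∀ i, σ (φ i) = Sum.inr i := by
    intro i
    have h : ∃ j, φ j = φ i := ⟨i, rfl⟩
    simp only [σ]
    rw [dif_pos h]
    exact congrArg Sum.inr (hφi h.choose_spec)
  have hσ2 : ∀ v, v ∈ p.1 → σ v = Sum.inl (p.2 v) := by
    intro v hv
    simp only [σ]
    rw [dif_neg]
    intro h
    exact ((hφr v).2 h) hv
  have hσ3 : ∀ i b, σ b = Sum.inr i ↔ b = φ i := by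
    intro i b
    constructor
    · intro h
      by_cases hb : b ∈ p.1
      · rw [hσ2 b hb] at h
        cases h
      · obtain ⟨j, hj⟩ := (hφr b).1 hb
        rw [← hj, hσ1] at h
        rw [← hj, Sum.inr.inj h]
    · rintro rfl
      exact hσ1 i
  obtain ⟨P', hPc, _, hPa, hPw⟩ := h1 (Fin n) (Fin (253 * ℓ)) P σ (by
    intro a b i ha hb
    rw [(hσ3 i a).1 ha, (hσ3 i b).1 hb])
  let ext : (Fin (253 * ℓ) → Bool) → Fin n → Bool := fun x a => Sum.elim id x (σ a)
  have hext1 : ∀ x i, ext x (φ i) = x i := by
    intro x i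
    simp only [ext]
    rw [hσ1]
    rfl
  have hext2 : ∀ x v, (∀ i, v ≠ φ i) → ext x v = p.2 v := by
    intro x v hv
    have : v ∈ p.1 := by
      by_contra h
      obtain ⟨i, hi⟩ := (hφr v).1 h
      exact hv i hi.symm
    simp only [ext]
    rw [hσ2 v this]
    rfl
  have hacc' : ∀ x, Accepts P' x → fq c (ext x) := fun x hx => (hf _).1 ((hPa x).1 hx)
  refine ⟨P', ext, φ, p.2, G0.image (fun y => y ∘ φ), hPc, ?_, hφi, hext1, hext2, hacc', ?_, ?_⟩
  · -- AllT
    intro v l x ha hwk hc i
    by_contra hi
    have h2 : fq c (ext x) := hacc' x ⟨v, l, ha, hwk, hc⟩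
    have h3 : fq c (ext (Function.update x i (!x i))) :=
      hacc' _ ⟨v, l, ha, hwk, gap_consistent_update hc hi⟩
    have h4 : ext (Function.update x i (!x i)) =
        Function.update (ext x) (φ i) (!(ext x (φ i))) := by
      funext w
      by_cases hw : ∃ j, φ j = w
      · obtain ⟨j, rfl⟩ := hw
        rw [hext1]
        by_cases hij : j = i
        · subst hij
          rw [Function.update_self, Function.update_self, hext1]
        · rw [Function.update_of_ne hij, Function.update_of_ne (fun h => hij (hφi h)), hext1]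
      · have hw' : ∀ j, w ≠ φ j := fun j h => hw ⟨j, h.symm⟩
        rw [hext2 _ _ hw', Function.update_of_ne (hw' i), hext2 _ _ hw']
    rw [h4] at h3
    exact gap_parity c _ _ h2 h3
  · -- the walks
    intro x hx
    rw [mem_image] at hx
    obtain ⟨y, hy, rfl⟩ := hx
    rw [hG0, mem_filter] at hy
    have hfy := hAf y hy.1
    have hEy : EE y = p.1 := congrArg Prod.fst hy.2
    have hey : ∀ v ∈ p.1, y v = p.2 v := by
      intro v hv
      have := congrFun (congrArg Prod.snd hy.2) v
      simp only [g] at this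
      rw [if_pos (hEy ▸ hv)] at this
      exact this
    have hxy : (fun a => Sum.elim id (y ∘ φ) (σ a)) = y := by
      funext a
      by_cases ha : a ∈ p.1
      · rw [hσ2 a ha, Sum.elim_inl, id, hey a ha]
      · obtain ⟨i, rfl⟩ := (hφr a).1 ha
        rw [hσ1, Sum.elim_inr]
        rfl
    obtain ⟨v', hv', hwk', hc'⟩ := hPw (y ∘ φ) (vv y hfy) (ll y) (hacc y hfy) (hwalk y hfy)
      (by rw [hxy]; exact hcons y hfy)
    refine ⟨v', subl σ (ll y), hv', hwk', hc', ?_⟩
    intro i
    rw [gap_count σ i (φ i) (hσ3 i)]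
    have hge : 0 < ((ll y).map Prod.fst).count (φ i) := by
      rw [List.count_pos_iff]
      by_contra hni
      have h2 : fq c (Function.update y (φ i) (!y (φ i))) :=
        (hf _).1 ⟨vv y hfy, ll y, hacc y hfy, hwalk y hfy, gap_consistent_update (hcons y hfy) hni⟩
      exact gap_parity c _ _ hfy h2
    have hlt : ¬ 2 ≤ ((ll y).map Prod.fst).count (φ i) := by
      intro h2
      have h3 : φ i ∈ rep (ll y) := by
        simp only [rep, mem_filter, mem_univ, true_and]
        exact h2
      have h4 := hrep y hfy h3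
      rw [hEy] at h4
      exact (hφr (φ i)).2 ⟨i, rfl⟩ h4
    omega
  · -- the count
    have hinj : (G0.image (fun y => y ∘ φ)).card = G0.card := by
      refine card_image_of_injOn ?_
      intro y hy y' hy' hyy
      simp only [coe_filter, Set.mem_ofPred_eq, hG0] at hy hy'
      funext v
      by_cases hv : v ∈ p.1
      · have e1 := congrFun (congrArg Prod.snd hy.2) v
        have e2 := congrFun (congrArg Prod.snd hy'.2) v
        have E1 : EE y = p.1 := congrArg Prod.fst hy.2
        have E2 : EE y' = p.1 := congrArg Prod.fst hy'.2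
        simp only [g] at e1 e2
        rw [if_pos (E1 ▸ hv)] at e1
        rw [if_pos (E2 ▸ hv)] at e2
        rw [e1, e2]
      · obtain ⟨i, rfl⟩ := (hφr v).1 hv
        exact congrFun hyy i
    rw [hinj]
    refine le_trans hAK (le_trans hcard ?_)
    exact Nat.mul_le_mul_right _ (gap_card_T n e0)

end SRBP
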