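import Mathlib

/-!
# Nondeterministic branching programs and circuit value (MP_9dcf40_lc): the definitions used in the
statement of `SemanticPrograms`
-/

namespace SRBP

open Finset

/-- Nondeterministic branching program over Boolean variables indexed by `ι`: finitely many states;
an edge is free (`none`) or tests one variable (`some (i, b)`: passable iff `x i = b`). -/
structure NBP (ι : Type) where
  V : Type
  fin : Fintype V
  edge : V → Option (ι × Bool) → V → Prop
  start : V
  acc : V → Prop

attribute [instance] NBP.fin

/-- `Walk P u l v`: there is a path from `u` to `v`, `l` lists the tests on it. -/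
inductive Walk {ι : Type} (P : NBP ι) : P.V → List (ι × Bool) → P.V → Prop
  | nil (u : P.V) : Walk P u [] u
  | free {u v w : P.V} {l : List (ι × Bool)} : P.edge u none v → Walk P v l w → Walk P u l w
  | read {u v w : P.V} {l : List (ι × Bool)} (i : ι) (b : Bool) : P.edge u (some (i, b)) v →
      Walk P v l w → Walk P u ((i, b) :: l) w

/-- The input `x` passes all tests in `l`. -/
def Consistent {ι : Type} (x : ι → Bool) (l : List (ι × Bool)) : Prop := ∀ p ∈ l, x p.1 = p.2

/-- `P` accepts `x`: some path from the start to an accepting state is consistent with `x`. -/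
def Accepts {ι : Type} (P : NBP ι) (x : ι → Bool) : Prop :=
  ∃ v l, P.acc v ∧ Walk P P.start l v ∧ Consistent x l

/-! ## Circuit value -/

/-- The bits which describe a circuit with `n` inputs and `m` NAND gates. The wires `0, .., n - 1` are the
inputs, the wire `n + g` is the gate `g`. `Sum.inl (g, j)`: the wire `j` is an input of the gate `g`;
`Sum.inr o`: the wire `o` is an output of the circuit. -/
abbrev CBits (n m : ℕ) : Type := (Fin m × Fin (n + m)) ⊕ Fin (n + m)

/-- `w` lists the values of the wires of the circuit `c` on the input `y`: the wire `i < n` has the value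
`y i`, and the gate `g` is `0` iff all wires `j < n + g` which are inputs of `g` are `1` (NAND). -/
def Values (n m : ℕ) (c : CBits n m → Bool) (y : Fin n → Bool) (w : Fin (n + m) → Bool) : Prop :=
  (∀ i : Fin n, w (Fin.castAdd m i) = y i) ∧
  ∀ g : Fin m, (w (Fin.natAdd n g) = false ↔
    ∀ j : Fin (n + m), j < Fin.natAdd n g → c (Sum.inl (g, j)) = true → w j = true)

/-- Circuit value: on the input `y` all outputs of the circuit `c` are `1`. -/
def Val (n m : ℕ) (c : CBits n m → Bool) (y : Fin n → Bool) : Prop :=
  ∃ w, Values n m c y w ∧ ∀ o, c (Sum.inr o) = true → w o = true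

/-! ## Few tests of the inputs of the circuit -/

/-- The variables of the second kind (the inputs `y_i`) tested on a walk, in this order. -/
def ytests {κ ι : Type} (l : List ((κ ⊕ ι) × Bool)) : List ι := l.filterMap (fun q => q.1.getRight?)

/-- The input `z` is accepted by a walk on which at most `s` of the `n` variables of the second kind are
tested more than once, or which contains at most `n + s` tests of variables of the second kind. -/
def Cheap {κ : Type} {n : ℕ} (P : NBP (κ ⊕ Fin n)) (s : ℕ) (z : κ ⊕ Fin n → Bool) : Prop :=
  ∃ v l, P.acc v ∧ Walk P P.start l v ∧ Consistent z l ∧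
    ((univ.filter (fun i => 2 ≤ (ytests l).count i)).card ≤ s ∨ (ytests l).length ≤ n + s)

end SRBP
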