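import Pool.Agent.Lib.MP_9dcf40_lc.SR.SpecV

namespace SRBP

open Finset

theorem tTopC (h1 : S_Cor) (h2 : S_Bal) (h3 : S_Qua) (h4 : S_Gap) (h5 : S_Fam) (h6 : S_Rec) :
    S_TopC := by
  classical
  obtain ⟨c1, hc1, ℓ0, hCor⟩ := h1
  obtain ⟨c2, hc2, hBal⟩ := h2 (c1 / 10 ^ 6) (by positivity)
  obtain ⟨N3, hQ⟩ := h3 (c1 / 300) (by positivity)
  set ε : ℝ := min (c1 / 10 ^ 6) (min (c2 / 4) (1 / 1000)) with hε
  have hε0 : 0 < ε := by
    rw [hε]
    exact lt_min (by positivity) (lt_min (by positivity) (by norm_num))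
  have hε1 : ε ≤ c1 / 10 ^ 6 := min_le_left _ _
  have hε2 : ε ≤ c2 / 4 := le_trans (min_le_right _ _) (min_le_left _ _)
  have hε3 : ε ≤ 1 / 1000 := le_trans (min_le_right _ _) (min_le_right _ _)
  refine ⟨ε, hε0, max N3 (max (255 * ℓ0) (max (10 ^ 5) (max ⌈400 / c2⌉₊ (⌈2000 / c1⌉₊)))), ?_⟩
  intro n hn
  have n1 : N3 ≤ n := le_trans (le_max_left _ _) hn
  have n2 : 255 * ℓ0 ≤ n := le_trans (le_trans (le_max_left _ _) (le_max_right _ _)) hn
  have n3 : 10 ^ 5 ≤ n := le_trans (le_trans (le_trans (le_max_left _ _) (le_max_right _ _))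
    (le_max_right _ _)) hn
  have n4 : 400 / c2 ≤ n := by
    have : ⌈400 / c2⌉₊ ≤ n := le_trans (le_trans (le_trans (le_trans (le_max_left _ _)
      (le_max_right _ _)) (le_max_right _ _)) (le_max_right _ _)) hn
    exact le_trans (Nat.le_ceil _) (by exact_mod_cast this)
  have n5 : 2000 / c1 ≤ n := by
    have : ⌈2000 / c1⌉₊ ≤ n := le_trans (le_trans (le_trans (le_trans (le_max_right _ _)
      (le_max_right _ _)) (le_max_right _ _)) (le_max_right _ _)) hn
    exact le_trans (Nat.le_ceil _) (by exact_mod_cast this)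
  have n3' : (10 ^ 5 : ℝ) ≤ n := by exact_mod_cast n3
  have n4' : 400 ≤ c2 * n := by
    rw [div_le_iff₀ hc2] at n4
    linarith
  have n5' : 2000 ≤ c1 * n := by
    rw [div_le_iff₀ hc1] at n5
    linarith
  have hlog2 : Real.log 2 < 0.7 := by
    have := Real.log_two_lt_d9
    linarith
  set t : ℕ := ⌈Real.exp (c1 / 300 * n)⌉₊ with ht
  obtain ⟨c, hc, hNR⟩ := hQ n n1 t (Nat.le_ceil _)
  refine ⟨c, ?_⟩
  intro P s hs hW hf
  by_contra hV
  rw [not_le] at hV
  have hs1 : (s : ℝ) ≤ n / 1000 := by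
    refine le_trans hs ?_
    have := mul_le_mul_of_nonneg_right hε3 (Nat.cast_nonneg n : (0 : ℝ) ≤ n)
    linarith
  have hs2 : s * 1000 ≤ n := by
    have : (s : ℝ) * 1000 ≤ n := by linarith
    exact_mod_cast this
  set ℓ := (n - s) / 253 with hℓ
  have hℓ1 : 253 * ℓ + s ≤ n := by omega
  have hℓ2 : n ≤ 253 * ℓ + s + 252 := by omega
  have hℓ3 : n ≤ 255 * ℓ := by omega
  have hℓ4 : ℓ0 ≤ ℓ := by omega
  have hℓ3' : (n : ℝ) ≤ 255 * ℓ := by exact_mod_cast hℓ3
  set e0 := n - 253 * ℓ with he0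
  have he1 : e0 ≤ s + 252 := by omega
  have he2 : (e0 : ℝ) ≤ c2 * n := by
    have h : (e0 : ℝ) ≤ s + 252 := by exact_mod_cast he1
    have h' : (s : ℝ) ≤ c2 / 4 * n :=
      le_trans hs (mul_le_mul_of_nonneg_right hε2 (Nat.cast_nonneg n))
    linarith
  have hball := hBal n e0 he2
  have hballpos : (0 : ℝ) < ball n e0 := by
    have : 0 < ball n e0 := by
      unfold ball
      refine card_pos.2 ⟨∅, ?_⟩
      simp
    exact_mod_cast this
  obtain ⟨P', ext, φ, e, G, hPc, hAll, hφ, hx1, hx2, hPa, hPG, hK⟩ :=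
    h4 n ℓ s c P hℓ1 hW hf (2 ^ (n - 2))
      ⟨(univ : Finset (Fin n → Bool)).filter (fun y => fq c y), by
        intro y hy
        exact (mem_filter.1 hy).2, by
        refine le_trans hc (le_of_eq ?_)
        congr⟩
  obtain ⟨F, _, own, hGood, hGF, hHyb⟩ := h5 253 ℓ P' hAll G hPG
  -- size of F
  have hVpos : (0 : ℝ) < Fintype.card P.V := by
    have : 0 < Fintype.card P.V := Fintype.card_pos_iff.2 ⟨P.start⟩
    exact_mod_cast this
  have hbig : (2 : ℝ) ^ (n - 2) ≤ ball n e0 * 2 ^ e0 * ((Fintype.card P.V : ℝ) ^ 254 * F.card) := by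
    have h : 2 ^ (n - 2) ≤ ball n e0 * 2 ^ e0 * (Fintype.card P.V ^ 254 * F.card) := by
      refine le_trans hK (Nat.mul_le_mul_left _ ?_)
      rw [← hPc]
      exact hGF
    exact_mod_cast h
  have hF : (2 : ℝ) ^ (253 * ℓ) * Real.exp (-(c1 * ℓ)) ≤ F.card := by
    have hb : (ball n e0 : ℝ) ≤ Real.exp (c1 / 10 ^ 6 * n) := by
      rw [← Real.exp_log hballpos]
      exact Real.exp_le_exp.2 hball
    have hv : (Fintype.card P.V : ℝ) ^ 254 ≤ Real.exp (c1 / 10 ^ 6 * n) ^ 254 := by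
      refine pow_le_pow_left₀ hVpos.le ?_ _
      refine le_trans hV.le (Real.exp_le_exp.2 ?_)
      exact mul_le_mul_of_nonneg_right hε1 (Nat.cast_nonneg n)
    have hsplit : (2 : ℝ) ^ (n - 2) = 2 ^ (253 * ℓ) * 2 ^ e0 / 4 := by
      have : n - 2 + 2 = 253 * ℓ + e0 := by omega
      have h2 : (2 : ℝ) ^ (n - 2) * 2 ^ 2 = 2 ^ (253 * ℓ) * 2 ^ e0 := by
        rw [← pow_add, ← pow_add, this]
      linarith
    rw [hsplit] at hbig
    have he : (0 : ℝ) < 2 ^ e0 := by positivity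
    have hFn : (0 : ℝ) ≤ F.card := Nat.cast_nonneg _
    have h5' : (2 : ℝ) ^ (253 * ℓ) / 4 ≤ ball n e0 * ((Fintype.card P.V : ℝ) ^ 254 * F.card) := by
      have h := hbig
      have e1 : (2 : ℝ) ^ (253 * ℓ) * 2 ^ e0 / 4 = 2 ^ e0 * (2 ^ (253 * ℓ) / 4) := by ring
      have e2 : (ball n e0 : ℝ) * 2 ^ e0 * ((Fintype.card P.V : ℝ) ^ 254 * F.card) =
          2 ^ e0 * (ball n e0 * ((Fintype.card P.V : ℝ) ^ 254 * F.card)) := by ring
      rw [e1, e2] at h
      exact le_of_mul_le_mul_left h he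
    have h6' : (2 : ℝ) ^ (253 * ℓ) / 4 ≤ Real.exp (c1 / 10 ^ 6 * n) ^ 255 * F.card := by
      refine le_trans h5' ?_
      have : Real.exp (c1 / 10 ^ 6 * n) ^ 255 * (F.card : ℝ) =
          Real.exp (c1 / 10 ^ 6 * n) * (Real.exp (c1 / 10 ^ 6 * n) ^ 254 * F.card) := by ring
      rw [this]
      exact mul_le_mul hb (mul_le_mul_of_nonneg_right hv hFn)
        (mul_nonneg (pow_nonneg hVpos.le _) hFn) (Real.exp_pos _).le
    rw [← Real.exp_nat_mul] at h6'
    have h7 : 4 * Real.exp ((255 : ℕ) * (c1 / 10 ^ 6 * n)) ≤ Real.exp (c1 * ℓ) := by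
      have h4' : (4 : ℝ) ≤ Real.exp 2 := by
        have := Real.add_one_le_exp (1 : ℝ)
        have h11 : Real.exp 2 = Real.exp 1 * Real.exp 1 := by
          rw [← Real.exp_add]
          norm_num
        rw [h11]
        nlinarith
      refine le_trans (mul_le_mul_of_nonneg_right h4' (Real.exp_pos _).le) ?_
      rw [← Real.exp_add]
      refine Real.exp_le_exp.2 ?_
      have h8 : c1 * n ≤ 255 * (c1 * ℓ) := by
        refine le_trans (mul_le_mul_of_nonneg_left hℓ3' hc1.le) (le_of_eq ?_)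
        ring
      have h10 : ((255 : ℕ) : ℝ) * (c1 / 10 ^ 6 * n) = 255 / 10 ^ 6 * (c1 * n) := by
        push_cast
        ring
      rw [h10]
      linarith
    have h9 : (2 : ℝ) ^ (253 * ℓ) ≤ Real.exp (c1 * ℓ) * F.card := by
      calc (2 : ℝ) ^ (253 * ℓ) = 4 * (2 ^ (253 * ℓ) / 4) := by ring
        _ ≤ 4 * (Real.exp ((255 : ℕ) * (c1 / 10 ^ 6 * n)) * F.card) :=
            mul_le_mul_of_nonneg_left h6' (by norm_num)
        _ = (4 * Real.exp ((255 : ℕ) * (c1 / 10 ^ 6 * n))) * F.card := by ring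
        _ ≤ Real.exp (c1 * ℓ) * F.card := mul_le_mul_of_nonneg_right h7 hFn
    rw [Real.exp_neg, ← div_eq_mul_inv, div_le_iff₀ (Real.exp_pos _)]
    linarith
  have htb : (t : ℝ) ≤ Real.exp (c1 * ℓ) := by
    have h : (t : ℝ) ≤ Real.exp (c1 / 300 * n) + 1 := (Nat.ceil_lt_add_one (Real.exp_pos _).le).le
    have hone : (1 : ℝ) ≤ Real.exp (c1 / 300 * n) := Real.one_le_exp (by positivity)
    have h2e : (2 : ℝ) ≤ Real.exp 1 := by
      have := Real.add_one_le_exp (1 : ℝ)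
      linarith
    calc (t : ℝ) ≤ 2 * Real.exp (c1 / 300 * n) := by linarith
      _ ≤ Real.exp 1 * Real.exp (c1 / 300 * n) := mul_le_mul_of_nonneg_right h2e (Real.exp_pos _).le
      _ = Real.exp (1 + c1 / 300 * n) := (Real.exp_add _ _).symm
      _ ≤ Real.exp (c1 * ℓ) := by
          refine Real.exp_le_exp.2 ?_
          have h8 : c1 * n ≤ 255 * (c1 * ℓ) := by
            refine le_trans (mul_le_mul_of_nonneg_left hℓ3' hc1.le) (le_of_eq ?_)
            ring
          have h10 : c1 / 300 * n = c1 * n / 300 := by ring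
          rw [h10]
          linarith
  obtain ⟨T, x, hx, ht1, ht2⟩ := hCor ℓ hℓ4 0 t F own hGood (by
    rw [Nat.cast_zero]
    positivity) htb hF
  exact h6 n (253 * ℓ) 253 t (fq c) hNR ext φ e hφ hx1 hx2 F own
    (fun x hx y hy J hJ => hPa _ (hHyb x hx y hy J hJ)) T x hx ⟨ht1, ht2⟩

end SRBP
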