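import Pool.Agent.Lib.MP_9dcf40_lc.SR.SpecV

/-!
# The circuit value theorem (TopV)
-/

namespace SRBP

open Finset

/-- TOPV. -/
theorem tTopV (h1 : S_TopC) (h2 : S_Cir) (h3 : S_Res) : S_TopV := by
  obtain ⟨ε, hε, N, hN⟩ := h1
  refine ⟨ε, hε, N, fun n hn m hm P s hs hW hP => ?_⟩
  obtain ⟨c, hc⟩ := hN n hn
  obtain ⟨const, hconst⟩ := h2 n m c hm
  let σ : CVar n m → Bool ⊕ Fin n := fun a => match a with
    | Sum.inl p => Sum.inl (const (Sum.inl p))
    | Sum.inr (Sum.inl o) => Sum.inl (const (Sum.inr o))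
    | Sum.inr (Sum.inr i) => Sum.inr i
  have hσ1 : ∀ a i, σ a = Sum.inr i → a = Sum.inr (Sum.inr i) := by
    intro a i ha
    rcases a with p | o | j
    · have h5 : (Sum.inl (const (Sum.inl p)) : Bool ⊕ Fin n) = Sum.inr i := ha
      cases h5
    · have h5 : (Sum.inl (const (Sum.inr o)) : Bool ⊕ Fin n) = Sum.inr i := ha
      cases h5
    · have h5 : (Sum.inr j : Bool ⊕ Fin n) = Sum.inr i := ha
      rw [Sum.inr.inj h5]
  have hσ : ∀ a b i, σ a = Sum.inr i → σ b = Sum.inr i → a = b := fun a b i ha hb => by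
    rw [hσ1 a i ha, hσ1 b i hb]
  obtain ⟨P', hcard, hWk, hacc, -⟩ := h3 (CVar n m) (Fin n) P σ hσ
  rw [← hcard]
  refine hc P' s hs (hWk s hW) fun y => ?_
  have h4 : (fun a => Sum.elim id y (σ a)) = (fun a : CVar n m => match a with
      | Sum.inl p => const (Sum.inl p)
      | Sum.inr (Sum.inl o) => const (Sum.inr o)
      | Sum.inr (Sum.inr i) => y i) := by
    funext a
    rcases a with a | a | a <;> rfl
  rw [hacc, hP, h4]
  exact hconst y

end SRBP
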